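import Pool.Agent.Lib_helper66.CYL.Defs
import Pool.Agent.Lib_helper58.MBS.L.BJET
import Pool.Agent.Lib_helper58.MBS.L.BLIM

/-! # Cylinder theorem: ported block BBAI of MBS (quasi-minimal sets) -/

set_option autoImplicit false
set_option linter.unusedSectionVars false
set_option linter.unusedVariables false

open Filter Topology Metric Set

namespace Pool.Agent.CYL

open Pool.Agent.BR Pool.Agent.MBS

section fam

variable {E X : Type} [NormedAddCommGroup E] [NormedSpace ℂ E] [FiniteDimensional ℂ E]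
  [MetricSpace X] [CompactSpace X] {A : Cha E X} {C : ℝ} {M : Set (ℂ → X)}

theorem bbai_closed (hM : QM A C M) (s : ℕ) {D : Set ℂ} (hD : IsCompact D) :
    IsClosed {g : M | ∃ z ∈ D, VanAt A s (g : ℂ → X) z} := by
  rw [isClosed_iff_ultrafilter]
  intro g U hU hS
  have hz : ∀ h : M, ∃ z : ℂ, (∃ z ∈ D, VanAt A s (h : ℂ → X) z) →
      z ∈ D ∧ VanAt A s (h : ℂ → X) z := by
    intro h
    by_cases hh : ∃ z ∈ D, VanAt A s (h : ℂ → X) z
    · obtain ⟨z, h1, h2⟩ := hh
      exact ⟨z, fun _ => ⟨h1, h2⟩⟩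
    · exact ⟨0, fun h1 => absurd h1 hh⟩
  choose z hz using hz
  have h1 : ∀ᶠ h : M in (U : Filter M), z h ∈ D ∧ VanAt A s (h : ℂ → X) (z h) :=
    Filter.mem_of_superset hS fun h hh => hz h hh
  have h2 : D ∈ U.map z := by
    rw [Ultrafilter.mem_map]
    exact Filter.mem_of_superset h1 fun h hh => hh.1
  obtain ⟨z₀, hz₀, h3⟩ := hD.ultrafilter_le_nhds' (U.map z) h2
  have h4 : Tendsto z (U : Filter M) (𝓝 z₀) := h3
  have h5 : Tendsto (fun h : M => (h : ℂ → X)) (U : Filter M) (𝓝 (g : ℂ → X)) :=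
    (continuous_subtype_val.tendsto g).mono_left hU
  have h6 : ∀ᶠ h : M in (U : Filter M), (h : ℂ → X) ∈ BF A C :=
    Filter.Eventually.of_forall fun h => hM.sub h.2
  refine ⟨z₀, hz₀, fun i hi q hq1 hqs => ?_⟩
  have h7 := bf_jet h6 (hM.sub g.2) h5 h4 i hi q
  have h8 := bf_eval h6 (hM.sub g.2) h5 h4
  have h9 : ∀ᶠ h : M in (U : Filter M), (h : ℂ → X) (z h) ∈ (A.ch i).source :=
    h8 ((A.ch i).open_source.mem_nhds hi)
  have h10 : ∀ᶠ h : M in (U : Filter M), iteratedDeriv q (A.loc i (h : ℂ → X)) (z h) = 0 := by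
    filter_upwards [h1, h9] with h h11 h12
    exact h11.2 i h12 q hq1 hqs
  have h11 : Tendsto (fun h : M => iteratedDeriv q (A.loc i (h : ℂ → X)) (z h)) (U : Filter M)
      (𝓝 0) := tendsto_const_nhds.congr' (h10.mono fun h hh => hh.symm)
  exact tendsto_nhds_unique h7 h11

/-- BBAI: existence of stable members in every relatively open subset -/
theorem exists_stable_pr (hM : QM A C M) {O : Set (ℂ → X)} (hO : IsOpen O)
    (hOne : (M ∩ O).Nonempty) : ∃ f ∈ M, f ∈ O ∧ Stable A M f := by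
  have : CompactSpace M := isCompact_iff_compactSpace.1 (min_compact hM)
  set S : ℕ × ℕ × ℕ → Set M := fun t =>
    {g : M | ∃ z ∈ closedBall (TopologicalSpace.denseSeq ℂ t.2.1) (1 / ((t.2.2 : ℝ) + 1)),
      VanAt A t.1 (g : ℂ → X) z} with hS
  have hcl : ∀ t, IsClosed (S t) := fun t => bbai_closed hM t.1 (isCompact_closedBall _ _)
  have h1 : Dense (⋂ t, (frontier (S t))ᶜ) := by
    apply dense_iInter_of_isOpen
    · intro t
      exact isClosed_frontier.isOpen_compl
    · intro t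
      exact interior_eq_empty_iff_dense_compl.1 (interior_frontier (hcl t))
  obtain ⟨f, hfO, hf⟩ := h1.inter_open_nonempty ((fun g : M => (g : ℂ → X)) ⁻¹' O)
    (hO.preimage continuous_subtype_val) (by
      obtain ⟨g, hgM, hgO⟩ := hOne
      exact ⟨⟨g, hgM⟩, hgO⟩)
  refine ⟨f, f.2, hfO, fun s z hv ε hε => ?_⟩
  obtain ⟨k, hk⟩ := exists_nat_one_div_lt (by linarith : (0 : ℝ) < ε / 2)
  obtain ⟨n, hn⟩ := (TopologicalSpace.denseRange_denseSeq ℂ).exists_dist_lt z
    (by positivity : (0 : ℝ) < 1 / ((k : ℝ) + 1))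
  have h2 : f ∈ S (s, n, k) := ⟨z, mem_closedBall.2 hn.le, hv⟩
  have h3 : f ∈ interior (S (s, n, k)) := by
    by_contra h
    exact (mem_iInter.1 hf (s, n, k)) ⟨subset_closure h2, h⟩
  rw [mem_interior_iff_mem_nhds] at h3
  have h4 : ∀ᶠ h in 𝓝 f, h ∈ S (s, n, k) := h3
  rw [nhdsWithin_eq_map_subtype_coe f.2, eventually_map]
  filter_upwards [h4] with h hh
  obtain ⟨z', hz', hv'⟩ := hh
  refine ⟨z', ?_, hv'⟩
  rw [← dist_eq_norm]
  have h5 := dist_triangle z' (TopologicalSpace.denseSeq ℂ n) z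
  rw [mem_closedBall] at hz'
  rw [dist_comm] at hn
  linarith


end fam

end Pool.Agent.CYL

namespace Pool.Agent.CYL
alias exists_stable := exists_stable_pr
end Pool.Agent.CYL
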