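import Pool.Agent.Lib_helper66.CYL.Defs
import Pool.Agent.Lib_helper58.MBS.L.AINV
import Pool.Agent.Lib_helper58.MBS.L.BCHT
import Pool.Agent.Lib_helper58.MBS.L.BLIM
import Pool.Agent.Lib_helper58.MBS.L.BNC

set_option autoImplicit false
set_option linter.unusedSectionVars false
set_option linter.unusedVariables false

open Filter Topology Metric Set

namespace Pool.Agent.CYL

open Pool.Agent.BR Pool.Agent.MBS

section fam

variable {E X : Type} [NormedAddCommGroup E] [NormedSpace ℂ E] [FiniteDimensional ℂ E]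
  [MetricSpace X] [CompactSpace X] {A : Cha E X} {C : ℝ} {M : Set (ℂ → X)}

theorem bsmc_mono {θ θ' ε ε' : ℝ} {g : ℂ → X} {ζ : ℂ} (h : Smp θ ε g ζ) (hθ : θ' ≤ θ)
    (hε : ε' ≤ ε) : Smp θ' ε' g ζ := fun u hu =>
  (mul_le_mul_of_nonneg_right hθ (norm_nonneg _)).trans (h u (hu.trans hε))

/-- BSMC: points near a noncritical point are sample points, uniformly for the curves near `f` -/
theorem nc_smp_pr {lam L : ℝ} (hB : BLip A lam L) (hM : QM A C M) {f : ℂ → X} (hf : f ∈ M) {z : ℂ}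
    (hz : NC A f z) : ∃ θ > 0, ∃ ε > 0, ∃ ρ > 0, ∀ᶠ g in 𝓝[M] f, ∀ ζ ∈ ball z ρ,
      Smp θ ε g ζ := by
  obtain ⟨i, hi⟩ := hB.leb (f z)
  have hlam := hB.lam_pos
  have hfB : f ∈ BF A C := hM.sub hf
  have hgB : ∀ᶠ g in 𝓝[M] f, id g ∈ BF A C := by
    filter_upwards [self_mem_nhdsWithin] with g hg
    exact hM.sub hg
  have hlim : Tendsto (id : (ℂ → X) → (ℂ → X)) (𝓝[M] f) (𝓝 f) := nhdsWithin_le_nhds
  have hcl : f z ∈ closure (A.W i) := subset_closure (hi (mem_ball_self hlam))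
  have hsrc : f z ∈ (A.ch i).source := A.W_sub i hcl
  have hd : deriv (A.loc i f) z ≠ 0 := hz i hsrc
  obtain ⟨l, hl⟩ : ∃ l : E →L[ℂ] ℂ, l (deriv (A.loc i f) z) ≠ 0 :=
    SeparatingDual.exists_ne_zero hd
  have hlne : l ≠ 0 := by
    rintro rfl
    exact hl rfl
  have hln : 0 < ‖l‖ := norm_pos_iff.2 hlne
  obtain ⟨r, hr, hfr, hgr, hunif⟩ := bf_chart (F := 𝓝[M] f) (g := id) hgB hfB hlim z i hsrc
  -- the function `φ`
  have hφan : AnalyticAt ℂ (fun w => l (A.loc i f w)) z :=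
    (l.analyticAt _).comp (hfr z (mem_ball_self hr)).2
  have hφd : deriv (fun w => l (A.loc i f w)) z ≠ 0 := by
    have hda : HasDerivAt (A.loc i f) (deriv (A.loc i f) z) z :=
      (hfr z (mem_ball_self hr)).2.differentiableAt.hasDerivAt
    have h2 : HasDerivAt (fun w => l (A.loc i f w)) (l (deriv (A.loc i f) z)) z :=
      l.hasFDerivAt.comp_hasDerivAt z hda
    rw [h2.deriv]
    exact hl
  obtain ⟨r₁, hr₁, hr₁r, ρ, hρ, δ, hδ, B, hBp, hinv⟩ := unif_inv hφan hφd r hr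
  have hev1 : ∀ᶠ g in 𝓝[M] f, ∀ w ∈ ball z r, ‖l (A.loc i g w) - l (A.loc i f w)‖ ≤ δ := by
    filter_upwards [Metric.tendstoUniformlyOn_iff.1 hunif (δ / ‖l‖) (by positivity)]
      with g hg w hw
    have h1 := hg w hw
    rw [dist_comm, dist_eq_norm] at h1
    rw [← map_sub]
    calc ‖l (A.loc i g w - A.loc i f w)‖ ≤ ‖l‖ * ‖A.loc i g w - A.loc i f w‖ := l.le_opNorm _
      _ ≤ ‖l‖ * (δ / ‖l‖) := mul_le_mul_of_nonneg_left h1.le hln.le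
      _ = δ := by field_simp
  -- nearness in the metric
  have hfc : ContinuousAt f z := (hfB.1 z).1
  obtain ⟨r₂, hr₂, hr₂b⟩ := Metric.continuousAt_iff.1 hfc (lam / 2) (by positivity)
  have hev2 : ∀ᶠ g in 𝓝[M] f, ∀ w, ‖w‖ ≤ ‖z‖ + r₂ → dist (g w) (f w) < lam / 2 :=
    bf_unif (F := 𝓝[M] f) (g := id) hgB hfB hlim (‖z‖ + r₂) (lam / 2) (by positivity)
  have hL : 0 < L := lt_of_lt_of_le one_pos hB.L_one
  refine ⟨1 / (B * ‖l‖ * L), by positivity, min r₁ r₂ / 2, by positivity, min r₁ r₂ / 2,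
    by positivity, ?_⟩
  filter_upwards [hev1, hev2, hgr] with g h1 h2 h3 ζ hζ u hu
  have hζ' : ‖ζ - z‖ < min r₁ r₂ / 2 := mem_ball_iff_norm.1 hζ
  have hmin : 0 < min r₁ r₂ := lt_min hr₁ hr₂
  have hζm : ‖ζ - z‖ < min r₁ r₂ := by linarith
  have hum : ‖u - z‖ < min r₁ r₂ := by
    calc ‖u - z‖ = ‖(u - ζ) + (ζ - z)‖ := by ring_nf
      _ ≤ ‖u - ζ‖ + ‖ζ - z‖ := norm_add_le _ _
      _ < min r₁ r₂ := by linarith
  have hnear : ∀ w, ‖w - z‖ < min r₁ r₂ → g w ∈ ball (f z) lam := by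
    intro w hw
    have hw2 : ‖w - z‖ < r₂ := lt_of_lt_of_le hw (min_le_right _ _)
    have a1 : dist (f w) (f z) < lam / 2 := hr₂b (by rw [dist_eq_norm]; exact hw2)
    have a2 : dist (g w) (f w) < lam / 2 := by
      refine h2 w ?_
      calc ‖w‖ = ‖(w - z) + z‖ := by ring_nf
        _ ≤ ‖w - z‖ + ‖z‖ := norm_add_le _ _
        _ ≤ ‖z‖ + r₂ := by linarith
    rw [mem_ball]
    calc dist (g w) (f z) ≤ dist (g w) (f w) + dist (f w) (f z) := dist_triangle _ _ _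
      _ < lam := by linarith
  have h4 := (hinv (fun w => l (A.loc i g w))
    (fun w hw => (l.analyticAt _).comp (h3 w hw).2) h1).1 ζ
    (mem_ball_iff_norm.2 (lt_of_lt_of_le hζm (min_le_left _ _))) u
    (mem_ball_iff_norm.2 (lt_of_lt_of_le hum (min_le_left _ _)))
  have h5 := hB.ch_le i (f z) hcl (g ζ) (hnear ζ hζm) (g u) (hnear u hum)
  have h6 : ‖l (A.loc i g ζ) - l (A.loc i g u)‖ ≤ ‖l‖ * (L * dist (g ζ) (g u)) := by
    rw [← map_sub]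
    exact (l.le_opNorm _).trans (mul_le_mul_of_nonneg_left h5 hln.le)
  have h7 : ‖u - ζ‖ ≤ B * (‖l‖ * (L * dist (g ζ) (g u))) := by
    rw [norm_sub_rev]
    exact h4.trans (mul_le_mul_of_nonneg_left h6 hBp.le)
  rw [div_mul_eq_mul_div, one_mul, div_le_iff₀ (by positivity)]
  calc ‖u - ζ‖ ≤ B * (‖l‖ * (L * dist (g ζ) (g u))) := h7
    _ = dist (g ζ) (g u) * (B * ‖l‖ * L) := by ring

/-- a circle of noncritical points -/
theorem bsmc_circle {f : ℂ → X} (hf : ∀ z, A.HolAt f z) (hne : ∃ z z', f z ≠ f z') :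
    ∃ s : ℝ, 1 < s ∧ s < 2 ∧ ∀ z : ℂ, ‖z‖ = s → NC A f z := by
  have hc : ((fun z : ℂ => ‖z‖) '' {z | ¬ NC A f z}).Countable :=
    (crit_countable (A := A) hf hne).2.image _
  have hu : ¬ (Ioo (1 : ℝ) 2).Countable := by
    intro h
    have := (Cardinal.mk_Ioo_real (by norm_num : (1 : ℝ) < 2))
    have h2 := (Cardinal.le_aleph0_iff_set_countable).2 h
    rw [this] at h2
    exact absurd h2 (not_le.2 Cardinal.aleph0_lt_continuum)
  have hnsub : ¬ (Ioo (1 : ℝ) 2 ⊆ (fun z : ℂ => ‖z‖) '' {z | ¬ NC A f z}) := fun h =>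
    hu (hc.mono h)
  obtain ⟨s, hs, hs2⟩ := not_subset.1 hnsub
  refine ⟨s, hs.1, hs.2, fun z hz => ?_⟩
  by_contra hcon
  exact hs2 ⟨z, hcon, hz⟩

/-- uniform samples near a circle -/
theorem bsmc_local {lam L : ℝ} (hB : BLip A lam L) (hM : QM A C M) {f : ℂ → X} (hf : f ∈ M)
    (hfn : NCst f) :
    ∃ θ > 0, ∃ ε > 0, ε ≤ 1 ∧ ∃ s : ℝ, 1 < s ∧ s < 2 ∧ ∃ η > 0, ∀ᶠ g in 𝓝[M] f, ∀ ζ : ℂ,
      s - η < ‖ζ‖ → ‖ζ‖ < s + η → Smp θ ε g ζ := by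
  obtain ⟨s, hs1, hs2, hs⟩ := bsmc_circle (A := A) (hM.sub hf).1 hfn
  have hcomp : IsCompact (sphere (0 : ℂ) s) := isCompact_sphere _ _
  have key : ∃ θ > 0, ∃ ε > 0, ε ≤ 1 ∧ ∃ η > 0, ∀ᶠ g in 𝓝[M] f, ∀ z ∈ sphere (0 : ℂ) s,
      ∀ ζ ∈ ball z η, Smp θ ε g ζ := by
    refine hcomp.induction_on (p := fun S => ∃ θ > 0, ∃ ε > 0, ε ≤ (1 : ℝ) ∧ ∃ η > 0,
      ∀ᶠ g in 𝓝[M] f, ∀ z ∈ S, ∀ ζ ∈ ball z η, Smp θ ε g ζ) ?_ ?_ ?_ ?_
    · exact ⟨1, one_pos, 1, one_pos, le_refl _, 1, one_pos,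
        Eventually.of_forall fun g z hz => absurd hz (notMem_empty _)⟩
    · rintro S T hST ⟨θ, hθ, ε, hε, hε1, η, hη, h⟩
      exact ⟨θ, hθ, ε, hε, hε1, η, hη, h.mono fun g hg z hz => hg z (hST hz)⟩
    · rintro S T ⟨θ, hθ, ε, hε, hε1, η, hη, h⟩ ⟨θ', hθ', ε', hε', hε1', η', hη', h'⟩
      refine ⟨min θ θ', lt_min hθ hθ', min ε ε', lt_min hε hε', (min_le_left _ _).trans hε1,
        min η η', lt_min hη hη', ?_⟩
      filter_upwards [h, h'] with g hg hg' z hz ζ hζ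
      rcases hz with hz | hz
      · exact bsmc_mono (hg z hz ζ (ball_subset_ball (min_le_left _ _) hζ)) (min_le_left _ _)
          (min_le_left _ _)
      · exact bsmc_mono (hg' z hz ζ (ball_subset_ball (min_le_right _ _) hζ)) (min_le_right _ _)
          (min_le_right _ _)
    · intro z hz
      obtain ⟨θ, hθ, ε, hε, ρ, hρ, h⟩ := nc_smp_pr hB hM hf (hs z (by simpa using hz))
      refine ⟨ball z (ρ / 2), mem_nhdsWithin_of_mem_nhds (ball_mem_nhds z (by positivity)),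
        θ, hθ, min ε 1, lt_min hε one_pos, min_le_right _ _, ρ / 2, by positivity, ?_⟩
      filter_upwards [h] with g hg w hw ζ hζ
      refine bsmc_mono (hg ζ ?_) (le_refl _) (min_le_left _ _)
      rw [mem_ball] at hw hζ ⊢
      calc dist ζ z ≤ dist ζ w + dist w z := dist_triangle _ _ _
        _ < ρ := by linarith
  obtain ⟨θ, hθ, ε, hε, hε1, η, hη, h⟩ := key
  refine ⟨θ, hθ, ε, hε, hε1, s, hs1, hs2, min η 1, lt_min hη one_pos, ?_⟩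
  filter_upwards [h] with g hg ζ h1 h2
  have hη1 : min η 1 ≤ 1 := min_le_right _ _
  have hη2 : min η 1 ≤ η := min_le_left _ _
  have hpos : 0 < ‖ζ‖ := by linarith
  have hne : (‖ζ‖ : ℂ) ≠ 0 := by exact_mod_cast hpos.ne'
  have hs0 : 0 < s := by linarith
  refine hg ((s / ‖ζ‖ : ℂ) * ζ) ?_ ζ ?_
  · rw [mem_sphere_zero_iff_norm, norm_mul, norm_div, Complex.norm_real, Complex.norm_real,
      Real.norm_of_nonneg hs0.le, norm_norm]
    field_simp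
  · rw [mem_ball, dist_eq_norm]
    have e1 : ζ - (s / ‖ζ‖ : ℂ) * ζ = (((‖ζ‖ - s) / ‖ζ‖ : ℝ) : ℂ) * ζ := by
      push_cast
      field_simp
    rw [e1, norm_mul, Complex.norm_real, Real.norm_eq_abs, abs_div, abs_norm]
    have e2 : |‖ζ‖ - s| / ‖ζ‖ * ‖ζ‖ = |‖ζ‖ - s| := by field_simp
    rw [e2, abs_lt]
    constructor <;> linarith

/-- BSMC: uniform sample circles -/
theorem exists_smp_pr {lam L : ℝ} (hB : BLip A lam L) (hM : QM A C M) {K : Set (ℂ → X)}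
    (hcomp : IsCompact K) (hKM : K ⊆ M) (hKn : ∀ g ∈ K, NCst g) : ∃ θ ε, SmpK M K θ ε := by
  have key : ∃ θ > 0, ∃ ε > 0, ε ≤ (1 : ℝ) ∧ ∀ f ∈ K, ∃ s : ℝ, 1 < s ∧ s < 2 ∧ ∃ η > 0,
      ∀ᶠ g in 𝓝[M] f, ∀ ζ : ℂ, s - η < ‖ζ‖ → ‖ζ‖ < s + η → Smp θ ε g ζ := by
    refine hcomp.induction_on (p := fun S => ∃ θ > 0, ∃ ε > 0, ε ≤ (1 : ℝ) ∧ ∀ f ∈ S,
      ∃ s : ℝ, 1 < s ∧ s < 2 ∧ ∃ η > 0,
      ∀ᶠ g in 𝓝[M] f, ∀ ζ : ℂ, s - η < ‖ζ‖ → ‖ζ‖ < s + η → Smp θ ε g ζ) ?_ ?_ ?_ ?_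
    · exact ⟨1, one_pos, 1, one_pos, le_refl _, fun f hf => absurd hf (notMem_empty _)⟩
    · rintro S T hST ⟨θ, hθ, ε, hε, hε1, h⟩
      exact ⟨θ, hθ, ε, hε, hε1, fun f hf => h f (hST hf)⟩
    · rintro S T ⟨θ, hθ, ε, hε, hε1, h⟩ ⟨θ', hθ', ε', hε', hε1', h'⟩
      refine ⟨min θ θ', lt_min hθ hθ', min ε ε', lt_min hε hε', (min_le_left _ _).trans hε1, ?_⟩
      rintro f (hf | hf)
      · obtain ⟨s, hs1, hs2, η, hη, hg⟩ := h f hf
        exact ⟨s, hs1, hs2, η, hη, hg.mono fun g hg ζ h1 h2 =>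
          bsmc_mono (hg ζ h1 h2) (min_le_left _ _) (min_le_left _ _)⟩
      · obtain ⟨s, hs1, hs2, η, hη, hg⟩ := h' f hf
        exact ⟨s, hs1, hs2, η, hη, hg.mono fun g hg ζ h1 h2 =>
          bsmc_mono (hg ζ h1 h2) (min_le_right _ _) (min_le_right _ _)⟩
    · intro f hf
      obtain ⟨θ, hθ, ε, hε, hε1, s, hs1, hs2, η, hη, h⟩ := bsmc_local hB hM (hKM hf) (hKn f hf)
      refine ⟨{g | ∀ᶠ g' in 𝓝[M] g, ∀ ζ : ℂ, s - η < ‖ζ‖ → ‖ζ‖ < s + η → Smp θ ε g' ζ},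
        nhdsWithin_mono f hKM (eventually_eventually_nhdsWithin.2 h), θ, hθ, ε, hε, hε1,
        fun f' hf' => ?_⟩
      exact ⟨s, hs1, hs2, η, hη, hf'⟩
  obtain ⟨θ, hθ, ε, hε, hε1, h⟩ := key
  exact ⟨θ, ε, hθ, hε, hε1, h⟩

end fam

end Pool.Agent.CYL

namespace Pool.Agent.CYL
alias nc_smp := nc_smp_pr
alias exists_smp := exists_smp_pr
end Pool.Agent.CYL
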