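import Pool.Agent.Lib_helper66.CYL.Defs

/-! # Cylinder theorem: ported block BVIS of MBS (quasi-minimal sets) -/

set_option autoImplicit false
set_option linter.unusedSectionVars false
set_option linter.unusedVariables false

open Filter Topology Metric Set

namespace Pool.Agent.CYL

open Pool.Agent.BR Pool.Agent.MBS

section fam

variable {E X : Type} [NormedAddCommGroup E] [NormedSpace ℂ E] [FiniteDimensional ℂ E]
  [MetricSpace X] [CompactSpace X] {A : Cha E X} {C : ℝ} {M : Set (ℂ → X)}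

theorem bvis_tr_cont (w : ℂ) : Continuous (fun g : ℂ → X => tr w g) :=
  continuous_pi fun z => continuous_apply (z + w)

theorem bvis_tr_tr (w w' : ℂ) (g : ℂ → X) : tr w (tr w' g) = tr (w + w') g := by
  funext z
  simp only [tr]
  rw [add_assoc]

theorem bvis_tr_zero (g : ℂ → X) : tr 0 g = g := by
  funext z
  simp only [tr]
  rw [add_zero]

/-- BVIS: every orbit visits every open subset of a minimal set -/
theorem min_visit_pr (hM : QM A C M) {g f : ℂ → X} (hg : g ∈ M) (hgn : NCst g) (hf : f ∈ M)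
    {V : Set (ℂ → X)} (hV : V ∈ 𝓝[M] f) : ∃ w, tr w g ∈ V := by
  obtain ⟨O, hO, hfO, hOV⟩ := mem_nhdsWithin.1 hV
  by_contra hcon
  push Not at hcon
  have hN : {h | h ∈ M ∧ ∀ w, tr w h ∉ O} = M := by
    refine hM.min _ (fun h hh => hh.1) ?_ ⟨g, ⟨hg, fun w hw => ?_⟩, hgn⟩ ?_
    · have : {h | h ∈ M ∧ ∀ w, tr w h ∉ O} = M ∩ ⋂ w : ℂ, (fun h => tr w h) ⁻¹' Oᶜ := by
        ext h
        simp
      rw [this]
      exact hM.closed.inter (isClosed_iInter fun w => hO.isClosed_compl.preimage (bvis_tr_cont w))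
    · exact hcon w (hOV ⟨hw, hM.inv g hg w⟩)
    · rintro h ⟨h1, h2⟩ w
      refine ⟨hM.inv h h1 w, fun w' => ?_⟩
      rw [bvis_tr_tr]
      exact h2 _
  have h1 : f ∈ {h | h ∈ M ∧ ∀ w, tr w h ∉ O} := by rw [hN]; exact hf
  have h2 := h1.2 0
  rw [bvis_tr_zero] at h2
  exact h2 hfO

/-- BVIS: a closed translation invariant property holds for all members or for no nonconstant
member -/
theorem min_dich_pr (hM : QM A C M) (p : (ℂ → X) → Prop) (hp : IsClosed {g | g ∈ M ∧ p g})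
    (hi : ∀ g ∈ M, p g → ∀ w, p (tr w g)) : (∀ g ∈ M, p g) ∨ ∀ g ∈ M, NCst g → ¬ p g := by
  by_cases h : ∃ g ∈ M, NCst g ∧ p g
  · left
    obtain ⟨g, hg, hgn, hpg⟩ := h
    have hN : {g | g ∈ M ∧ p g} = M := by
      refine hM.min _ (fun h hh => hh.1) hp ⟨g, ⟨hg, hpg⟩, hgn⟩ ?_
      rintro h ⟨h1, h2⟩ w
      exact ⟨hM.inv h h1 w, hi h h1 h2 w⟩
    intro h hh
    have h1 : h ∈ {g | g ∈ M ∧ p g} := by rw [hN]; exact hh
    exact h1.2
  · right
    push Not at h
    exact h

end fam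


end Pool.Agent.CYL

namespace Pool.Agent.CYL
alias min_visit := min_visit_pr
alias min_dich := min_dich_pr
end Pool.Agent.CYL
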