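import Pool.Agent.Lib_helper66.CYL.Defs
import Pool.Agent.Lib_helper58.MBS.L.BJET
import Pool.Agent.Lib_helper66.CYL.P.BVIS

/-! # Cylinder theorem: ported block CLEV of MBS (quasi-minimal sets) -/

set_option autoImplicit false
set_option linter.unusedSectionVars false
set_option linter.unusedVariables false

open Filter Topology Metric Set

namespace Pool.Agent.CYL

open Pool.Agent.BR Pool.Agent.MBS

section jets

variable {E X : Type} [NormedAddCommGroup E] [NormedSpace ℂ E] [FiniteDimensional ℂ E]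
  [MetricSpace X] [CompactSpace X] {A : Cha E X} {C : ℝ} {M : Set (ℂ → X)} {k m : ℕ}
  {P : (ℂ → X) → ℂ} {Q : A.ι → (Fin (k + 1) → E) → ℂ}

theorem clev_jet_tr (i : A.ι) (f : ℂ → X) (w z : ℂ) (q : ℕ) :
    iteratedDeriv q (A.loc i (tr w f)) z = iteratedDeriv q (A.loc i f) (z + w) := by
  have h : A.loc i (tr w f) = fun w' => A.loc i f (w' + w) := rfl
  rw [h, iteratedDeriv_comp_add_const]

theorem clev_zp_tr {p : ℕ} {f : ℂ → X} {w z : ℂ} (h : Zp A Q p f (z + w)) :
    Zp A Q p (tr w f) z := by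
  intro i hi s hs hq
  refine h i hi s hs fun q hqp => ?_
  rw [hq q hqp, clev_jet_tr]

theorem clev_target {f : ℂ → X} {i : A.ι} (hi : f 0 ∈ (A.ch i).source) :
    jt A k i f 0 ∈ (A.ch i).target := by
  have : jt A k i f 0 = A.ch i (f 0) := by
    simp [jt, Cha.loc]
  rw [this]
  exact (A.ch i).map_source hi

theorem clev_closed (hM : QM A C M) (hJ : JD A k m P Q) (p : ℕ) :
    IsClosed {f | f ∈ M ∧ ∀ z, Zp A Q p f z} := by
  rw [isClosed_iff_ultrafilter]
  intro f U hU hmem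
  have hMU : M ∈ U := by
    filter_upwards [hmem] with g hg using hg.1
  have hfM : f ∈ M := isClosed_iff_ultrafilter.1 hM.closed f U hU hMU
  refine ⟨hfM, fun z i hi s hs hq => ?_⟩
  have hBF : ∀ᶠ g in (U : Filter (ℂ → X)), (fun g : ℂ → X => g) g ∈ BF A C := by
    filter_upwards [hMU] with g hg using hM.sub hg
  have hlim : Tendsto (fun g : ℂ → X => g) (U : Filter (ℂ → X)) (𝓝 f) := hU
  -- the perturbed jets
  let S : (ℂ → X) → Fin (k + 1) → E := fun g q =>
    if (q : ℕ) < p then iteratedDeriv q (A.loc i g) z else s q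
  have hS : Tendsto S (U : Filter (ℂ → X)) (𝓝 s) := by
    rw [tendsto_pi_nhds]
    intro q
    by_cases hqp : (q : ℕ) < p
    · have h1 := bf_jet hBF (hM.sub hfM) hlim (z := fun _ => z) tendsto_const_nhds i hi q
      rw [← hq q hqp] at h1
      refine h1.congr fun g => ?_
      simp only [S, if_pos hqp]
    · refine tendsto_const_nhds.congr fun g => ?_
      simp only [S, if_neg hqp]
  have hS0 : ∀ᶠ g in (U : Filter (ℂ → X)), S g 0 ∈ (A.ch i).target := by
    have h0 : Tendsto (fun g => S g 0) (U : Filter (ℂ → X)) (𝓝 (s 0)) :=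
      (tendsto_pi_nhds.1 hS) 0
    exact h0.eventually ((A.ch i).open_target.mem_nhds hs)
  have hsrc : ∀ᶠ g in (U : Filter (ℂ → X)), g z ∈ (A.ch i).source := by
    have h0 : Tendsto (fun g : ℂ → X => g z) (U : Filter (ℂ → X)) (𝓝 (f z)) :=
      ((continuous_apply z).tendsto f).comp hlim
    exact h0.eventually ((A.ch i).open_source.mem_nhds hi)
  have hQ : Tendsto (fun g => Q i (S g)) (U : Filter (ℂ → X)) (𝓝 (Q i s)) :=
    ((hJ.an i s hs).continuousAt.tendsto).comp hS
  have hz : ∀ᶠ g in (U : Filter (ℂ → X)), Q i (S g) = 0 := by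
    filter_upwards [hmem, hS0, hsrc] with g hg h0 h1
    refine hg.2 z i h1 (S g) h0 fun q hqp => ?_
    simp only [S, if_pos hqp]
  have : Tendsto (fun _ : ℂ → X => (0 : ℂ)) (U : Filter (ℂ → X)) (𝓝 (Q i s)) :=
    hQ.congr' hz
  exact (tendsto_nhds_unique this tendsto_const_nhds)

/-- CLEV: the level `p` -/
theorem exists_level_pr (hM : QM A C M) (hJ : JD A k m P Q) (hP : ∀ f ∈ M, P f = 0) :
    ∃ p : Fin (k + 1), (∀ f ∈ M, NCst f → ∃ z, ¬ Zp A Q p f z) ∧
      ∀ f ∈ M, ∀ z, Zp A Q (p + 1) f z := by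
  classical
  obtain ⟨f₀, hf₀, hf₀n⟩ := hM.ex
  have hdich : ∀ p : ℕ, (∀ g ∈ M, ∀ z, Zp A Q p g z) ∨
      ∀ g ∈ M, NCst g → ¬ ∀ z, Zp A Q p g z := fun p =>
    min_dich hM (fun g => ∀ z, Zp A Q p g z) (clev_closed hM hJ p)
      fun g hg hpg w z => clev_zp_tr (hpg (z + w))
  have h0 : ¬ ∀ g ∈ M, ∀ z, Zp A Q 0 g z := by
    intro h
    obtain ⟨i, hi⟩ := A.cover (f₀ 0)
    have hi' : f₀ 0 ∈ (A.ch i).source := A.W_sub i (subset_closure hi)
    obtain ⟨c, hc, hc0, hPc⟩ := hJ.ne (A.ch i).source (A.ch i).open_source ⟨_, hi'⟩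
    apply hPc
    rw [hJ.eq i c hc hc0]
    exact h f₀ hf₀ 0 i hi' _ (clev_target hc0) fun q hq => absurd hq (Nat.not_lt_zero _)
  have hk1 : ∀ g ∈ M, ∀ z, Zp A Q (k + 1) g z := by
    intro g hg z i hi s hs hq
    have hs' : s = jt A k i (tr z g) := by
      funext q
      rw [hq q q.2]
      simp only [jt]
      rw [clev_jet_tr]
      simp
    have hgz : tr z g ∈ M := hM.inv g hg z
    have h1 : tr z g 0 ∈ (A.ch i).source := by simpa [tr] using hi
    rw [hs', ← hJ.eq i (tr z g) (Eventually.of_forall (hM.sub hgz).1) h1]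
    exact hP _ hgz
  have hex : ∃ p : ℕ, ∀ g ∈ M, ∀ z, Zp A Q p g z := ⟨k + 1, hk1⟩
  let p' := Nat.find hex
  have hp' : ∀ g ∈ M, ∀ z, Zp A Q p' g z := Nat.find_spec hex
  have hle : p' ≤ k + 1 := Nat.find_min' hex hk1
  have hpos : p' ≠ 0 := by
    intro h
    rw [h] at hp'
    exact h0 hp'
  obtain ⟨p, hp⟩ := Nat.exists_eq_succ_of_ne_zero hpos
  have hpk : p < k + 1 := by omega
  refine ⟨⟨p, hpk⟩, ?_, ?_⟩
  · have hnot : ¬ ∀ g ∈ M, ∀ z, Zp A Q p g z := Nat.find_min hex (by show p < p'; omega)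
    intro f hf hfn
    rcases hdich p with h | h
    · exact absurd h hnot
    · have := h f hf hfn
      push Not at this
      exact this
  · intro f hf z
    have := hp' f hf z
    rw [hp] at this
    exact this

end jets

end Pool.Agent.CYL

namespace Pool.Agent.CYL
alias exists_level := exists_level_pr
end Pool.Agent.CYL
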