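import Pool.Agent.Lib_helper66.CYL.Defs
import Pool.Agent.Lib_helper58.MBS.L.COCI
import Pool.Agent.Lib_helper66.CYL.P.CPHI

/-! # Cylinder theorem: ported block CREG of MBS (quasi-minimal sets) -/

set_option autoImplicit false
set_option linter.unusedSectionVars false
set_option linter.unusedVariables false

open Filter Topology Metric Set

namespace Pool.Agent.CYL

open Pool.Agent.BR Pool.Agent.MBS

section creg_pure

/-- the iterated derivatives in the last variable of a jointly analytic function are analytic -/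
theorem creg_iter {S : Type} [NormedAddCommGroup S] [NormedSpace ℂ S] (n : ℕ) (G : S × ℂ → ℂ)
    (x : S × ℂ) (hG : AnalyticAt ℂ G x) :
    AnalyticAt ℂ (fun y : S × ℂ => iteratedDeriv n (fun a : ℂ => G (y.1, a)) y.2) x := by
  induction n generalizing x with
  | zero => simpa using hG
  | succ n ih =>
    have h1 : ∀ᶠ y in 𝓝 x, AnalyticAt ℂ G y := hG.eventually_analyticAt
    have h2 : (fun y : S × ℂ => iteratedDeriv (n + 1) (fun a : ℂ => G (y.1, a)) y.2) =ᶠ[𝓝 x]
        fun y => fderiv ℂ (fun y : S × ℂ => iteratedDeriv n (fun a : ℂ => G (y.1, a)) y.2) y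
          ((0 : S), (1 : ℂ)) := by
      filter_upwards [h1] with y hy
      have h3 := (ih y hy).differentiableAt
      have h4 : HasFDerivAt (fun y : S × ℂ => iteratedDeriv n (fun a : ℂ => G (y.1, a)) y.2)
          (fderiv ℂ (fun y : S × ℂ => iteratedDeriv n (fun a : ℂ => G (y.1, a)) y.2) y) y :=
        h3.hasFDerivAt
      have h5 : HasDerivAt (fun a : ℂ => ((y.1, a) : S × ℂ)) ((0 : S), (1 : ℂ)) y.2 := by
        exact (hasDerivAt_const y.2 y.1).prodMk (hasDerivAt_id y.2)
      have h6 : HasDerivAt (fun a : ℂ => iteratedDeriv n (fun a : ℂ => G (y.1, a)) a)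
          (fderiv ℂ (fun y : S × ℂ => iteratedDeriv n (fun a : ℂ => G (y.1, a)) y.2) y
            ((0 : S), (1 : ℂ))) y.2 := by
        have := HasFDerivAt.comp_hasDerivAt (x := y.2)
          (f := fun a : ℂ => ((y.1, a) : S × ℂ)) (l := fun y : S × ℂ =>
            iteratedDeriv n (fun a : ℂ => G (y.1, a)) y.2) (by simpa using h4) h5
        exact this
      rw [iteratedDeriv_succ]
      exact h6.deriv
    have h7 : AnalyticAt ℂ (fun y => fderiv ℂ (fun y : S × ℂ => iteratedDeriv n (fun a : ℂ => G (y.1, a)) y.2) y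
          ((0 : S), (1 : ℂ))) x := by
      have h8 := (ih x hG).fderiv
      exact ((ContinuousLinearMap.apply ℂ ℂ ((0 : S), (1 : ℂ))).analyticAt _).comp h8
    exact h7.congr h2.symm

end creg_pure

section jets

variable {E X : Type} [NormedAddCommGroup E] [NormedSpace ℂ E] [FiniteDimensional ℂ E]
  [MetricSpace X] [CompactSpace X] {A : Cha E X} {C : ℝ} {M : Set (ℂ → X)} {k m : ℕ}
  {P : (ℂ → X) → ℂ} {Q : A.ι → (Fin (k + 1) → E) → ℂ}

/-- the order condition for the reparametrised germs -/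
theorem creg_oc (hM : QM A C M) (hJ : JD A k m P Q) (p : Fin (k + 1)) (μ : ℕ)
    (hall : ∀ f ∈ M, ∀ z i, f z ∈ (A.ch i).source → OC A Q p μ i (tr z f)) {d : ℂ → X}
    (hd : d ∈ Rp M) (i : A.ι) (hi : d 0 ∈ (A.ch i).source) : OC A Q p μ i d := by
  obtain ⟨h, hh, χ, hχ, hχ0, rfl⟩ := hd
  have h1 : Ger A (tr (χ 0) h) := ger_tr (hM.sub hh) (χ 0)
  have h2 : (tr (χ 0) h) 0 ∈ (A.ch i).source := by simpa [tr] using hi
  have h3 : AnalyticAt ℂ (fun z => χ z - χ 0) 0 := hχ.sub analyticAt_const
  have h4 : deriv (fun z => χ z - χ 0) 0 ≠ 0 := by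
    rw [deriv_sub_const]; exact hχ0
  have h5 : (fun z => (tr (χ 0) h) ((fun z => χ z - χ 0) z)) = fun z => h (χ z) := by
    funext z
    simp [tr]
  have h6 := oc_inv hJ p μ i i h1 h2 (by simpa [tr] using hi) h3 (by simp) h4
    (hall h hh (χ 0) i (by simpa using hi))
  rw [h5] at h6
  exact h6

/-- CREG: a good germ satisfies a regular equation -/
theorem reg_of_good_pr (hE : Module.finrank ℂ E = 2) (hM : QM A C M) (hJ : JD A k m P Q)
    (p : Fin (k + 1)) (μ : ℕ) (hμ : 0 < μ)
    (hall : ∀ f ∈ M, ∀ z i, f z ∈ (A.ch i).source → OC A Q p μ i (tr z f)) {c : ℂ → X}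
    (hc : c ∈ Rp M) (i : A.ι) (hi : c 0 ∈ (A.ch i).source) (hgood : ¬ OC A Q p (μ + 1) i c) :
    Reg A k M p i c := by
  classical
  have hoc := creg_oc hM hJ p μ hall hc i hi
  unfold OC at hgood
  push Not at hgood
  obtain ⟨s₀, hs₀, e, n, hn, hne⟩ := hgood
  have hnμ : n = μ := by
    by_contra hcon
    exact hne (hoc s₀ hs₀ e n (by omega))
  subst hnμ
  -- the patched jet
  set patch : (Fin (k + 1) → E) → (Fin (k + 1) → E) := fun s q => if q ≤ p then s q else s₀ q
    with hpatch
  have hpa : ∀ s : Fin (k + 1) → E, AnalyticAt ℂ patch s := by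
    intro s
    rw [analyticAt_pi_iff]
    intro q
    by_cases hq : q ≤ p
    · have : (fun x : Fin (k + 1) → E => patch x q) = fun x => x q := by
        funext x
        simp [hpatch, hq]
      rw [this]
      exact (ContinuousLinearMap.proj (R := ℂ) (φ := fun _ : Fin (k + 1) => E) q).analyticAt s
    · have : (fun x : Fin (k + 1) → E => patch x q) = fun x => s₀ q := by
        funext x
        simp [hpatch, hq]
      rw [this]
      exact analyticAt_const
  have hpc : patch (jt A k i c) = s₀ := by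
    funext q
    by_cases hq : q ≤ p
    · simp [hpatch, hq, hs₀ q hq]
    · simp [hpatch, hq]
  set G : (Fin (k + 1) → E) × ℂ → ℂ := fun y =>
    Q i (patch y.1 + y.2 • (Pi.single p e : Fin (k + 1) → E)) with hG
  have hs00 : s₀ 0 ∈ (A.ch i).target := by
    rw [hs₀ 0 (Fin.zero_le p)]
    simpa [jt, Cha.loc] using (A.ch i).map_source hi
  have hQ : AnalyticAt ℂ (Q i) s₀ := hJ.an i s₀ hs00
  have hGa : AnalyticAt ℂ G (jt A k i c, 0) := by
    have h1 : AnalyticAt ℂ (fun y : (Fin (k + 1) → E) × ℂ =>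
        patch y.1 + y.2 • (Pi.single p e : Fin (k + 1) → E)) (jt A k i c, 0) := by
      have h2 : AnalyticAt ℂ (fun y : (Fin (k + 1) → E) × ℂ => patch y.1) (jt A k i c, 0) :=
        (hpa _).comp analyticAt_fst
      exact h2.add (analyticAt_snd.smul analyticAt_const)
    have h3 : AnalyticAt ℂ (Q i) ((fun y : (Fin (k + 1) → E) × ℂ =>
        patch y.1 + y.2 • (Pi.single p e : Fin (k + 1) → E)) (jt A k i c, 0)) := by
      simpa [hpc] using hQ
    exact AnalyticAt.comp (g := Q i) (f := fun y : (Fin (k + 1) → E) × ℂ =>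
      patch y.1 + y.2 • (Pi.single p e : Fin (k + 1) → E)) (x := (jt A k i c, 0)) h3 h1
  set Φ : (Fin (k + 1) → E) → ℂ := fun s =>
    iteratedDeriv (n - 1) (fun a : ℂ => Q i (patch s + a • (Pi.single p e : Fin (k + 1) → E))) 0
    with hΦ
  have hΦa : AnalyticAt ℂ Φ (jt A k i c) := by
    have h1 := creg_iter (n - 1) G (jt A k i c, 0) hGa
    have h2 : AnalyticAt ℂ (fun s : Fin (k + 1) → E => (s, (0 : ℂ))) (jt A k i c) :=
      analyticAt_id.prod analyticAt_const
    exact AnalyticAt.comp (f := fun s : Fin (k + 1) → E => (s, (0 : ℂ))) (x := jt A k i c) h1 h2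
  have hΦ0 : ∀ s : Fin (k + 1) → E, ∀ d ∈ Rp M, d 0 ∈ (A.ch i).source →
      (∀ q ≤ p, s q = jt A k i d q) → Φ s = 0 := by
    intro s d hd hdi hsd
    refine creg_oc hM hJ p n hall hd i hdi (patch s) (fun q hq => ?_) e (n - 1) (by omega)
    simp [hpatch, hq, hsd q hq]
  have hder : fderiv ℂ Φ (jt A k i c) (Pi.single p e : Fin (k + 1) → E) ≠ 0 := by
    have h1 : HasDerivAt (fun b : ℂ => jt A k i c + b • (Pi.single p e : Fin (k + 1) → E))
        (Pi.single p e : Fin (k + 1) → E) 0 := by
      have := ((hasDerivAt_id (0 : ℂ)).smul_const (Pi.single p e : Fin (k + 1) → E)).const_add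
        (jt A k i c)
      simpa using this
    have h2 : HasDerivAt (fun b : ℂ => Φ (jt A k i c + b • (Pi.single p e : Fin (k + 1) → E)))
        (fderiv ℂ Φ (jt A k i c) (Pi.single p e : Fin (k + 1) → E)) 0 := by
      have h3 := hΦa.differentiableAt.hasFDerivAt
      exact HasFDerivAt.comp_hasDerivAt (x := (0 : ℂ)) (l := Φ)
        (f := fun b : ℂ => jt A k i c + b • (Pi.single p e : Fin (k + 1) → E))
        (by simpa using h3) h1
    have h4 : (fun b : ℂ => Φ (jt A k i c + b • (Pi.single p e : Fin (k + 1) → E))) =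
        iteratedDeriv (n - 1) (fun a : ℂ => Q i (s₀ + a • (Pi.single p e : Fin (k + 1) → E))) := by
      funext b
      have h5 : patch (jt A k i c + b • (Pi.single p e : Fin (k + 1) → E)) =
          s₀ + b • (Pi.single p e : Fin (k + 1) → E) := by
        funext q
        by_cases hq : q ≤ p
        · simp [hpatch, hq, hs₀ q hq]
        · have hqp : q ≠ p := fun h => hq (h ▸ le_refl _)
          simp [hpatch, hq, Pi.single_eq_of_ne hqp]
      simp only [hΦ, h5]
      have h6 : (fun a : ℂ => Q i (s₀ + b • (Pi.single p e : Fin (k + 1) → E) +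
          a • (Pi.single p e : Fin (k + 1) → E))) =
          fun a : ℂ => (fun a : ℂ => Q i (s₀ + a • (Pi.single p e : Fin (k + 1) → E))) (a + b) := by
        funext a
        congr 1
        rw [add_smul, add_assoc, add_comm (b • _)]
      rw [h6]
      have h8 := congrFun (iteratedDeriv_comp_add_const (n - 1)
        (fun a : ℂ => Q i (s₀ + a • (Pi.single p e : Fin (k + 1) → E))) b) 0
      rw [zero_add] at h8
      exact h8
    rw [h4] at h2
    have h7 : deriv (iteratedDeriv (n - 1)
        (fun a : ℂ => Q i (s₀ + a • (Pi.single p e : Fin (k + 1) → E)))) 0 =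
        fderiv ℂ Φ (jt A k i c) (Pi.single p e : Fin (k + 1) → E) := h2.deriv
    rw [← h7, ← iteratedDeriv_succ, Nat.sub_add_cancel hμ]
    exact hne
  have htan : fderiv ℂ Φ (jt A k i c) (Pi.single p (deriv (A.loc i c) 0) : Fin (k + 1) → E) = 0 :=
    phi_tangent hM hJ p hc i hi hΦa (Eventually.of_forall hΦ0)
  refine ⟨Φ, hΦa, fun v hv hcon => hder ?_, Eventually.of_forall hΦ0⟩
  have hspan : ⊤ ≤ Submodule.span ℂ (Set.range ![v, deriv (A.loc i c) 0]) := by
    rw [hv.span_eq_top_of_card_eq_finrank (by simp [hE])]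
  have he : e ∈ Submodule.span ℂ (Set.range ![v, deriv (A.loc i c) 0]) := hspan trivial
  have he' : e ∈ Submodule.span ℂ ({v, deriv (A.loc i c) 0} : Set E) := by
    simpa [Matrix.range_cons, Matrix.range_empty, Set.pair_comm] using he
  obtain ⟨x, y, rfl⟩ := Submodule.mem_span_pair.1 he'
  have hsplit : (Pi.single p (x • v + y • deriv (A.loc i c) 0) : Fin (k + 1) → E) =
      x • (Pi.single p v : Fin (k + 1) → E) +
        y • (Pi.single p (deriv (A.loc i c) 0) : Fin (k + 1) → E) := by
    rw [Pi.single_add, Pi.single_smul, Pi.single_smul]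
  rw [hsplit, map_add, map_smul, map_smul, hcon, htan]
  simp

end jets

end Pool.Agent.CYL

namespace Pool.Agent.CYL
alias reg_of_good := reg_of_good_pr
end Pool.Agent.CYL
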