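import Pool.Agent.Lib_helper66.CYL.Defs
import Pool.Agent.Lib_helper58.MBS.L.AINV
import Pool.Agent.Lib_helper66.CYL.P.CBAD
import Pool.Agent.Lib_helper58.MBS.L.CGER
import Pool.Agent.Lib_helper66.CYL.P.CLEV
import Pool.Agent.Lib_helper58.MBS.L.COCI
import Pool.Agent.Lib_helper66.CYL.P.CORD
import Pool.Agent.Lib_helper66.CYL.P.CREG

/-! # Cylinder theorem: ported block CASM of MBS (quasi-minimal sets) -/

set_option autoImplicit false
set_option linter.unusedSectionVars false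
set_option linter.unusedVariables false

open Filter Topology Metric Set

namespace Pool.Agent.CYL

open Pool.Agent.BR Pool.Agent.MBS

section jets

variable {E X : Type} [NormedAddCommGroup E] [NormedSpace ℂ E] [FiniteDimensional ℂ E]
  [MetricSpace X] [CompactSpace X] {A : Cha E X} {C : ℝ} {M : Set (ℂ → X)} {k m : ℕ}
  {P : (ℂ → X) → ℂ} {Q : A.ι → (Fin (k + 1) → E) → ℂ}

/-- a local inverse of a time change -/
theorem casm_inv {χ : ℂ → ℂ} (hχ : AnalyticAt ℂ χ 0) (h1 : deriv χ 0 ≠ 0) :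
    ∃ ψ : ℂ → ℂ, AnalyticAt ℂ ψ 0 ∧ ψ 0 = 0 ∧ deriv ψ 0 ≠ 0 ∧
      ∀ᶠ z in 𝓝 (0 : ℂ), χ (ψ z) = z + χ 0 := by
  obtain ⟨r, hr, hrχ⟩ := Metric.eventually_nhds_iff_ball.1 hχ.eventually_analyticAt
  obtain ⟨r₁, hr₁, _, ρ, hρ, δ, hδ, B, hB, h⟩ := unif_inv hχ h1 r hr
  obtain ⟨hinj, u, hu⟩ := h χ hrχ (fun z _ => by simp [hδ.le])
  have h0 := hu (χ 0) (mem_ball_self hρ)
  have hu0 : u (χ 0) = 0 := by
    have h2 := hinj (u (χ 0)) h0.2.1 0 (mem_ball_self hr₁)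
    rw [h0.2.2, sub_self, norm_zero, mul_zero, sub_zero] at h2
    exact norm_le_zero_iff.1 h2
  obtain ⟨ψ, hψ⟩ : ∃ ψ : ℂ → ℂ, ψ = fun z => u (z + χ 0) := ⟨_, rfl⟩
  have hψa : AnalyticAt ℂ ψ 0 := by
    rw [hψ]
    have h3 : AnalyticAt ℂ u ((fun z : ℂ => z + χ 0) 0) := by simpa using h0.1
    exact h3.comp (f := fun z : ℂ => z + χ 0) (by fun_prop)
  have hψ0 : ψ 0 = 0 := by simp [hψ, hu0]
  have he : ∀ᶠ z in 𝓝 (0 : ℂ), χ (ψ z) = z + χ 0 := by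
    filter_upwards [ball_mem_nhds (0 : ℂ) hρ] with z hz
    rw [hψ]
    refine (hu (z + χ 0) ?_).2.2
    rw [mem_ball, dist_eq_norm, add_sub_cancel_right]
    simpa using hz
  refine ⟨ψ, hψa, hψ0, fun hd => ?_, he⟩
  have h4 : HasDerivAt (fun z => χ (ψ z)) (deriv χ 0 * deriv ψ 0) 0 := by
    have h5 : HasDerivAt χ (deriv χ 0) (ψ 0) := by
      rw [hψ0]; exact hχ.differentiableAt.hasDerivAt
    exact h5.comp 0 hψa.differentiableAt.hasDerivAt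
  have h6 : HasDerivAt (fun z => χ (ψ z)) 1 0 := by
    have h7 : HasDerivAt (fun z : ℂ => z + χ 0) 1 0 := (hasDerivAt_id 0).add_const _
    exact h7.congr_of_eventuallyEq he
  have h8 := h4.unique h6
  rw [hd, mul_zero] at h8
  exact zero_ne_one h8

theorem casm_jt (i : A.ι) {c d : ℂ → X} (h : c =ᶠ[𝓝 0] d) : jt A k i c = jt A k i d := by
  funext q
  have h1 : A.loc i c =ᶠ[𝓝 0] A.loc i d := by
    filter_upwards [h] with z hz
    simp [Cha.loc, hz]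
  exact h1.iteratedDeriv_eq q

theorem regular_pr (hE : Module.finrank ℂ E = 2) (hM : QM A C M) (hJ : JD A k m P Q)
    (hP : ∀ f ∈ M, P f = 0) : RegN A k M := by
  obtain ⟨p, h1, h2⟩ := exists_level hM hJ hP
  obtain ⟨μ, hμ, h3, h4⟩ := exists_order hM hJ p h1 h2
  refine ⟨p, fun f hf hfn => ?_⟩
  obtain ⟨B, hB1, hB2, hB3⟩ := bad_set hM hJ p (μ + 1) hf (h4 f hf hfn)
  refine ⟨B, hB1, hB2, fun z hz i hi χ hχ hχ0 hχ1 => ?_⟩
  have hcR : (fun ζ => f (χ ζ)) ∈ Rp M := ⟨f, hf, χ, hχ, hχ1, rfl⟩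
  refine reg_of_good hE hM hJ p μ hμ h3 hcR i (by simpa [hχ0] using hi) fun hOC => ?_
  obtain ⟨ψ, hψ, hψ0, hψ1, he⟩ := casm_inv hχ hχ1
  have h5 := oc_inv hJ p (μ + 1) i i (rp_ger hM.sub hcR) (by simpa [hχ0] using hi)
    (by simpa [hχ0] using hi) hψ hψ0 hψ1 hOC
  have h6 : (fun z => f (χ (ψ z))) =ᶠ[𝓝 0] tr z f := by
    filter_upwards [he] with w hw
    simp [tr, hw, hχ0]
  refine hB3 z hz i hi ?_
  intro s hs e n hn
  refine h5 s (fun q hq => ?_) e n hn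
  rw [hs q hq, casm_jt i h6]


end jets

end Pool.Agent.CYL

namespace Pool.Agent.CYL
alias regular := regular_pr
end Pool.Agent.CYL
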