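import Pool.Agent.Lib_helper66.CYL.Defs
import Pool.Agent.Lib_helper58.MBS.L.BLIM

/-! # Cylinder theorem: ported block DWCV of MBS (quasi-minimal sets) -/

set_option autoImplicit false
set_option linter.unusedSectionVars false
set_option linter.unusedVariables false

open Filter Topology Metric Set

namespace Pool.Agent.CYL

open Pool.Agent.BR Pool.Agent.MBS

section win

variable {E X : Type} [NormedAddCommGroup E] [NormedSpace ℂ E] [FiniteDimensional ℂ E]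
  [MetricSpace X] [CompactSpace X] {A : Cha E X} {C lam L : ℝ} {M : Set (ℂ → X)} {k : ℕ}

theorem win_tendsto_pr (hB : BLip A lam L) (hM : QM A C M) {f : ℂ → X} (hf : f ∈ M) {z₀ : ℂ}
    {i : A.ι} {l : E →L[ℂ] ℂ} {r ρ B : ℝ} {V : Set (ℂ → X)} {u : (ℂ → X) → ℂ → ℂ}
    (hW : Win A M f z₀ i l lam r ρ B V u) {κ : Type} {F : Filter κ} {g h : κ → ℂ → X}
    {f' : ℂ → X} (hf' : f' ∈ V) (hgM : ∀ᶠ n in F, g n ∈ V) (hhM : ∀ᶠ n in F, h n ∈ V)
    (hg : Tendsto g F (𝓝 f')) (hh : Tendsto h F (𝓝 f')) (ε : ℝ) (hε : 0 < ε) :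
    ∀ᶠ n in F, ∀ x ∈ ball (l (A.loc i f z₀)) ρ, ‖u (g n) x - u (h n) x‖ ≤ ε := by
  have hf'B : f' ∈ BF A C := hM.sub (hW.V_sub hf')
  have hgB : ∀ᶠ n in F, g n ∈ BF A C := hgM.mono fun n hn => hM.sub (hW.V_sub hn)
  have hhB : ∀ᶠ n in F, h n ∈ BF A C := hhM.mono fun n hn => hM.sub (hW.V_sub hn)
  have hBp := hW.B_pos
  have hL : 0 < L := lt_of_lt_of_le one_pos hB.L_one
  have hl : 0 < ‖l‖ + 1 := by positivity
  have hη : 0 < ε / (B * (‖l‖ + 1) * L) / 2 := by positivity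
  have e1 := bf_unif hgB hf'B hg (‖z₀‖ + r) _ hη
  have e2 := bf_unif hhB hf'B hh (‖z₀‖ + r) _ hη
  filter_upwards [hgM, hhM, e1, e2] with n a1 a2 a3 a4 x hx
  set w := u (h n) x with hw
  have hwb : w ∈ ball z₀ r := hW.mem _ a2 x hx
  have hwn : ‖w‖ ≤ ‖z₀‖ + r := by
    have h1 : ‖w - z₀‖ < r := by rwa [← dist_eq_norm]
    have h2 : ‖w‖ ≤ ‖z₀‖ + ‖w - z₀‖ := by
      have := norm_add_le z₀ (w - z₀)
      rwa [add_sub_cancel] at this
    linarith
  have b1 := hW.lo _ a1 (u (g n) x) (hW.mem _ a1 x hx) w hwb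
  have b2 : l (A.loc i (g n) (u (g n) x)) = l (A.loc i (h n) w) := by
    rw [hW.eq _ a1 x hx, hW.eq _ a2 x hx]
  rw [b2, ← map_sub] at b1
  have b3 : ‖A.loc i (h n) w - A.loc i (g n) w‖ ≤ L * dist (h n w) (g n w) :=
    hB.ch_le i (f z₀) (subset_closure hW.core) _ (hW.near _ a2 w hwb) _ (hW.near _ a1 w hwb)
  have b4 : dist (h n w) (g n w) ≤ ε / (B * (‖l‖ + 1) * L) := by
    have := dist_triangle_right (h n w) (g n w) (f' w)
    have h3 := a3 w hwn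
    have h4 := a4 w hwn
    linarith
  have b5 : ‖l (A.loc i (h n) w - A.loc i (g n) w)‖ ≤
      (‖l‖ + 1) * (L * (ε / (B * (‖l‖ + 1) * L))) := by
    refine (l.le_opNorm _).trans ?_
    refine mul_le_mul (by linarith) (b3.trans (mul_le_mul_of_nonneg_left b4 hL.le))
      (norm_nonneg _) hl.le
  calc ‖u (g n) x - w‖ ≤ B * ‖l (A.loc i (h n) w - A.loc i (g n) w)‖ := b1
    _ ≤ B * ((‖l‖ + 1) * (L * (ε / (B * (‖l‖ + 1) * L)))) :=
      mul_le_mul_of_nonneg_left b5 hBp.le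
    _ = ε := by field_simp

end win

end Pool.Agent.CYL

namespace Pool.Agent.CYL
alias win_tendsto := win_tendsto_pr
end Pool.Agent.CYL
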