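import Pool.Agent.Lib_helper66.CYL.Defs
import Pool.Agent.Lib_helper66.CYL.P.DWCV

/-! # Cylinder theorem: ported block DNGR of MBS (quasi-minimal sets) -/

set_option autoImplicit false
set_option linter.unusedSectionVars false
set_option linter.unusedVariables false

open Filter Topology Metric Set

namespace Pool.Agent.CYL

open Pool.Agent.BR Pool.Agent.MBS

section win

variable {E X : Type} [NormedAddCommGroup E] [NormedSpace ℂ E] [FiniteDimensional ℂ E]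
  [MetricSpace X] [CompactSpace X] {A : Cha E X} {C lam L : ℝ} {M : Set (ℂ → X)} {k : ℕ}

theorem dngr_pt (hB : BLip A lam L) {f : ℂ → X} {z₀ : ℂ}
    {i : A.ι} {l : E →L[ℂ] ℂ} {r ρ B : ℝ} {V : Set (ℂ → X)} {u : (ℂ → X) → ℂ → ℂ}
    (hW : Win A M f z₀ i l lam r ρ B V u) {κ : Type} {F : Filter κ} {g : κ → ℂ → X}
    {f' : ℂ → X} (hf' : f' ∈ V) (hg : Tendsto g F (𝓝 f')) {z : ℂ} (hz : z ∈ ball z₀ r) :
    Tendsto (fun n => l (A.loc i (g n) z)) F (𝓝 (l (A.loc i f' z))) := by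
  have h1 : f' z ∈ (A.ch i).source :=
    hB.src i (f z₀) (subset_closure hW.core) (hW.near f' hf' z hz)
  have h2 : Tendsto (fun n => g n z) F (𝓝 (f' z)) := (tendsto_pi_nhds.1 hg) z
  have h3 : Tendsto (fun n => A.ch i (g n z)) F (𝓝 (A.ch i (f' z))) :=
    ((A.ch i).continuousAt h1).tendsto.comp h2
  exact (l.continuous.tendsto _).comp h3

/-- for members of the window, the `l`-coordinate is Lipschitz -/
theorem dngr_l (hB : BLip A lam L) {f : ℂ → X} {z₀ : ℂ}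
    {i : A.ι} {l : E →L[ℂ] ℂ} {r ρ B : ℝ} {V : Set (ℂ → X)} {u : (ℂ → X) → ℂ → ℂ}
    (hW : Win A M f z₀ i l lam r ρ B V u) {h : ℂ → X} (hh : h ∈ V) {z z' : ℂ}
    (hz : z ∈ ball z₀ r) (hz' : z' ∈ ball z₀ r) :
    ‖l (A.loc i h z) - l (A.loc i h z')‖ ≤ ‖l‖ * (B * ‖z - z'‖) := by
  rw [← map_sub]
  exact (l.le_opNorm _).trans
    (mul_le_mul_of_nonneg_left (hW.up h hh z hz z' hz') (norm_nonneg _))

/-- the inverse functions are Lipschitz -/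
theorem dngr_u {f : ℂ → X} {z₀ : ℂ}
    {i : A.ι} {l : E →L[ℂ] ℂ} {r ρ B : ℝ} {V : Set (ℂ → X)} {u : (ℂ → X) → ℂ → ℂ}
    (hW : Win A M f z₀ i l lam r ρ B V u) {h : ℂ → X} (hh : h ∈ V) {x x' : ℂ}
    (hx : x ∈ ball (l (A.loc i f z₀)) ρ) (hx' : x' ∈ ball (l (A.loc i f z₀)) ρ) :
    ‖u h x - u h x'‖ ≤ B * ‖x - x'‖ := by
  have h1 := hW.lo h hh _ (hW.mem h hh x hx) _ (hW.mem h hh x' hx')
  rwa [hW.eq h hh x hx, hW.eq h hh x' hx'] at h1

theorem nn_of_gr_pr (hB : BLip A lam L) (hM : QM A C M) {f : ℂ → X} (hf : f ∈ M) {z₀ : ℂ}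
    {i : A.ι} {l : E →L[ℂ] ℂ} {r ρ B : ℝ} {V : Set (ℂ → X)} {u : (ℂ → X) → ℂ → ℂ}
    (hW : Win A M f z₀ i l lam r ρ B V u) {κ : Type} {F : Filter κ} {g h : κ → ℂ → X}
    {f' : ℂ → X} (hf' : f' ∈ V) (hgM : ∀ᶠ n in F, g n ∈ V) (hhM : ∀ᶠ n in F, h n ∈ V)
    (hg : Tendsto g F (𝓝 f')) (hh : Tendsto h F (𝓝 f')) {m : κ → ℝ} (hm : ∀ n, 0 ≤ m n) {z : ℂ}
    (hz : z ∈ ball z₀ r) (hx : l (A.loc i f' z) ∈ ball (l (A.loc i f z₀)) ρ) {ρ' B' : ℝ}
    (hρ' : 0 < ρ') (h1 : ∀ᶠ n in F, ∀ x ∈ ball (l (A.loc i f' z)) ρ',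
      ‖gr A i u (h n) x - gr A i u (g n) x‖ ≤ B' * m n) : NN F g h m z := by
  have hdx : 0 < ρ - dist (l (A.loc i f' z)) (l (A.loc i f z₀)) := sub_pos.2 hx
  obtain ⟨ρ₂, hρ₂, hρ₂a, hρ₂b⟩ : ∃ ρ₂ > 0, ρ₂ ≤ ρ' ∧
      ρ₂ ≤ ρ - dist (l (A.loc i f' z)) (l (A.loc i f z₀)) :=
    ⟨min ρ' _, lt_min hρ' hdx, min_le_left _ _, min_le_right _ _⟩
  have hdz : 0 < r - dist z z₀ := sub_pos.2 hz
  have hc : 0 < ‖l‖ * B + 1 := by
    have := mul_nonneg (norm_nonneg l) hW.B_pos.le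
    linarith
  obtain ⟨ρ₁, hρ₁, hρ₁a, hρ₁b⟩ : ∃ ρ₁ > 0, ρ₁ ≤ r - dist z z₀ ∧
      ρ₁ ≤ (ρ₂ / 2) / (‖l‖ * B + 1) :=
    ⟨min _ _, lt_min hdz (div_pos (half_pos hρ₂) hc), min_le_left _ _, min_le_right _ _⟩
  have hρ₁c : ρ₁ * (‖l‖ * B + 1) ≤ ρ₂ / 2 := (le_div_iff₀ hc).1 hρ₁b
  have hgt : ∀ᶠ n in F, dist (l (A.loc i (g n) z)) (l (A.loc i f' z)) < ρ₂ / 2 :=
    (dngr_pt hB hW hf' hg hz) (ball_mem_nhds _ (half_pos hρ₂))
  refine ⟨ρ₁, hρ₁, L * B', fun ε hε => ?_⟩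
  have hwt := win_tendsto hB hM hf hW hf' hgM hhM hg hh ε hε
  filter_upwards [hgt, hwt, h1, hgM, hhM] with n hn1 hn2 hn3 hn4 hn5 ζ hζ
  have hζr : ζ ∈ ball z₀ r := by
    have h2 : dist ζ z₀ ≤ dist ζ z + dist z z₀ := dist_triangle _ _ _
    have h3 : dist ζ z < ρ₁ := hζ
    exact mem_ball.2 (by linarith)
  have h4 : dist (l (A.loc i (g n) ζ)) (l (A.loc i f' z)) < ρ₂ := by
    have h5 : dist (l (A.loc i (g n) ζ)) (l (A.loc i (g n) z)) ≤ ρ₂ / 2 := by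
      rw [dist_eq_norm]
      refine (dngr_l hB hW hn4 hζr hz).trans ?_
      have h6 : ‖ζ - z‖ ≤ ρ₁ := by
        rw [← dist_eq_norm]
        exact (mem_ball.1 hζ).le
      have h7 : ‖l‖ * (B * ‖ζ - z‖) = (‖l‖ * B) * ‖ζ - z‖ := by ring
      rw [h7]
      have h8 : (‖l‖ * B) * ‖ζ - z‖ ≤ (‖l‖ * B) * ρ₁ :=
        mul_le_mul_of_nonneg_left h6 (mul_nonneg (norm_nonneg l) hW.B_pos.le)
      nlinarith
    have h9 := dist_triangle (l (A.loc i (g n) ζ)) (l (A.loc i (g n) z)) (l (A.loc i f' z))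
    linarith
  have h10 : l (A.loc i (g n) ζ) ∈ ball (l (A.loc i f z₀)) ρ := by
    have h11 := dist_triangle (l (A.loc i (g n) ζ)) (l (A.loc i f' z)) (l (A.loc i f z₀))
    exact mem_ball.2 (by linarith)
  have h12 : ζ = u (g n) (l (A.loc i (g n) ζ)) := win_uniq hW hn4 hζr h10
  set x := l (A.loc i (g n) ζ) with hxdef
  have h13 : x ∈ ball (l (A.loc i f' z)) ρ' := mem_ball.2 (by linarith)
  refine ⟨u (h n) x, ?_, ?_⟩
  · rw [norm_sub_rev]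
    have := hn2 x h10
    rwa [← h12] at this
  · have h14 := hn3 x h13
    have h15 : gr A i u (g n) x = A.ch i (g n ζ) := by
      change A.loc i (g n) (u (g n) x) = _
      rw [← h12]
      rfl
    have h16 : gr A i u (h n) x = A.ch i (h n (u (h n) x)) := rfl
    rw [h15, h16] at h14
    have h17 := hB.le_ch i (f z₀) (subset_closure hW.core) _ (hW.near (g n) hn4 ζ hζr) _
      (hW.near (h n) hn5 _ (hW.mem (h n) hn5 x h10))
    rw [norm_sub_rev] at h14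
    have hL : 0 ≤ L := zero_le_one.trans hB.L_one
    calc dist (g n ζ) (h n (u (h n) x))
        ≤ L * ‖A.ch i (g n ζ) - A.ch i (h n (u (h n) x))‖ := h17
      _ ≤ L * (B' * m n) := mul_le_mul_of_nonneg_left h14 hL
      _ = L * B' * m n := by ring

theorem gr_of_nn_pr (hB : BLip A lam L) (hM : QM A C M) {f : ℂ → X} (hf : f ∈ M) {z₀ : ℂ}
    {i : A.ι} {l : E →L[ℂ] ℂ} {r ρ B : ℝ} {V : Set (ℂ → X)} {u : (ℂ → X) → ℂ → ℂ}
    (hW : Win A M f z₀ i l lam r ρ B V u) {κ : Type} {F : Filter κ} {g h : κ → ℂ → X}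
    {f' : ℂ → X} (hf' : f' ∈ V) (hgM : ∀ᶠ n in F, g n ∈ V) (hhM : ∀ᶠ n in F, h n ∈ V)
    (hg : Tendsto g F (𝓝 f')) (hh : Tendsto h F (𝓝 f')) {m : κ → ℝ} (hm : ∀ n, 0 ≤ m n) {z : ℂ}
    (hz : z ∈ ball z₀ r) (hx : l (A.loc i f' z) ∈ ball (l (A.loc i f z₀)) ρ)
    (h1 : NN F g h m z) : ∃ ρ' > 0, ∃ B' : ℝ, ∀ᶠ n in F, ∀ x ∈ ball (l (A.loc i f' z)) ρ',
      x ∈ ball (l (A.loc i f z₀)) ρ ∧ ‖gr A i u (h n) x - gr A i u (g n) x‖ ≤ B' * m n := by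
  obtain ⟨ρ₁, hρ₁, B₁, hNN⟩ := h1
  have hdx : 0 < ρ - dist (l (A.loc i f' z)) (l (A.loc i f z₀)) := sub_pos.2 hx
  have hdz : 0 < r - dist z z₀ := sub_pos.2 hz
  have hc : 0 < ‖l‖ * B + 1 := by
    have := mul_nonneg (norm_nonneg l) hW.B_pos.le
    linarith
  have hBp := hW.B_pos
  have hL : 0 ≤ L := zero_le_one.trans hB.L_one
  -- the allowed distance of the points of time from `z`
  obtain ⟨δ, hδ, hδa, hδb, hδc⟩ : ∃ δ > 0, δ ≤ ρ₁ ∧ δ ≤ r - dist z z₀ ∧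
      δ ≤ ((ρ - dist (l (A.loc i f' z)) (l (A.loc i f z₀))) / 2) / (‖l‖ * B + 1) :=
    ⟨min ρ₁ (min (r - dist z z₀)
      (((ρ - dist (l (A.loc i f' z)) (l (A.loc i f z₀))) / 2) / (‖l‖ * B + 1))),
      lt_min hρ₁ (lt_min hdz (div_pos (half_pos hdx) hc)), min_le_left _ _,
      (min_le_right _ _).trans (min_le_left _ _), (min_le_right _ _).trans (min_le_right _ _)⟩
  have hδd : δ * (‖l‖ * B + 1) ≤ (ρ - dist (l (A.loc i f' z)) (l (A.loc i f z₀))) / 2 :=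
    (le_div_iff₀ hc).1 hδc
  have hzu : z = u f' (l (A.loc i f' z)) := win_uniq hW hf' hz hx
  have hwt := win_tendsto hB hM hf hW hf' hgM (Eventually.of_forall fun _ => hf') hg
    tendsto_const_nhds (δ / 4) (by linarith)
  have hht : ∀ᶠ n in F, dist (l (A.loc i (h n) z)) (l (A.loc i f' z)) <
      (ρ - dist (l (A.loc i f' z)) (l (A.loc i f z₀))) / 2 :=
    (dngr_pt hB hW hf' hh hz) (ball_mem_nhds _ (half_pos hdx))
  obtain ⟨ρ', hρ', hρ'a, hρ'b⟩ : ∃ ρ' > 0,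
      ρ' ≤ ρ - dist (l (A.loc i f' z)) (l (A.loc i f z₀)) ∧ ρ' ≤ (δ / 4) / B :=
    ⟨min _ _, lt_min hdx (div_pos (by linarith) hBp), min_le_left _ _, min_le_right _ _⟩
  have hρ'c : ρ' * B ≤ δ / 4 := (le_div_iff₀ hBp).1 hρ'b
  refine ⟨ρ', hρ', B * (B * (‖l‖ * (L * B₁))) + L * B₁, ?_⟩
  filter_upwards [hwt, hht, hgM, hhM, hNN (δ / 4) (by linarith)] with n hn1 hn2 hn3 hn4 hn5 x hxb
  have hxb' : dist x (l (A.loc i f' z)) < ρ' := hxb
  have hx0 : x ∈ ball (l (A.loc i f z₀)) ρ := by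
    have h2 := dist_triangle x (l (A.loc i f' z)) (l (A.loc i f z₀))
    exact mem_ball.2 (by linarith)
  refine ⟨hx0, ?_⟩
  have hζr := hW.mem (g n) hn3 x hx0
  have hζz : dist (u (g n) x) z ≤ δ / 2 := by
    have h2 : dist (u (g n) x) z ≤ dist (u (g n) x) (u (g n) (l (A.loc i f' z))) +
        dist (u (g n) (l (A.loc i f' z))) z := dist_triangle _ _ _
    have h3 : dist (u (g n) x) (u (g n) (l (A.loc i f' z))) ≤ δ / 4 := by
      rw [dist_eq_norm]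
      refine (dngr_u hW hn3 hx0 hx).trans ?_
      have h4 : ‖x - l (A.loc i f' z)‖ ≤ ρ' := by
        rw [← dist_eq_norm]
        exact hxb'.le
      nlinarith
    have h5 : dist (u (g n) (l (A.loc i f' z))) z ≤ δ / 4 := by
      have h6 := hn1 _ hx
      rw [← hzu] at h6
      rwa [dist_eq_norm]
    linarith
  obtain ⟨v, hv1, hv2⟩ := hn5 (u (g n) x) (mem_ball.2 (by linarith))
  have hvz : dist v z ≤ 3 * δ / 4 := by
    have h2 := dist_triangle v (u (g n) x) z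
    have h3 : dist v (u (g n) x) ≤ δ / 4 := by rwa [dist_eq_norm]
    linarith
  have hvr : v ∈ ball z₀ r := by
    have h2 := dist_triangle v z z₀
    exact mem_ball.2 (by linarith)
  have hx' : l (A.loc i (h n) v) ∈ ball (l (A.loc i f z₀)) ρ := by
    have h5 : dist (l (A.loc i (h n) v)) (l (A.loc i (h n) z)) ≤
        (ρ - dist (l (A.loc i f' z)) (l (A.loc i f z₀))) / 2 := by
      rw [dist_eq_norm]
      refine (dngr_l hB hW hn4 hvr hz).trans ?_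
      have h6 : ‖v - z‖ ≤ δ := by
        rw [← dist_eq_norm]
        linarith
      have h7 : ‖l‖ * (B * ‖v - z‖) = (‖l‖ * B) * ‖v - z‖ := by ring
      rw [h7]
      have h8 : (‖l‖ * B) * ‖v - z‖ ≤ (‖l‖ * B) * δ :=
        mul_le_mul_of_nonneg_left h6 (mul_nonneg (norm_nonneg l) hW.B_pos.le)
      nlinarith
    have h9 := dist_triangle (l (A.loc i (h n) v)) (l (A.loc i (h n) z)) (l (A.loc i f' z))
    have h10 := dist_triangle (l (A.loc i (h n) v)) (l (A.loc i f' z)) (l (A.loc i f z₀))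
    exact mem_ball.2 (by linarith)
  have hvu : v = u (h n) (l (A.loc i (h n) v)) := win_uniq hW hn4 hvr hx'
  have hch := hB.ch_le i (f z₀) (subset_closure hW.core) _ (hW.near (h n) hn4 v hvr) _
    (hW.near (g n) hn3 _ hζr)
  have hd1 : ‖A.loc i (h n) v - A.loc i (g n) (u (g n) x)‖ ≤ L * (B₁ * m n) := by
    refine le_trans hch (mul_le_mul_of_nonneg_left ?_ hL)
    rwa [dist_comm]
  have hd2 : ‖l (A.loc i (h n) v) - x‖ ≤ ‖l‖ * (L * (B₁ * m n)) := by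
    have h2 : l (A.loc i (h n) v) - x =
        l (A.loc i (h n) v - A.loc i (g n) (u (g n) x)) := by
      rw [map_sub, hW.eq (g n) hn3 x hx0]
    rw [h2]
    exact (l.le_opNorm _).trans (mul_le_mul_of_nonneg_left hd1 (norm_nonneg _))
  have hd3 : ‖A.loc i (h n) (u (h n) x) - A.loc i (h n) v‖ ≤
      B * (B * (‖l‖ * (L * (B₁ * m n)))) := by
    refine (hW.up (h n) hn4 _ (hW.mem (h n) hn4 x hx0) _ hvr).trans
      (mul_le_mul_of_nonneg_left ?_ hBp.le)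
    have h2 := dngr_u hW hn4 hx0 hx'
    rw [← hvu] at h2
    refine h2.trans (mul_le_mul_of_nonneg_left ?_ hBp.le)
    rw [norm_sub_rev]
    exact hd2
  have hsplit : gr A i u (h n) x - gr A i u (g n) x =
      (A.loc i (h n) (u (h n) x) - A.loc i (h n) v) +
        (A.loc i (h n) v - A.loc i (g n) (u (g n) x)) := by
    change A.loc i (h n) (u (h n) x) - A.loc i (g n) (u (g n) x) = _
    abel
  rw [hsplit]
  refine (norm_add_le _ _).trans ?_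
  refine (add_le_add hd3 hd1).trans (le_of_eq ?_)
  ring


end win

end Pool.Agent.CYL

namespace Pool.Agent.CYL
alias nn_of_gr := nn_of_gr_pr
alias gr_of_nn := gr_of_nn_pr
end Pool.Agent.CYL
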