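import Pool.Agent.Lib_helper66.CYL.Defs
import Pool.Agent.Lib_helper58.MBS.L.AINV
import Pool.Agent.Lib_helper58.MBS.L.BCHT
import Pool.Agent.Lib_helper58.MBS.L.BLIM

/-! # Cylinder theorem: ported block DWIN of MBS (quasi-minimal sets) -/

set_option autoImplicit false
set_option linter.unusedSectionVars false
set_option linter.unusedVariables false

open Filter Topology Metric Set

namespace Pool.Agent.CYL

open Pool.Agent.BR Pool.Agent.MBS

section win

variable {E X : Type} [NormedAddCommGroup E] [NormedSpace ℂ E] [FiniteDimensional ℂ E]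
  [MetricSpace X] [CompactSpace X] {A : Cha E X} {C lam L : ℝ} {M : Set (ℂ → X)} {k : ℕ}

theorem exists_win_pr (hB : BLip A lam L) (hM : QM A C M) {f : ℂ → X} (hf : f ∈ M) {z₀ : ℂ}
    {i : A.ι} (hi : f z₀ ∈ A.W i) {l : E →L[ℂ] ℂ} (hl : l (deriv (A.loc i f) z₀) ≠ 0) {r₀ : ℝ}
    (hr₀ : 0 < r₀) : ∃ r ρ B V u, r ≤ r₀ ∧ Win A M f z₀ i l lam r ρ B V u := by
  have hfB : f ∈ BF A C := hM.sub hf
  have hsrc : f z₀ ∈ (A.ch i).source := A.W_sub i (subset_closure hi)
  have hMB : ∀ᶠ h in 𝓝[M] f, h ∈ BF A C := by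
    filter_upwards [self_mem_nhdsWithin] with h hh using hM.sub hh
  have hid : Tendsto (fun h : ℂ → X => h) (𝓝[M] f) (𝓝 f) := tendsto_id.mono_left nhdsWithin_le_nhds
  obtain ⟨r1, hr1, h1f, h1, hun⟩ := bf_chart (g := fun h : ℂ → X => h) hMB hfB hid z₀ i hsrc
  -- the core
  obtain ⟨lw, hlw, hlwW⟩ := Metric.isOpen_iff.1 (A.W_open i) (f z₀) hi
  set c := min lam lw with hc
  have hcp : 0 < c := lt_min hB.lam_pos hlw
  have hcont : ContinuousAt f z₀ := (hfB.1 z₀).1
  obtain ⟨r2, hr2, h2⟩ := Metric.continuousAt_iff.1 hcont (c / 2) (by linarith)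
  set r3 := min r1 (min r2 r₀) with hr3
  have hr3p : 0 < r3 := lt_min hr1 (lt_min hr2 hr₀)
  have h31 : r3 ≤ r1 := min_le_left _ _
  have h32 : r3 ≤ r2 := (min_le_right _ _).trans (min_le_left _ _)
  have h30 : r3 ≤ r₀ := (min_le_right _ _).trans (min_le_right _ _)
  have hev3 := bf_unif (g := fun h : ℂ → X => h) hMB hfB hid (‖z₀‖ + r3) (c / 2) (by linarith)
  -- uniform inverses
  have hfan : AnalyticAt ℂ (A.loc i f) z₀ := (h1f z₀ (mem_ball_self hr1)).2
  have hφan : AnalyticAt ℂ (fun z => l (A.loc i f z)) z₀ :=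
    (l.analyticAt (A.loc i f z₀)).comp hfan
  have hφd : deriv (fun z => l (A.loc i f z)) z₀ ≠ 0 := by
    have : HasDerivAt (fun z => l (A.loc i f z)) (l (deriv (A.loc i f) z₀)) z₀ :=
      l.hasFDerivAt.comp_hasDerivAt z₀ hfan.differentiableAt.hasDerivAt
    rw [this.deriv]
    exact hl
  obtain ⟨r, hr, hrr, ρ, hρ, δ, hδ, B1, hB1, hinv⟩ := unif_inv hφan hφd r3 hr3p
  set δ' := δ / (‖l‖ + 1) with hδ'
  have hl1 : 0 < ‖l‖ + 1 := by positivity
  have hδ'p : 0 < δ' := by positivity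
  have hev2 := Metric.tendstoUniformlyOn_iff.1 hun δ' hδ'p
  set V : Set (ℂ → X) := {h | h ∈ M ∧ (∀ z ∈ ball z₀ r3, AnalyticAt ℂ (A.loc i h) z) ∧
    (∀ z ∈ ball z₀ r3, ‖A.loc i h z - A.loc i f z‖ ≤ δ') ∧
    ∀ z ∈ ball z₀ r3, dist (h z) (f z₀) < c} with hV
  have hfc : ∀ z ∈ ball z₀ r3, dist (f z) (f z₀) < c / 2 := fun z hz =>
    h2 (lt_of_lt_of_le (mem_ball.1 hz) h32)
  have hVm : V ∈ 𝓝[M] f := by
    filter_upwards [self_mem_nhdsWithin, h1, hev2, hev3] with h a1 a2 a3 a4
    refine ⟨a1, fun z hz => (a2 z (ball_subset_ball h31 hz)).2, fun z hz => ?_, fun z hz => ?_⟩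
    · have := a3 z (ball_subset_ball h31 hz)
      rw [dist_comm, dist_eq_norm] at this
      exact this.le
    · have b1 := hfc z hz
      have b2 := a4 z (by
        have : ‖z - z₀‖ < r3 := by rwa [← dist_eq_norm]
        have h3 : ‖z‖ ≤ ‖z₀‖ + ‖z - z₀‖ := by
          have := norm_add_le z₀ (z - z₀)
          rwa [add_sub_cancel] at this
        linarith)
      have := dist_triangle (h z) (f z) (f z₀)
      linarith
  have hfV : f ∈ V := by
    refine ⟨hf, fun z hz => (h1f z (ball_subset_ball h31 hz)).2, fun z _ => ?_, fun z hz => ?_⟩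
    · rw [sub_self, norm_zero]
      exact hδ'p.le
    · linarith [hfc z hz]
  have hall : ∀ h ∈ V, (∀ z ∈ ball z₀ r, ∀ z' ∈ ball z₀ r,
      ‖z - z'‖ ≤ B1 * ‖l (A.loc i h z) - l (A.loc i h z')‖) ∧
      ∃ u : ℂ → ℂ, ∀ x ∈ ball (l (A.loc i f z₀)) ρ, AnalyticAt ℂ u x ∧ u x ∈ ball z₀ r ∧
        l (A.loc i h (u x)) = x := by
    intro h hh
    refine hinv (fun z => l (A.loc i h z)) ?_ ?_
    · intro z hz
      exact (l.analyticAt (A.loc i h z)).comp (hh.2.1 z hz)
    · intro z hz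
      have e : l (A.loc i h z) - l (A.loc i f z) = l (A.loc i h z - A.loc i f z) := by
        rw [map_sub]
      rw [e]
      refine (l.le_opNorm _).trans ?_
      have h3 := hh.2.2.1 z hz
      have h4 : ‖l‖ * ‖A.loc i h z - A.loc i f z‖ ≤ (‖l‖ + 1) * δ' :=
        mul_le_mul (by linarith) h3 (norm_nonneg _) hl1.le
      have h5 : (‖l‖ + 1) * δ' = δ := by
        rw [hδ']
        field_simp
      linarith
  choose! u hu using fun h hh => (hall h hh).2
  refine ⟨r, ρ, max B1 (max C 1), V, u, hrr.trans h30, ?_⟩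
  have hr33 : ball z₀ r ⊆ ball z₀ r3 := ball_subset_ball hrr
  exact
    { r_pos := hr
      ρ_pos := hρ
      B_pos := lt_of_lt_of_le hB1 (le_max_left _ _)
      V_mem := hVm
      f_mem := hfV
      V_sub := fun h hh => hh.1
      core := hi
      near := fun h hh z hz => lt_of_lt_of_le (hh.2.2.2 z (hr33 hz)) (min_le_left _ _)
      an := fun h hh z hz => hh.2.1 z (hr33 hz)
      up := by
        intro h hh z hz z' hz'
        have h3 := (convex_ball z₀ r).norm_image_sub_le_of_norm_deriv_le (f := A.loc i h)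
          (C := C) (fun w hw => (hh.2.1 w (hr33 hw)).differentiableAt)
          (fun w hw => (hM.sub hh.1).2 w i (hlwW (lt_of_lt_of_le (hh.2.2.2 w (hr33 hw))
            (min_le_right _ _)))) hz' hz
        exact h3.trans (mul_le_mul_of_nonneg_right ((le_max_left _ _).trans (le_max_right _ _))
          (norm_nonneg _))
      lo := by
        intro h hh z hz z' hz'
        exact ((hall h hh).1 z hz z' hz').trans
          (mul_le_mul_of_nonneg_right (le_max_left _ _) (norm_nonneg _))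
      mem := fun h hh x hx => (hu h hh x hx).2.1
      u_an := fun h hh x hx => (hu h hh x hx).1
      eq := fun h hh x hx => (hu h hh x hx).2.2 }

end win

end Pool.Agent.CYL

namespace Pool.Agent.CYL
alias exists_win := exists_win_pr
end Pool.Agent.CYL
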