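import Pool.Agent.Lib_helper66.CYL.Defs
import Pool.Agent.Lib_helper58.MBS.L.AGRO
import Pool.Agent.Lib_helper66.CYL.P.DNGR
import Pool.Agent.Lib_helper66.CYL.P.DODE
import Pool.Agent.Lib_helper66.CYL.P.DWIN

/-! # Cylinder theorem: ported block DLH of MBS (quasi-minimal sets) -/

set_option autoImplicit false
set_option linter.unusedSectionVars false
set_option linter.unusedVariables false

open Filter Topology Metric Set

namespace Pool.Agent.CYL

open Pool.Agent.BR Pool.Agent.MBS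

section win

variable {E X : Type} [NormedAddCommGroup E] [NormedSpace ℂ E] [FiniteDimensional ℂ E]
  [MetricSpace X] [CompactSpace X] {A : Cha E X} {C lam L : ℝ} {M : Set (ℂ → X)} {k : ℕ}

theorem dlh_an {f : ℂ → X} {z₀ : ℂ} {i : A.ι} {l : E →L[ℂ] ℂ} {r ρ B : ℝ} {V : Set (ℂ → X)}
    {u : (ℂ → X) → ℂ → ℂ} (hW : Win A M f z₀ i l lam r ρ B V u) {h : ℂ → X} (hh : h ∈ V) {x : ℂ}
    (hx : x ∈ ball (l (A.loc i f z₀)) ρ) : AnalyticAt ℂ (gr A i u h) x := by
  have h1 : AnalyticAt ℂ (A.loc i h) (u h x) := hW.an h hh _ (hW.mem h hh x hx)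
  exact h1.comp (hW.u_an h hh x hx)

theorem lh_pr (hE : Module.finrank ℂ E = 2) (hB : BLip A lam L) (hM : QM A C M) {f : ℂ → X}
    (hf : f ∈ M) {z₀ : ℂ} (hz₀ : NC A f z₀) (p : Fin (k + 1))
    (hR : ∀ i, f z₀ ∈ (A.ch i).source → ∀ χ : ℂ → ℂ, AnalyticAt ℂ χ 0 → χ 0 = z₀ →
      deriv χ 0 ≠ 0 → Reg A k M p i (fun ζ => f (χ ζ))) :
    ∃ r > 0, ∀ (κ : Type) (F : Filter κ) (g h : κ → ℂ → X) (m : κ → ℝ),
      (∀ᶠ n in F, g n ∈ M) → (∀ᶠ n in F, h n ∈ M) → Tendsto g F (𝓝 f) → Tendsto h F (𝓝 f) →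
        (∀ n, 0 ≤ m n) → ∀ z ∈ ball z₀ r, ∀ z' ∈ ball z₀ r, NN F g h m z → NN F g h m z' := by
  obtain ⟨i, hi⟩ := A.cover (f z₀)
  have hsrc : f z₀ ∈ (A.ch i).source := A.W_sub i (subset_closure hi)
  have hd : deriv (A.loc i f) z₀ ≠ 0 := hz₀ i hsrc
  obtain ⟨l, hl⟩ : ∃ l : E →L[ℂ] ℂ, l (deriv (A.loc i f) z₀) ≠ 0 :=
    SeparatingDual.exists_ne_zero hd
  obtain ⟨r1, ρ, B, V, u, -, hW⟩ := exists_win hB hM hf hi hl one_pos
  obtain ⟨ρ', hρ', hρρ, C', hC', V', hV', hVV, hode⟩ := gr_ode hE hB hM hf hW p (hR i hsrc)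
  set x0 := l (A.loc i f z₀) with hx0
  obtain ⟨C2, hC2, hgr⟩ := gronwall_jet (E := E) (p : ℕ) C' ρ' hC' hρ'
  have hr1 := hW.r_pos
  have hBp := hW.B_pos
  have hl0 : 0 < ‖l‖ + 1 := by positivity
  set r := min r1 (ρ' / ((‖l‖ + 1) * B)) with hr
  have hrp : 0 < r := lt_min hr1 (by positivity)
  have hrr1 : r ≤ r1 := min_le_left _ _
  have hlx : ∀ z ∈ ball z₀ r, l (A.loc i f z) ∈ ball x0 ρ' := by
    intro z hz
    rw [mem_ball, dist_eq_norm] at hz ⊢
    rw [hx0, ← map_sub]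
    have h1 := hW.up f hW.f_mem z (by rw [mem_ball, dist_eq_norm]; linarith) z₀
      (mem_ball_self hr1)
    have h2 : ‖z - z₀‖ < ρ' / ((‖l‖ + 1) * B) := lt_of_lt_of_le hz (min_le_right _ _)
    rw [lt_div_iff₀ (by positivity)] at h2
    refine lt_of_le_of_lt (l.le_opNorm _) ?_
    have h3 : ‖l‖ * ‖A.loc i f z - A.loc i f z₀‖ ≤ (‖l‖ + 1) * (B * ‖z - z₀‖) :=
      mul_le_mul (by linarith) h1 (norm_nonneg _) hl0.le
    nlinarith
  refine ⟨r, hrp, ?_⟩
  intro κ F g h m hgM hhM hg hh hm z hz z' hz' hN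
  have hg' : Tendsto g F (𝓝[M] f) := tendsto_nhdsWithin_iff.2 ⟨hg, hgM⟩
  have hh' : Tendsto h F (𝓝[M] f) := tendsto_nhdsWithin_iff.2 ⟨hh, hhM⟩
  have hgV : ∀ᶠ n in F, g n ∈ V := hg' hW.V_mem
  have hhV : ∀ᶠ n in F, h n ∈ V := hh' hW.V_mem
  have hgV' : ∀ᶠ n in F, g n ∈ V' := hg' hV'
  have hhV' : ∀ᶠ n in F, h n ∈ V' := hh' hV'
  have hsub : ball x0 ρ' ⊆ ball x0 ρ := ball_subset_ball hρρ
  obtain ⟨ρ1, hρ1, B', hB'⟩ := gr_of_nn hB hM hf hW hW.f_mem hgV hhV hg hh hm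
    (ball_subset_ball hrr1 hz) (hsub (hlx z hz)) hN
  set x := l (A.loc i f z) with hx
  have hxb := hlx z hz
  -- a closed disc around `x`
  obtain ⟨s, hs, hs1, hs2⟩ : ∃ s > 0, s < ρ1 ∧ closedBall x s ⊆ ball x0 ρ' := by
    obtain ⟨e, he, heb⟩ := Metric.isOpen_iff.1 isOpen_ball x hxb
    refine ⟨min (e / 2) (ρ1 / 2), lt_min (by linarith) (by linarith), ?_, ?_⟩
    · exact lt_of_le_of_lt (min_le_right _ _) (by linarith)
    · refine (closedBall_subset_ball ?_).trans heb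
      exact lt_of_le_of_lt (min_le_left _ _) (by linarith)
  set C1 : ℝ := ∑ q ∈ Finset.range (p : ℕ), (q.factorial : ℝ) * B' / s ^ q with hC1
  -- the bound of the difference of the graphs on the whole disc
  have key : ∃ B2 : ℝ, ∀ᶠ n in F, ∀ y ∈ ball x0 ρ',
      ‖gr A i u (h n) y - gr A i u (g n) y‖ ≤ B2 * m n := by
    refine ⟨C2 * C1, ?_⟩
    filter_upwards [hgV', hhV', hB'] with n a1 a2 a3
    have b1 := hVV a1
    have b2 := hVV a2
    set D : ℂ → E := fun y => gr A i u (h n) y - gr A i u (g n) y with hD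
    have hDan : ∀ y ∈ ball x0 ρ', AnalyticAt ℂ D y := fun y hy =>
      (dlh_an hW b2 (hsub hy)).sub (dlh_an hW b1 (hsub hy))
    have hDode := hode (g n) a1 (h n) a2
    have h3 := hgr x0 D hDan hDode x hxb
    -- Cauchy
    have h4 : ∑ q ∈ Finset.range (p : ℕ), ‖iteratedDeriv q D x‖ ≤ C1 * m n := by
      rw [hC1, Finset.sum_mul]
      refine Finset.sum_le_sum fun q _ => ?_
      have h5 : ‖iteratedDeriv q D x‖ ≤ q.factorial * (B' * m n) / s ^ q := by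
        refine Complex.norm_iteratedDeriv_le_of_forall_mem_sphere_norm_le q hs ?_ ?_
        · refine DifferentiableOn.diffContOnCl ?_
          rw [closure_ball _ hs.ne']
          exact fun y hy => (hDan y (hs2 hy)).differentiableAt.differentiableWithinAt
        · intro y hy
          refine (a3 y ?_).2
          rw [mem_sphere] at hy
          rw [mem_ball, hy]
          exact hs1
      refine h5.trans (le_of_eq ?_)
      ring
    intro y hy
    rcases Nat.eq_zero_or_pos (p : ℕ) with hp | hp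
    · have h5 := hDode y hy
      rw [hp] at h5 hC1
      simp only [iteratedDeriv_zero, Finset.range_zero, Finset.sum_empty, mul_zero] at h5 hC1
      rw [hC1]
      simpa using h5
    · have h5 := h3 y hy
      have h6 : ‖iteratedDeriv 0 D y‖ ≤ ∑ q ∈ Finset.range (p : ℕ), ‖iteratedDeriv q D y‖ :=
        Finset.single_le_sum (f := fun q => ‖iteratedDeriv q D y‖) (fun q _ => norm_nonneg _)
          (Finset.mem_range.2 hp)
      rw [iteratedDeriv_zero] at h6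
      have h7 : C2 * ∑ q ∈ Finset.range (p : ℕ), ‖iteratedDeriv q D x‖ ≤ C2 * (C1 * m n) :=
        mul_le_mul_of_nonneg_left h4 hC2.le
      calc ‖D y‖ ≤ _ := h6
        _ ≤ _ := h5
        _ ≤ _ := h7
        _ = _ := by ring
  obtain ⟨B2, hB2⟩ := key
  have hx'b := hlx z' hz'
  obtain ⟨e, he, heb⟩ := Metric.isOpen_iff.1 isOpen_ball _ hx'b
  refine nn_of_gr hB hM hf hW hW.f_mem hgV hhV hg hh hm (ball_subset_ball hrr1 hz')
    (hsub hx'b) he (B' := B2) ?_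
  filter_upwards [hB2] with n a1 y hy
  exact a1 y (heb hy)

end win

end Pool.Agent.CYL

namespace Pool.Agent.CYL
alias lh := lh_pr
end Pool.Agent.CYL
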