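import Pool.Agent.Lib_helper66.CYL.Defs
import Pool.Agent.Lib_helper66.CYL.P.DNGR
import Pool.Agent.Lib_helper66.CYL.P.DWIN

/-! # Cylinder theorem: ported block DMAX of MBS (quasi-minimal sets) -/

set_option autoImplicit false
set_option linter.unusedSectionVars false
set_option linter.unusedVariables false

open Filter Topology Metric Set

namespace Pool.Agent.CYL

open Pool.Agent.BR Pool.Agent.MBS

section win

variable {E X : Type} [NormedAddCommGroup E] [NormedSpace ℂ E] [FiniteDimensional ℂ E]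
  [MetricSpace X] [CompactSpace X] {A : Cha E X} {C lam L : ℝ} {M : Set (ℂ → X)} {k : ℕ}

/-- a linear form which does not vanish on a given vector -/
theorem dmax_dual {v : E} (hv : v ≠ 0) : ∃ l : E →L[ℂ] ℂ, l v ≠ 0 :=
  SeparatingDual.exists_ne_zero hv

/-- a radius avoiding a countable set -/
theorem dmax_radius {D : Set ℂ} (hD : D.Countable) (x₀ : ℂ) {ρ : ℝ} (hρ : 0 < ρ) :
    ∃ s : ℝ, 0 < s ∧ s < ρ ∧ ∀ x : ℂ, ‖x - x₀‖ = s → x ∉ D := by
  have h1 : ((fun x : ℂ => ‖x - x₀‖) '' D).Countable := hD.image _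
  obtain ⟨s, hs, hs'⟩ := (h1.dense_compl ℝ).inter_open_nonempty (Ioo 0 ρ) isOpen_Ioo
    (nonempty_Ioo.2 hρ)
  exact ⟨s, hs.1, hs.2, fun x hx hxD => hs' ⟨x, hxD, hx⟩⟩

/-- the graphs of the members of a window are analytic -/
theorem dmax_gr_an {f : ℂ → X} {z₀ : ℂ} {i : A.ι} {l : E →L[ℂ] ℂ} {r ρ B : ℝ} {V : Set (ℂ → X)}
    {u : (ℂ → X) → ℂ → ℂ} (hW : Win A M f z₀ i l lam r ρ B V u) {h : ℂ → X} (hh : h ∈ V) {x : ℂ}
    (hx : x ∈ ball (l (A.loc i f z₀)) ρ) : AnalyticAt ℂ (gr A i u h) x :=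
  (hW.an h hh _ (hW.mem h hh x hx)).comp (hW.u_an h hh x hx)

/-- DMAX: the maximum principle at a noncritical point -/
theorem nn_max_pr (hE : Module.finrank ℂ E = 2) (hB : BLip A lam L) (hM : QM A C M) {f : ℂ → X}
    (hf : f ∈ M) {z₀ : ℂ} (hz₀ : NC A f z₀) {κ : Type} {F : Filter κ} {g h : κ → ℂ → X}
    {m : κ → ℝ} (hgM : ∀ᶠ n in F, g n ∈ M) (hhM : ∀ᶠ n in F, h n ∈ M)
    (hg : Tendsto g F (𝓝 f)) (hh : Tendsto h F (𝓝 f)) (hm : ∀ n, 0 ≤ m n) {B : Set ℂ}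
    (hBc : B.Countable) {r : ℝ} (hr : 0 < r) (h1 : ∀ z ∈ ball z₀ r, z ∉ B → NN F g h m z) :
    NN F g h m z₀ := by
  obtain ⟨i, hi⟩ := A.cover (f z₀)
  have hd : deriv (A.loc i f) z₀ ≠ 0 := hz₀ i (A.W_sub i (subset_closure hi))
  obtain ⟨l, hl⟩ := dmax_dual hd
  obtain ⟨r₁, ρ, B₁, V, u, hr₁, hW⟩ := exists_win hB hM hf hi hl hr
  have hgV : ∀ᶠ n in F, g n ∈ V := (tendsto_nhdsWithin_iff.2 ⟨hg, hgM⟩).eventually hW.V_mem
  have hhV : ∀ᶠ n in F, h n ∈ V := (tendsto_nhdsWithin_iff.2 ⟨hh, hhM⟩).eventually hW.V_mem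
  set x₀ : ℂ := l (A.loc i f z₀) with hx₀
  -- the exceptional set in the coordinate `x`
  have hinj : InjOn (u f) (ball x₀ ρ ∩ u f ⁻¹' B) := by
    intro x hx y hy hxy
    rw [← hW.eq f hW.f_mem x hx.1, ← hW.eq f hW.f_mem y hy.1, hxy]
  have hD : (ball x₀ ρ ∩ u f ⁻¹' B).Countable :=
    MapsTo.countable_of_injOn (f := u f) (t := B) (fun x hx => hx.2) hinj hBc
  obtain ⟨s, hs0, hsρ, hs⟩ := dmax_radius hD x₀ hW.ρ_pos
  have hsub : closedBall x₀ s ⊆ ball x₀ ρ := closedBall_subset_ball hsρ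
  -- the bound on the circle
  have hcirc : ∃ B' : ℝ, ∀ᶠ n in F, ∀ x ∈ sphere x₀ s,
      ‖gr A i u (h n) x - gr A i u (g n) x‖ ≤ B' * m n := by
    refine IsCompact.induction_on (isCompact_sphere x₀ s)
      (p := fun S => ∃ B' : ℝ, ∀ᶠ n in F, ∀ x ∈ S,
        ‖gr A i u (h n) x - gr A i u (g n) x‖ ≤ B' * m n) ⟨0, Eventually.of_forall fun n x hx => ?_⟩
      (fun S T hST hT => ?_) (fun S T hS hT => ?_) (fun x hx => ?_)
    · exact absurd hx (notMem_empty x)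
    · obtain ⟨B', hB'⟩ := hT
      exact ⟨B', hB'.mono fun n hn x hx => hn x (hST hx)⟩
    · obtain ⟨B', hB'⟩ := hS
      obtain ⟨B'', hB''⟩ := hT
      refine ⟨max B' B'', ?_⟩
      filter_upwards [hB', hB''] with n h2 h3 x hx
      rcases hx with hx | hx
      · exact (h2 x hx).trans (mul_le_mul_of_nonneg_right (le_max_left _ _) (hm n))
      · exact (h3 x hx).trans (mul_le_mul_of_nonneg_right (le_max_right _ _) (hm n))
    · have hxs : ‖x - x₀‖ = s := by rw [← dist_eq_norm]; exact hx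
      have hxρ : x ∈ ball x₀ ρ := hsub (sphere_subset_closedBall hx)
      have hz : u f x ∈ ball z₀ r₁ := hW.mem f hW.f_mem x hxρ
      have hzB : u f x ∉ B := fun hb => hs x hxs ⟨hxρ, hb⟩
      have hNN : NN F g h m (u f x) := h1 _ (ball_subset_ball hr₁ hz) hzB
      have hlx : l (A.loc i f (u f x)) = x := hW.eq f hW.f_mem x hxρ
      obtain ⟨ρ', hρ', B', hB'⟩ := gr_of_nn hB hM hf hW hW.f_mem hgV hhV hg hh hm hz
        (by rw [hlx]; exact hxρ) hNN
      rw [hlx] at hB'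
      exact ⟨ball x ρ', mem_nhdsWithin_of_mem_nhds (ball_mem_nhds x hρ'), B',
        hB'.mono fun n hn y hy => (hn y hy).2⟩
  obtain ⟨B', hB'⟩ := hcirc
  refine nn_of_gr hB hM hf hW hW.f_mem hgV hhV hg hh hm (mem_ball_self hW.r_pos)
    (mem_ball_self hW.ρ_pos) (ρ' := s) (B' := B') hs0 ?_
  filter_upwards [hB', hgV, hhV] with n hn hgn hhn x hx
  have hdc : DiffContOnCl ℂ (fun y => gr A i u (h n) y - gr A i u (g n) y) (ball x₀ s) := by
    apply DifferentiableOn.diffContOnCl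
    intro y hy
    rw [closure_ball x₀ hs0.ne'] at hy
    exact ((dmax_gr_an hW hhn (hsub hy)).sub
      (dmax_gr_an hW hgn (hsub hy))).differentiableAt.differentiableWithinAt
  refine Complex.norm_le_of_forall_mem_frontier_norm_le isBounded_ball hdc (fun y hy => ?_)
    (subset_closure hx)
  rw [frontier_ball x₀ hs0.ne'] at hy
  exact hn y hy

end win

end Pool.Agent.CYL

namespace Pool.Agent.CYL
alias nn_max := nn_max_pr
end Pool.Agent.CYL
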