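import Pool.Agent.Lib_helper66.CYL.Defs
import Pool.Agent.Lib_helper58.MBS.L.BNC
import Pool.Agent.Lib_helper66.CYL.P.DLH
import Pool.Agent.Lib_helper66.CYL.P.DMAX

set_option autoImplicit false
set_option linter.unusedSectionVars false
set_option linter.unusedVariables false

open Filter Topology Metric Set

namespace Pool.Agent.CYL

open Pool.Agent.BR Pool.Agent.MBS

section win

variable {E X : Type} [NormedAddCommGroup E] [NormedSpace ℂ E] [FiniteDimensional ℂ E]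
  [MetricSpace X] [CompactSpace X] {A : Cha E X} {C lam L : ℝ} {M : Set (ℂ → X)} {k : ℕ}

/-- the displacement notion is open in the point -/
theorem dprp_near {κ : Type} {F : Filter κ} {g h : κ → ℂ → X} {m : κ → ℝ} {z : ℂ}
    (h1 : NN F g h m z) : ∃ ρ > 0, ∀ z' ∈ ball z ρ, NN F g h m z' := by
  obtain ⟨ρ, hρ, B, h2⟩ := h1
  refine ⟨ρ, hρ, fun z' hz' => ⟨ρ - dist z' z, by rw [mem_ball] at hz'; linarith, B,
    fun ε hε => ?_⟩⟩
  filter_upwards [h2 ε hε] with n hn ζ hζ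
  refine hn ζ ?_
  rw [mem_ball] at hζ ⊢
  linarith [dist_triangle ζ z' z]

theorem prop_pr (hE : Module.finrank ℂ E = 2) (hB : BLip A lam L) (hM : QM A C M)
    (hR : RegN A k M) {f : ℂ → X} (hf : f ∈ M) (hfn : NCst f) {κ : Type} {F : Filter κ}
    {g h : κ → ℂ → X} {m : κ → ℝ} (hgM : ∀ᶠ n in F, g n ∈ M) (hhM : ∀ᶠ n in F, h n ∈ M)
    (hg : Tendsto g F (𝓝 f)) (hh : Tendsto h F (𝓝 f)) (hm : ∀ n, 0 ≤ m n) {z z' : ℂ}
    (hz : NC A f z) (hz' : NC A f z') (h1 : NN F g h m z) : NN F g h m z' := by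
  obtain ⟨p, hp⟩ := hR
  obtain ⟨B, hBcl, hBco, hreg⟩ := hp f hf hfn
  obtain ⟨hNcl, hNco⟩ := crit_countable (A := A) (hM.sub hf).1 hfn
  have hco : ({z | ¬ NC A f z} ∪ B).Countable := hNco.union hBco
  have hcon : IsPreconnected ({z | ¬ NC A f z} ∪ B)ᶜ := by
    have h2 : 1 < Module.rank ℝ ℂ := by
      rw [Complex.rank_real_complex]
      exact Cardinal.one_lt_two
    exact (hco.isPathConnected_compl_of_one_lt_rank h2).isConnected.isPreconnected
  have hloc : ∀ x ∈ ({z | ¬ NC A f z} ∪ B)ᶜ, ∀ᶠ y in 𝓝[({z | ¬ NC A f z} ∪ B)ᶜ] x,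
      (NN F g h m x → NN F g h m y) ∧ (NN F g h m y → NN F g h m x) := by
    intro x hx
    rw [mem_compl_iff, mem_union, not_or] at hx
    have hxN : NC A f x := not_not.1 hx.1
    obtain ⟨r, hr, hl⟩ := lh hE hB hM hf hxN p (hreg x hx.2)
    have h3 := hl κ F g h m hgM hhM hg hh hm
    filter_upwards [mem_nhdsWithin_of_mem_nhds (ball_mem_nhds x hr)] with y hy
    exact ⟨h3 x (mem_ball_self hr) y hy, h3 y hy x (mem_ball_self hr)⟩
  obtain ⟨ρ, hρ, hnear⟩ := dprp_near h1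
  have hdense : Dense ({z | ¬ NC A f z} ∪ B)ᶜ := hco.dense_compl ℝ
  obtain ⟨z₁, hz₁, hz₁b⟩ := hdense.exists_mem_open isOpen_ball ⟨z, mem_ball_self hρ⟩
  have hall : ∀ y ∈ ({z | ¬ NC A f z} ∪ B)ᶜ, NN F g h m y := by
    intro y hy
    exact hcon.induction₂' (fun a b => NN F g h m a → NN F g h m b) hloc
      (fun a b c _ _ _ hab hbc ha => hbc (hab ha)) hz₁ hy (hnear z₁ hz₁b)
  exact nn_max hE hB hM hf hz' hgM hhM hg hh hm hco one_pos fun y _ hy => hall y hy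


end win

end Pool.Agent.CYL

namespace Pool.Agent.CYL
alias prop := prop_pr
end Pool.Agent.CYL
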