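import Pool.Agent.Lib_helper66.CYL.Defs
import Pool.Agent.Lib_helper58.MBS.L.BLIM

set_option autoImplicit false
set_option linter.unusedSectionVars false
set_option linter.unusedVariables false

open Filter Topology Metric Set

namespace Pool.Agent.CYL

open Pool.Agent.BR Pool.Agent.MBS

section win

variable {E X : Type} [NormedAddCommGroup E] [NormedSpace ℂ E] [FiniteDimensional ℂ E]
  [MetricSpace X] [CompactSpace X] {A : Cha E X} {C lam L : ℝ} {M : Set (ℂ → X)} {k : ℕ}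

/-- DSNN: displacement at samples gives the notion `NN` near a sample circle -/
theorem nn_of_mle_pr {θ ε : ℝ} {K : Set (ℂ → X)} (hS : SmpK M K θ ε) (hM : QM A C M)
    {f : ℂ → X} (hf : f ∈ M) (hfK : f ∈ K) {κ : Type} {F : Filter κ} {g h : κ → ℂ → X} {m : κ → ℝ} (hgM : ∀ᶠ n in F, g n ∈ M)
    (hhM : ∀ᶠ n in F, h n ∈ M) (hg : Tendsto g F (𝓝 f)) (hh : Tendsto h F (𝓝 f))
    (hm : ∀ n, 0 ≤ m n) (hm0 : Tendsto m F (𝓝 0)) (h1 : ∀ᶠ n in F, Mle θ ε (g n) (h n) 0 (m n)) :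
    ∃ z, ‖z‖ < 2 ∧ Smp θ ε f z ∧ NN F g h m z := by
  obtain ⟨s, hs1, hs2, η, hη, hcirc⟩ := hS.circ f hfK
  have hsn : ‖(s : ℂ)‖ = s := by
    rw [Complex.norm_real, Real.norm_of_nonneg (by linarith)]
  have hθ := hS.θ_pos
  refine ⟨(s : ℂ), by rw [hsn]; exact hs2, ?_, ?_⟩
  · exact hcirc.self_of_nhdsWithin hf (s : ℂ) (by rw [hsn]; linarith) (by rw [hsn]; linarith)
  · have hρ : 0 < min η (2 - s) := lt_min hη (by linarith)
    refine ⟨min η (2 - s), hρ, 1, fun ε' hε' => ?_⟩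
    have hgW : Tendsto g F (𝓝[M] f) := tendsto_nhdsWithin_iff.2 ⟨hg, hgM⟩
    have e1 : ∀ᶠ n in F, ∀ ζ : ℂ, s - η < ‖ζ‖ → ‖ζ‖ < s + η → Smp θ ε (g n) ζ :=
      hgW.eventually hcirc
    have hgB : ∀ᶠ n in F, g n ∈ BF A C := hgM.mono fun n hn => hM.sub hn
    have hhB : ∀ᶠ n in F, h n ∈ BF A C := hhM.mono fun n hn => hM.sub hn
    have hδ : 0 < θ * ε' / 3 := by positivity
    have e2 := bf_unif hgB (hM.sub hf) hg 4 (θ * ε' / 3) hδ
    have e3 := bf_unif hhB (hM.sub hf) hh 4 (θ * ε' / 3) hδ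
    have e4 : ∀ᶠ n in F, m n < θ * ε' / 3 := hm0.eventually (gt_mem_nhds hδ)
    filter_upwards [e1, e2, e3, e4, h1] with n a1 a2 a3 a4 a5
    intro ζ hζ
    have hζ' : ‖ζ - (s : ℂ)‖ < min η (2 - s) := mem_ball_iff_norm.1 hζ
    have hζη : ‖ζ - (s : ℂ)‖ < η := lt_of_lt_of_le hζ' (min_le_left _ _)
    have hζs : ‖ζ - (s : ℂ)‖ < 2 - s := lt_of_lt_of_le hζ' (min_le_right _ _)
    have hub : ‖ζ‖ ≤ ‖ζ - (s : ℂ)‖ + s := by
      have := norm_add_le (ζ - (s : ℂ)) (s : ℂ)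
      rw [sub_add_cancel, hsn] at this
      exact this
    have hlb : s ≤ ‖ζ - (s : ℂ)‖ + ‖ζ‖ := by
      have := norm_sub_le ζ (ζ - (s : ℂ))
      rw [sub_sub_cancel, hsn] at this
      linarith
    have hsmp : Smp θ ε (g n) ζ := a1 ζ (by linarith) (by linarith)
    obtain ⟨u, hu1, hu2⟩ := a5 ζ (by rw [sub_zero]; linarith) hsmp
    refine ⟨u, ?_, by rw [one_mul]; exact hu2⟩
    have hu4 : ‖u‖ ≤ 4 := by
      have h3 := norm_add_le (u - ζ) ζ
      rw [sub_add_cancel] at h3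
      have := hS.ε_le
      linarith
    have h4 := hsmp u hu1
    have h5 : dist (g n ζ) (g n u) ≤ dist (g n ζ) (h n u) + (dist (h n u) (f u) +
        dist (g n u) (f u)) := by
      refine (dist_triangle _ (h n u) _).trans (add_le_add le_rfl ?_)
      exact dist_triangle_right _ _ _
    have h6 := a2 u hu4
    have h7 := a3 u hu4
    have h8 : θ * ‖u - ζ‖ ≤ θ * ε' := by linarith
    exact le_of_mul_le_mul_left h8 hθ

end win


end Pool.Agent.CYL

namespace Pool.Agent.CYL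
alias nn_of_mle := nn_of_mle_pr
end Pool.Agent.CYL
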