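import Pool.Agent.Lib_helper66.CYL.Defs
import Pool.Agent.Lib_helper58.MBS.L.BSMP
import Pool.Agent.Lib_helper66.CYL.P.DPRP
import Pool.Agent.Lib_helper66.CYL.P.DSNN

/-! # Cylinder theorem: ported block DHH of MBS (quasi-minimal sets) -/

set_option autoImplicit false
set_option linter.unusedSectionVars false
set_option linter.unusedVariables false

open Filter Topology Metric Set

namespace Pool.Agent.CYL

open Pool.Agent.BR Pool.Agent.MBS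

section win

variable {E X : Type} [NormedAddCommGroup E] [NormedSpace ℂ E] [FiniteDimensional ℂ E]
  [MetricSpace X] [CompactSpace X] {A : Cha E X} {C lam L : ℝ} {M : Set (ℂ → X)} {k : ℕ}

theorem dhh_mle_tr {θ ε : ℝ} {g h : ℂ → X} {z : ℂ} {K : ℝ} (H : Mle θ ε g h z K) :
    Mle θ ε (tr z g) (tr z h) 0 K := by
  intro ζ hζ hs
  rw [sub_zero] at hζ
  obtain ⟨u, hu, hd⟩ := H (ζ + z) (by rwa [add_sub_cancel_right]) (smp_tr.1 hs)
  refine ⟨u - z, by rwa [show u - z - ζ = u - (ζ + z) by ring], ?_⟩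
  simpa [tr] using hd

theorem dhh_step {θ ε R₁ : ℝ} {KK : Set (ℂ → X)} (hM : QM A C M) (n : ℕ)
    (H : ¬ HHK M KK θ ε R₁ ((n : ℝ) + 1) ((n : ℝ) + 1) (1 / ((n : ℝ) + 1))) :
    ∃ (g h : ℂ → X) (K : ℝ) (ζ : ℂ), g ∈ KK ∧ h ∈ M ∧ 0 ≤ K ∧
      (∀ w, ‖w‖ ≤ (n : ℝ) + 1 → dist (g w) (h w) ≤ 1 / ((n : ℝ) + 1)) ∧ Mle θ ε g h 0 K ∧
      ‖ζ‖ ≤ R₁ + 2 ∧ Smp θ ε g ζ ∧ ∀ u, ‖u - ζ‖ ≤ ε → ((n : ℝ) + 1) * K < dist (g ζ) (h u) := by
  unfold HHK at H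
  push Not at H
  obtain ⟨g, hg, h, hh, z, K, hgK, hK, hcl, hmle, z', hz', hn⟩ := H
  unfold Mle at hn
  push Not at hn
  obtain ⟨ζ, hζ, hs, hfar⟩ := hn
  refine ⟨tr z g, tr z h, K, ζ - z, hgK, hM.inv h hh z, hK, ?_, dhh_mle_tr hmle, ?_,
    ?_, ?_⟩
  · intro w hw
    exact hcl (w + z) (by rwa [add_sub_cancel_right])
  · calc ‖ζ - z‖ = ‖(ζ - z') + (z' - z)‖ := by congr 1; ring
      _ ≤ ‖ζ - z'‖ + ‖z' - z‖ := norm_add_le _ _
      _ ≤ R₁ + 2 := by linarith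
  · rw [smp_tr, sub_add_cancel]; exact hs
  · intro u hu
    have h1 := hfar (u + z) (by rwa [show u + z - ζ = u - (ζ - z) by ring])
    simpa [tr] using h1

theorem exists_HHK_pr (hE : Module.finrank ℂ E = 2) (hB : BLip A lam L) (hM : QM A C M)
    (hR : RegN A k M) {KK : Set (ℂ → X)} (hKc : IsCompact KK) (hKM : KK ⊆ M)
    (hKn : ∀ g ∈ KK, NCst g) {θ ε : ℝ} (hS : SmpK M KK θ ε) (R₁ : ℝ) :
    ∃ C₀ R δ : ℝ, 1 ≤ C₀ ∧ 0 < R ∧ 0 < δ ∧ HHK M KK θ ε R₁ C₀ R δ := by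
  by_contra hcon
  push Not at hcon
  have hstep : ∀ n : ℕ, ∃ (g h : ℂ → X) (K : ℝ) (ζ : ℂ), g ∈ KK ∧ h ∈ M ∧ 0 ≤ K ∧
      (∀ w, ‖w‖ ≤ (n : ℝ) + 1 → dist (g w) (h w) ≤ 1 / ((n : ℝ) + 1)) ∧ Mle θ ε g h 0 K ∧
      ‖ζ‖ ≤ R₁ + 2 ∧ Smp θ ε g ζ ∧ ∀ u, ‖u - ζ‖ ≤ ε → ((n : ℝ) + 1) * K < dist (g ζ) (h u) := by
    intro n
    have hn : (0 : ℝ) ≤ n := Nat.cast_nonneg n
    exact dhh_step hM n (hcon _ _ _ (by linarith) (by positivity) (by positivity))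
  choose g h K ζ hg hh hK hcl hmle hζ hs hfar using hstep
  -- the ultrafilter
  obtain ⟨f, hfK, hgf⟩ := hKc.ultrafilter_le_nhds' ((hyperfilter ℕ).map g)
    (Filter.Eventually.of_forall hg : ∀ᶠ n in (hyperfilter ℕ : Filter ℕ), g n ∈ KK)
  have hf : f ∈ M := hKM hfK
  have hfn : NCst f := hKn f hfK
  obtain ⟨ζs, -, hζs⟩ := (isCompact_closedBall (0 : ℂ) (R₁ + 2)).ultrafilter_le_nhds'
    ((hyperfilter ℕ).map ζ)
    (Filter.Eventually.of_forall (fun n => by simpa using hζ n) :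
      ∀ᶠ n in (hyperfilter ℕ : Filter ℕ), ζ n ∈ closedBall (0 : ℂ) (R₁ + 2))
  set F : Filter ℕ := (hyperfilter ℕ : Filter ℕ) with hF
  have hFle : F ≤ atTop := by
    have := Nat.hyperfilter_le_atTop
    exact this
  have hgf' : Tendsto g F (𝓝 f) := hgf
  have hζ' : Tendsto ζ F (𝓝 ζs) := hζs
  have hone : Tendsto (fun n : ℕ => 1 / ((n : ℝ) + 1)) F (𝓝 0) :=
    tendsto_one_div_add_atTop_nhds_zero_nat.mono_left hFle
  have hlarge : ∀ c : ℝ, ∀ᶠ n : ℕ in F, c ≤ (n : ℝ) + 1 := by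
    intro c
    have h1 : Tendsto (fun n : ℕ => (n : ℝ) + 1) atTop atTop :=
      tendsto_atTop_add_const_right _ _ tendsto_natCast_atTop_atTop
    exact hFle (h1.eventually_ge_atTop c)
  have hhf : Tendsto h F (𝓝 f) := by
    rw [tendsto_pi_nhds]
    intro w
    have h1 : Tendsto (fun n => g n w) F (𝓝 (f w)) := (tendsto_pi_nhds.1 hgf') w
    refine h1.congr_dist ?_
    refine squeeze_zero' (Eventually.of_forall fun n => dist_nonneg) ?_ hone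
    filter_upwards [hlarge ‖w‖] with n hn
    exact hcl n w hn
  have hK0 : Tendsto K F (𝓝 0) := by
    refine squeeze_zero' (Eventually.of_forall hK) ?_ hone
    filter_upwards [hlarge (R₁ + 2)] with n hn
    have h1 := hfar n (ζ n) (by simpa using hS.ε_pos.le)
    have h2 := hcl n (ζ n) ((hζ n).trans hn)
    have h3 : K n ≤ ((n : ℝ) + 1) * K n := by
      have := hK n
      nlinarith
    linarith
  have hBF : f ∈ BF A C := hM.sub hf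
  have hgM : ∀ᶠ n in F, g n ∈ M := Eventually.of_forall fun n => hKM (hg n)
  have hhM : ∀ᶠ n in F, h n ∈ M := Eventually.of_forall hh
  have hsf : Smp θ ε f ζs :=
    smp_lim (Eventually.of_forall fun n => hM.sub (hKM (hg n))) hBF hgf' hζ' (Eventually.of_forall hs)
  have hnc : NC A f ζs := smp_nc hB hS.θ_pos hS.ε_pos hBF.1 hsf
  obtain ⟨z, hz, hsz, hNN⟩ := nn_of_mle hS hM hf hfK hgM hhM hgf' hhf hK hK0
    (Eventually.of_forall hmle)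
  have hncz : NC A f z := smp_nc hB hS.θ_pos hS.ε_pos hBF.1 hsz
  obtain ⟨ρ, hρ, B, hB'⟩ := prop hE hB hM hR hf hfn hgM hhM hgf' hhf hK hncz hnc hNN
  have hball : ∀ᶠ n in F, ζ n ∈ ball ζs ρ := hζ' (ball_mem_nhds ζs hρ)
  obtain ⟨n, hn1, hn2, hn3⟩ := ((hB' ε hS.ε_pos).and (hball.and (hlarge B))).exists
  obtain ⟨u, hu, hd⟩ := hn1 (ζ n) hn2
  have h1 := hfar n u hu
  have h2 : B * K n ≤ ((n : ℝ) + 1) * K n := mul_le_mul_of_nonneg_right hn3 (hK n)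
  linarith

end win

end Pool.Agent.CYL

namespace Pool.Agent.CYL
alias exists_HHK := exists_HHK_pr
end Pool.Agent.CYL
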