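import Pool.Agent.Lib_helper66.CYL.Defs
import Pool.Agent.Lib_helper66.CYL.P.ELIM
import Pool.Agent.Lib_helper58.MBS.L.EUEX

/-! # Cylinder theorem: ported block ELOC of MBS (quasi-minimal sets) -/

set_option autoImplicit false
set_option linter.unusedSectionVars false
set_option linter.unusedVariables false

open Filter Topology Metric Set

namespace Pool.Agent.CYL

open Pool.Agent.BR Pool.Agent.MBS

namespace ELOC

variable {E X : Type} [NormedAddCommGroup E] [NormedSpace ℂ E]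
  [MetricSpace X] {A : Cha E X} {N k : ℕ}

/-- the change of charts -/
theorem deriv_change {f : ℂ → X} {z : ℂ} (hf : A.HolAt f z) {i j : A.ι}
    (hi : f z ∈ (A.ch i).source) (hj : f z ∈ (A.ch j).source) :
    deriv (A.loc j f) z =
      fderiv ℂ (fun ξ => A.ch j ((A.ch i).symm ξ)) (A.ch i (f z)) (deriv (A.loc i f) z) := by
  have h1 : (fun w => (fun ξ => A.ch j ((A.ch i).symm ξ)) (A.loc i f w)) =ᶠ[𝓝 z] A.loc j f := by
    filter_upwards [hf.1.eventually_mem ((A.ch i).open_source.mem_nhds hi)] with w hw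
    simp [Cha.loc, (A.ch i).left_inv hw]
  have h2 : HasDerivAt (A.loc i f) (deriv (A.loc i f) z) z :=
    (hf.2 i hi).differentiableAt.hasDerivAt
  have h3 : HasFDerivAt (fun ξ => A.ch j ((A.ch i).symm ξ))
      (fderiv ℂ (fun ξ => A.ch j ((A.ch i).symm ξ)) (A.ch i (f z))) (A.loc i f z) :=
    (A.trans i j _ hi hj).differentiableAt.hasFDerivAt
  have h4 := h3.comp_hasDerivAt z h2
  exact (h4.congr_of_eventuallyEq h1.symm).deriv

theorem form_shear {F : A.Frm N k} {i : A.ι} {ξ : E} (hξ : ξ ∈ (A.ch i).target) (D v : E) (b : ℂ) :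
    F.T i ξ (D + b • v) v = F.T i ξ D v := by
  have h := (F.tf i).equi ξ hξ 1 b 0 1 D v
  simpa using h

theorem form_cont {F : A.Frm N k} {i : A.ι} {ξ : E} (hξ : ξ ∈ (A.ch i).target) (d v : E) :
    ContinuousAt (fun u => F.T i ξ u v) d := by
  have h : ContinuousAt (fun p : E × E × E => F.T i p.1 p.2.1 p.2.2) (ξ, d, v) :=
    ((F.tf i).hol ξ hξ d v).continuousAt
  have h2 : ContinuousAt (fun u : E => ((ξ, u, v) : E × E × E)) d := by fun_prop
  exact ContinuousAt.comp (f := fun u : E => ((ξ, u, v) : E × E × E)) (x := d) h h2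

end ELOC

section sec

variable {E X : Type} [NormedAddCommGroup E] [NormedSpace ℂ E] [FiniteDimensional ℂ E]
  [MetricSpace X] [CompactSpace X] {A : Cha E X} {C lam L : ℝ} {M : Set (ℂ → X)} {k N : ℕ}

theorem sig_local_pr (hE : Module.finrank ℂ E = 2) (hB : BLip A lam L) (hM : QM A C M)
    (F : A.Frm N k) {κ : Type} {U : Ultrafilter κ} {f : ℂ → X} {h : κ → ℂ → X} {m : κ → ℝ}
    (hS : Sit A M U f h m) {z₀ : ℂ} (hz₀ : NC A f z₀) :
    ∃ r > 0, ∃ s : ℂ → EuclideanSpace ℂ (Fin N), ∀ z ∈ ball z₀ r, AnalyticAt ℂ s z ∧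
      IsSig A F (U : Filter κ) f h m z (s z) := by
  obtain ⟨i, hi⟩ := A.cover (f z₀)
  have his : f z₀ ∈ (A.ch i).source := A.W_sub i (subset_closure hi)
  have hne : deriv (A.loc i f) z₀ ≠ 0 := hz₀ i his
  obtain ⟨l, hl⟩ : ∃ l : E →L[ℂ] ℂ, l (deriv (A.loc i f) z₀) ≠ 0 := by
    obtain ⟨l, hl⟩ := exists_dual_vector ℂ (deriv (A.loc i f) z₀) (norm_ne_zero_iff.2 hne)
    refine ⟨l, ?_⟩
    rw [hl.2]
    simpa using hne
  obtain ⟨r, hr, D, hD1, hD2⟩ := disp_lim hE hB hM hS hz₀ hi l hl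
  refine ⟨r, hr, fun z => F.T i (A.loc i f z) (D z) (deriv (A.loc i f) z), fun z hz => ?_⟩
  obtain ⟨hDa, hWz, hfa, -, -⟩ := hD1 z hz
  have hzs : f z ∈ (A.ch i).source := A.W_sub i (subset_closure hWz)
  have hzt : A.loc i f z ∈ (A.ch i).target := (A.ch i).map_source hzs
  have hfz : A.HolAt f z := (hM.sub hS.f_mem).1 z
  refine ⟨?_, fun j hj u hu hBu => ?_⟩
  · have h0 : AnalyticAt ℂ (deriv (A.loc i f)) z := AnalyticAt.deriv hfa
    have h1 : AnalyticAt ℂ (fun w => ((A.loc i f w, D w, deriv (A.loc i f) w) : E × E × E)) z :=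
      AnalyticAt.prod hfa (AnalyticAt.prod hDa h0)
    exact AnalyticAt.comp (g := fun p : E × E × E => F.T i p.1 p.2.1 p.2.2)
      (f := fun w => ((A.loc i f w, D w, deriv (A.loc i f) w) : E × E × E)) (x := z)
      ((F.tf i).hol _ hzt (D z) (deriv (A.loc i f) z)) h1
  · obtain ⟨b, hb⟩ := hD2 z hz (fun _ => z) u tendsto_const_nhds hu hBu
    obtain ⟨B, hB'⟩ := hBu
    have hm0 : Tendsto m U (𝓝 0) := hS.m_lim
    have hX : Tendsto (fun n => h n (u n)) U (𝓝 (f z)) := by
      rw [tendsto_iff_dist_tendsto_zero]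
      have h0 : Tendsto (fun n => B * m n) U (𝓝 0) := by simpa using hm0.const_mul B
      exact squeeze_zero' (Eventually.of_forall fun n => dist_nonneg)
        (hB'.mono fun n hn => by rw [dist_comm]; exact hn) h0
    have hd : Tendsto (fun n => A.loc i (h n) (u n) - A.loc i f z) U (𝓝 0) := by
      have h1 : Tendsto (fun n => A.loc i (h n) (u n)) U (𝓝 (A.loc i f z)) :=
        ((A.ch i).continuousAt hzs).tendsto.comp hX
      simpa using h1.sub_const (A.loc i f z)
    have hψ : HasFDerivAt (fun ξ => A.ch j ((A.ch i).symm ξ))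
        (fderiv ℂ (fun ξ => A.ch j ((A.ch i).symm ξ)) (A.ch i (f z))) (A.loc i f z) :=
      (A.trans i j _ hzs hj).differentiableAt.hasFDerivAt
    have h2 := (hasFDerivWithinAt_univ.2 hψ).lim hd (Eventually.of_forall fun n => mem_univ _) hb
    have h3 : Tendsto (fun n => ((m n : ℂ))⁻¹ • (A.loc j (h n) (u n) - A.loc j f z)) U
        (𝓝 (fderiv ℂ (fun ξ => A.ch j ((A.ch i).symm ξ)) (A.ch i (f z))
          (D z + b • deriv (A.loc i f) z))) := by
      refine h2.congr' ?_
      filter_upwards [hX.eventually_mem ((A.ch i).open_source.mem_nhds hzs)] with n hn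
      simp [Cha.loc, (A.ch i).left_inv hn, (A.ch i).left_inv hzs]
    have hjt : A.loc j f z ∈ (A.ch j).target := (A.ch j).map_source hj
    have h4 := (ELOC.form_cont (F := F) hjt (fderiv ℂ (fun ξ => A.ch j ((A.ch i).symm ξ))
      (A.ch i (f z)) (D z + b • deriv (A.loc i f) z)) (deriv (A.loc j f) z)).tendsto.comp h3
    have h5 : F.T j (A.loc j f z) (fderiv ℂ (fun ξ => A.ch j ((A.ch i).symm ξ))
        (A.ch i (f z)) (D z + b • deriv (A.loc i f) z)) (deriv (A.loc j f) z) =
        F.T i (A.loc i f z) (D z) (deriv (A.loc i f) z) := by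
      rw [ELOC.deriv_change hfz hzs hj]
      have h6 := F.compat i j (f z) hzs hj (D z + b • deriv (A.loc i f) z) (deriv (A.loc i f) z)
      change F.T i (A.loc i f z) _ _ = F.T j (A.loc j f z) _ _ at h6
      rw [← h6, ELOC.form_shear hzt]
    rw [h5] at h4
    exact h4

theorem sig_unique_pr (hB : BLip A lam L) (F : A.Frm N k) {κ : Type} {U : Ultrafilter κ}
    {f : ℂ → X} {h : κ → ℂ → X} {m : κ → ℝ} (hS : Sit A M U f h m) {z : ℂ} (hz : NC A f z)
    {v v' : EuclideanSpace ℂ (Fin N)} (h1 : IsSig A F (U : Filter κ) f h m z v)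
    (h2 : IsSig A F (U : Filter κ) f h m z v') : v = v' := by
  obtain ⟨i, hi⟩ := A.cover (f z)
  have his : f z ∈ (A.ch i).source := A.W_sub i (subset_closure hi)
  obtain ⟨u, hu, hBu⟩ := exists_time hS hz (zs := fun _ => z) tendsto_const_nhds
  exact tendsto_nhds_unique (h1 i his u hu hBu) (h2 i his u hu hBu)

end sec

end Pool.Agent.CYL

namespace Pool.Agent.CYL
alias sig_local := sig_local_pr
alias sig_unique := sig_unique_pr
end Pool.Agent.CYL
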