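import Pool.Agent.Lib_helper66.CYL.Defs
import Pool.Agent.Lib_helper58.MBS.L.BLIM
import Pool.Agent.Lib_helper58.MBS.L.ETF
import Pool.Agent.Lib_helper58.MBS.L.EUEX

/-! # Cylinder theorem: ported block EPAR of MBS (quasi-minimal sets) -/

set_option autoImplicit false
set_option linter.unusedSectionVars false
set_option linter.unusedVariables false

open Filter Topology Metric Set

namespace Pool.Agent.CYL

open Pool.Agent.BR Pool.Agent.MBS

section sec

variable {E X : Type} [NormedAddCommGroup E] [NormedSpace ℂ E] [FiniteDimensional ℂ E]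
  [MetricSpace X] [CompactSpace X] {A : Cha E X} {C lam L : ℝ} {M : Set (ℂ → X)} {k N : ℕ}

/-- EPAR: the section is proportional to the forms -/
theorem sig_par_pr (hE : Module.finrank ℂ E = 2) (hB : BLip A lam L) (hM : QM A C M)
    (F : A.Frm N k) {κ : Type} {U : Ultrafilter κ} {f : ℂ → X} {h : κ → ℂ → X} {m : κ → ℝ}
    (hS : Sit A M U f h m) {z : ℂ} (hz : NC A f z) {v : EuclideanSpace ℂ (Fin N)}
    (h1 : IsSig A F (U : Filter κ) f h m z v) {e₁ e₂ : E} (he : LinearIndependent ℂ ![e₁, e₂])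
    (i : A.ι) (hi : f z ∈ (A.ch i).source) : ∃ c : ℂ, v = c • F.T i (A.loc i f z) e₁ e₂ := by
  obtain ⟨u, hu, B, hB'⟩ := exists_time hS hz (zs := fun _ => z) tendsto_const_nhds
  have hlim := h1 i hi u hu ⟨B, hB'⟩
  have hξ : A.loc i f z ∈ (A.ch i).target := (A.ch i).map_source hi
  have hcl : IsClosed ((Submodule.span ℂ {F.T i (A.loc i f z) e₁ e₂} :
      Submodule ℂ (EuclideanSpace ℂ (Fin N))) : Set (EuclideanSpace ℂ (Fin N))) :=
    Submodule.closed_of_finiteDimensional _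
  have hmem := hcl.mem_of_tendsto hlim (Eventually.of_forall fun n => by
    obtain ⟨c, hc⟩ := form_par hE F he i hξ
      (((m n : ℂ))⁻¹ • (A.loc i (h n) (u n) - A.loc i f z)) (deriv (A.loc i f) z)
    rw [hc]
    exact Submodule.smul_mem _ c (Submodule.mem_span_singleton_self _))
  obtain ⟨c, hc⟩ := Submodule.mem_span_singleton.1 hmem
  exact ⟨c, hc.symm⟩

/-- EBND: bound of the section at sample points -/
theorem sig_bound_pr (hB : BLip A lam L) (hM : QM A C M) (F : A.Frm N k) {θ ε : ℝ}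
    (hθ : 0 < θ) : ∃ B > 0, ∀ (κ : Type) (U : Ultrafilter κ) (f : ℂ → X) (h : κ → ℂ → X)
      (m : κ → ℝ), Sit A M U f h m → ∀ (z : ℂ) (K : ℝ), 0 ≤ K → Smp θ ε f z →
        (∀ᶠ n in (U : Filter κ), ∃ u, ‖u - z‖ ≤ ε ∧ dist (f z) (h n u) ≤ K * m n) →
          ∀ v, IsSig A F (U : Filter κ) f h m z v → ‖v‖ ≤ B * K ^ k := by
  obtain ⟨B₀, hB₀, hF⟩ := form_bound (A := A) F
  refine ⟨B₀ * (L * |C|) ^ k + 1, by have := hB.L_one; positivity, ?_⟩
  intro κ U f h m hS z K hK hz hMle v hv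
  have hL : 0 ≤ L := zero_le_one.trans hB.L_one
  obtain ⟨i, hi⟩ := hB.leb (f z)
  have hfi : f z ∈ A.W i := hi (mem_ball_self hB.lam_pos)
  have hfc : f z ∈ closure (A.W i) := subset_closure hfi
  have hfs : f z ∈ (A.ch i).source := A.W_sub i hfc
  have hfBF := hM.sub hS.f_mem
  -- the points
  have hex : ∀ n, ∃ u : ℂ, (∃ u, ‖u - z‖ ≤ ε ∧ dist (f z) (h n u) ≤ K * m n) →
      ‖u - z‖ ≤ ε ∧ dist (f z) (h n u) ≤ K * m n := by
    intro n
    by_cases hn : ∃ u, ‖u - z‖ ≤ ε ∧ dist (f z) (h n u) ≤ K * m n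
    · obtain ⟨u, hu⟩ := hn
      exact ⟨u, fun _ => hu⟩
    · exact ⟨0, fun h => absurd h hn⟩
  choose u hu using hex
  have hu' : ∀ᶠ n in (U : Filter κ), ‖u n - z‖ ≤ ε ∧ dist (f z) (h n (u n)) ≤ K * m n :=
    hMle.mono fun n hn => hu n hn
  have hKm : Tendsto (fun n => K * m n) (U : Filter κ) (𝓝 0) := by
    simpa using hS.m_lim.const_mul K
  have hut : Tendsto u (U : Filter κ) (𝓝 z) := by
    rw [Metric.tendsto_nhds]
    intro δ hδ
    have hη : 0 < θ * δ / 2 := by positivity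
    have h2 := bf_unif (F := (U : Filter κ)) (hS.h_mem.mono fun n hn => hM.sub hn) hfBF hS.lim
      (‖z‖ + ε) (θ * δ / 2) hη
    have h3 : ∀ᶠ n in (U : Filter κ), K * m n < θ * δ / 2 :=
      hKm.eventually (gt_mem_nhds hη)
    filter_upwards [hu', h2, h3] with n h4 h5 h6
    have h7 := hz (u n) h4.1
    have h8 : ‖u n‖ ≤ ‖z‖ + ε := by
      have h9 : u n = z + (u n - z) := by ring
      calc ‖u n‖ = ‖z + (u n - z)‖ := by rw [← h9]
        _ ≤ ‖z‖ + ‖u n - z‖ := norm_add_le _ _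
        _ ≤ ‖z‖ + ε := by linarith [h4.1]
    have h10 := h5 (u n) h8
    have h11 : dist (f z) (f (u n)) ≤ dist (f z) (h n (u n)) + dist (h n (u n)) (f (u n)) :=
      dist_triangle _ _ _
    have h12 : θ * ‖u n - z‖ < θ * δ := by linarith [h4.2]
    rw [dist_eq_norm]
    exact lt_of_mul_lt_mul_left h12 hθ.le
  have hlim := hv i hfs u hut ⟨K, hu'.mono fun n hn => hn.2⟩
  have hder : ‖deriv (A.loc i f) z‖ ≤ |C| := (hfBF.2 z i hfi).trans (le_abs_self C)
  have hlam : ∀ᶠ n in (U : Filter κ), K * m n < lam := hKm.eventually (gt_mem_nhds hB.lam_pos)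
  have hbd : ‖v‖ ≤ B₀ * (L * K * |C|) ^ k := by
    refine le_of_tendsto hlim.norm ?_
    filter_upwards [hu', hlam, hS.m_pos] with n h4 h5 h6
    have h7 := hF i (f z) hfc (((m n : ℂ))⁻¹ • (A.loc i (h n) (u n) - A.loc i f z))
      (deriv (A.loc i f) z)
    refine h7.trans ?_
    have h8 : h n (u n) ∈ ball (f z) lam := by
      rw [mem_ball, dist_comm]
      exact lt_of_le_of_lt h4.2 h5
    have h9 := hB.ch_le i (f z) hfc (h n (u n)) h8 (f z) (mem_ball_self hB.lam_pos)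
    have h10 : ‖((m n : ℂ))⁻¹ • (A.loc i (h n) (u n) - A.loc i f z)‖ ≤ L * K := by
      rw [norm_smul, norm_inv, Complex.norm_real, Real.norm_of_nonneg h6.le]
      have h11 : ‖A.loc i (h n) (u n) - A.loc i f z‖ ≤ L * (K * m n) := by
        refine h9.trans ?_
        rw [dist_comm]
        exact mul_le_mul_of_nonneg_left h4.2 hL
      calc (m n)⁻¹ * ‖A.loc i (h n) (u n) - A.loc i f z‖ ≤ (m n)⁻¹ * (L * (K * m n)) :=
            mul_le_mul_of_nonneg_left h11 (by positivity)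
        _ = L * K := by field_simp
    refine mul_le_mul_of_nonneg_left ?_ hB₀.le
    refine pow_le_pow_left₀ (by positivity) ?_ k
    exact mul_le_mul h10 hder (norm_nonneg _) (by positivity)
  refine hbd.trans ?_
  have h13 : B₀ * (L * K * |C|) ^ k = B₀ * (L * |C|) ^ k * K ^ k := by
    rw [mul_assoc B₀, ← mul_pow]
    congr 2
    ring
  rw [h13]
  refine mul_le_mul_of_nonneg_right (by linarith) (by positivity)

end sec


end Pool.Agent.CYL

namespace Pool.Agent.CYL
alias sig_par := sig_par_pr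
alias sig_bound := sig_bound_pr
end Pool.Agent.CYL
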