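import Pool.Agent.Lib_helper66.CYL.Defs
import Pool.Agent.Lib_helper58.MBS.L.BNC
import Pool.Agent.Lib_helper66.CYL.P.ECRI
import Pool.Agent.Lib_helper66.CYL.P.ELOC
import Pool.Agent.Lib_helper66.CYL.P.EPAR

/-! # Cylinder theorem: ported block EENT of MBS (quasi-minimal sets) -/

set_option autoImplicit false
set_option linter.unusedSectionVars false
set_option linter.unusedVariables false

open Filter Topology Metric Set

namespace Pool.Agent.CYL

open Pool.Agent.BR Pool.Agent.MBS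

section sec

variable {E X : Type} [NormedAddCommGroup E] [NormedSpace ℂ E] [FiniteDimensional ℂ E]
  [MetricSpace X] [CompactSpace X] {A : Cha E X} {C lam L : ℝ} {M : Set (ℂ → X)} {k N : ℕ}

open Classical in
/-- the section at the noncritical points -/
noncomputable def eent_s0 (A : Cha E X) (F : A.Frm N k) {κ : Type} (U : Ultrafilter κ)
    (f : ℂ → X) (h : κ → ℂ → X) (m : κ → ℝ) (z : ℂ) : EuclideanSpace ℂ (Fin N) :=
  if hz : ∃ v, IsSig A F (U : Filter κ) f h m z v then hz.choose else 0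

open Classical in
/-- the section -/
noncomputable def eent_s (A : Cha E X) (F : A.Frm N k) {κ : Type} (U : Ultrafilter κ)
    (f : ℂ → X) (h : κ → ℂ → X) (m : κ → ℝ) (z : ℂ) : EuclideanSpace ℂ (Fin N) :=
  if NC A f z then eent_s0 A F U f h m z else limUnder (𝓝[≠] z) (eent_s0 A F U f h m)

theorem eent_spec (hE : Module.finrank ℂ E = 2) (hB : BLip A lam L) (hM : QM A C M)
    (F : A.Frm N k) {κ : Type} {U : Ultrafilter κ} {f : ℂ → X} {h : κ → ℂ → X} {m : κ → ℝ}
    (hS : Sit A M U f h m) {z : ℂ} (hz : NC A f z) :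
    IsSig A F (U : Filter κ) f h m z (eent_s0 A F U f h m z) := by
  obtain ⟨r, hr, s, hs⟩ := sig_local hE hB hM F hS hz
  have h1 : ∃ v, IsSig A F (U : Filter κ) f h m z v := ⟨s z, (hs z (mem_ball_self hr)).2⟩
  unfold eent_s0
  rw [dif_pos h1]
  exact h1.choose_spec

theorem eent_open (hM : QM A C M) {κ : Type} {U : Ultrafilter κ} {f : ℂ → X} {h : κ → ℂ → X}
    {m : κ → ℝ} (hS : Sit A M U f h m) (hfn : NCst f) : IsOpen {z | NC A f z} := by
  have h1 := (crit_countable (A := A) (f := f) (hM.sub hS.f_mem).1 hfn).1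
  have h2 : {z | NC A f z} = {z | ¬ NC A f z}ᶜ := by
    ext z
    simp
  rw [h2]
  exact h1.isOpen_compl

theorem eent_an (hE : Module.finrank ℂ E = 2) (hB : BLip A lam L) (hM : QM A C M)
    (F : A.Frm N k) {κ : Type} {U : Ultrafilter κ} {f : ℂ → X} {h : κ → ℂ → X} {m : κ → ℝ}
    (hS : Sit A M U f h m) (hfn : NCst f) {z : ℂ} (hz : NC A f z) :
    AnalyticAt ℂ (eent_s0 A F U f h m) z := by
  obtain ⟨r, hr, s, hs⟩ := sig_local hE hB hM F hS hz
  refine (hs z (mem_ball_self hr)).1.congr ?_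
  filter_upwards [ball_mem_nhds z hr, (eent_open hM hS hfn).mem_nhds hz] with w hw hw'
  exact sig_unique hB F hS hw' (hs w hw).2 (eent_spec hE hB hM F hS hw')

theorem eent_nc (hE : Module.finrank ℂ E = 2) (hB : BLip A lam L) (hM : QM A C M)
    (F : A.Frm N k) {κ : Type} {U : Ultrafilter κ} {f : ℂ → X} {h : κ → ℂ → X} {m : κ → ℝ}
    (hS : Sit A M U f h m) {z : ℂ} (hz : NC A f z) :
    IsSig A F (U : Filter κ) f h m z (eent_s A F U f h m z) := by
  unfold eent_s
  rw [if_pos hz]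
  exact eent_spec hE hB hM F hS hz

theorem eent_diff (hE : Module.finrank ℂ E = 2) (hB : BLip A lam L) (hM : QM A C M)
    (F : A.Frm N k) {κ : Type} {U : Ultrafilter κ} {f : ℂ → X} {h : κ → ℂ → X} {m : κ → ℝ}
    (hS : Sit A M U f h m) (hfn : NCst f) (hst : Stable A M f) :
    Differentiable ℂ (eent_s A F U f h m) := by
  intro z₀
  by_cases hz : NC A f z₀
  · have h1 := eent_an hE hB hM F hS hfn hz
    refine (h1.differentiableAt).congr_of_eventuallyEq ?_
    filter_upwards [(eent_open hM hS hfn).mem_nhds hz] with w hw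
    unfold eent_s
    rw [if_pos hw]
  · obtain ⟨r, hr, B, hcr⟩ := sig_crit hE hB hM F hS hfn hst hz
    have h1 : DifferentiableOn ℂ (Function.update (eent_s0 A F U f h m) z₀
        (limUnder (𝓝[≠] z₀) (eent_s0 A F U f h m))) (ball z₀ r) := by
      refine Complex.differentiableOn_update_limUnder_of_bddAbove (ball_mem_nhds z₀ hr) ?_ ?_
      · intro w hw
        have hw' : w ≠ z₀ := fun hh => hw.2 hh
        exact (eent_an hE hB hM F hS hfn (hcr w hw.1 hw').1).differentiableAt.differentiableWithinAt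
      · refine ⟨B, ?_⟩
        rintro _ ⟨w, hw, rfl⟩
        have hw' : w ≠ z₀ := fun hh => hw.2 hh
        have h2 := hcr w hw.1 hw'
        exact h2.2 _ (eent_spec hE hB hM F hS h2.1)
    have h2 := h1.differentiableAt (ball_mem_nhds z₀ hr)
    refine h2.congr_of_eventuallyEq ?_
    filter_upwards [ball_mem_nhds z₀ hr] with w hw
    by_cases hw' : w = z₀
    · subst hw'
      rw [Function.update_self]
      unfold eent_s
      rw [if_neg hz]
    · rw [Function.update_of_ne hw']
      unfold eent_s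
      rw [if_pos (hcr w hw hw').1]

theorem eent_cont {T S : ℂ → EuclideanSpace ℂ (Fin N)} {z : ℂ} (hT : ContinuousAt T z)
    (hS : ContinuousAt S z) : ContinuousAt (fun w => (inner ℂ (T w) (T w) : ℂ) • S w -
      (inner ℂ (T w) (S w) : ℂ) • T w) z := by
  have h1 : ContinuousAt (fun w => (inner ℂ (T w) (T w) : ℂ)) z := hT.inner (𝕜 := ℂ) hT
  have h2 : ContinuousAt (fun w => (inner ℂ (T w) (S w) : ℂ)) z := hT.inner (𝕜 := ℂ) hS
  exact (h1.smul hS).sub (h2.smul hT)

theorem eent_par (hE : Module.finrank ℂ E = 2) (hB : BLip A lam L) (hM : QM A C M)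
    (F : A.Frm N k) {κ : Type} {U : Ultrafilter κ} {f : ℂ → X} {h : κ → ℂ → X} {m : κ → ℝ}
    (hS : Sit A M U f h m) (hfn : NCst f) (hst : Stable A M f) {e₁ e₂ : E}
    (he : LinearIndependent ℂ ![e₁, e₂]) (z : ℂ) (i : A.ι) (hi : f z ∈ (A.ch i).source) :
    ∃ c : ℂ, eent_s A F U f h m z = c • F.T i (A.loc i f z) e₁ e₂ := by
  by_cases hz : NC A f z
  · exact sig_par hE hB hM F hS hz (eent_nc hE hB hM F hS hz) he i hi
  · obtain ⟨r, hr, B, hcr⟩ := sig_crit hE hB hM F hS hfn hst hz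
    have hf := (hM.sub hS.f_mem).1 z
    have hσc : ContinuousAt (eent_s A F U f h m) z :=
      (eent_diff hE hB hM F hS hfn hst z).continuousAt
    have hloc : ContinuousAt (A.loc i f) z := (hf.2 i hi).continuousAt
    have htg : A.loc i f z ∈ (A.ch i).target := (A.ch i).map_source hi
    have hTc : ContinuousAt (fun w => F.T i (A.loc i f w) e₁ e₂) z := by
      have h1 : ContinuousAt (fun p : E × E × E => F.T i p.1 p.2.1 p.2.2)
          (A.loc i f z, e₁, e₂) := ((F.tf i).hol _ htg e₁ e₂).continuousAt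
      have h2 : ContinuousAt (fun w => ((A.loc i f w, e₁, e₂) : E × E × E)) z :=
        hloc.prodMk (continuousAt_const.prodMk continuousAt_const)
      exact ContinuousAt.comp (f := fun w => ((A.loc i f w, e₁, e₂) : E × E × E)) (x := z) h1 h2
    have hne : F.T i (A.loc i f z) e₁ e₂ ≠ 0 := (F.tf i).ne _ htg e₁ e₂ he
    obtain ⟨T, hT⟩ : ∃ T : ℂ → EuclideanSpace ℂ (Fin N),
      T = fun w => F.T i (A.loc i f w) e₁ e₂ := ⟨_, rfl⟩
    rw [← hT] at hTc
    have hTz : T z ≠ 0 := by rw [hT]; exact hne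
    have hGc := eent_cont hTc hσc
    have hG0 : ∀ᶠ w in 𝓝[≠] z, (inner ℂ (T w) (T w)) • eent_s A F U f h m w -
        (inner ℂ (T w) (eent_s A F U f h m w)) • T w = 0 := by
      have h3 : ∀ᶠ w in 𝓝 z, f w ∈ (A.ch i).source :=
        hf.1.eventually_mem ((A.ch i).open_source.mem_nhds hi)
      filter_upwards [self_mem_nhdsWithin, nhdsWithin_le_nhds (ball_mem_nhds z hr),
        nhdsWithin_le_nhds h3] with w hw hw' hw3
      have hnc := (hcr w hw' hw).1
      obtain ⟨c, hc⟩ := sig_par hE hB hM F hS hnc (eent_nc hE hB hM F hS hnc) he i hw3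
      have hc' : eent_s A F U f h m w = c • T w := by rw [hc, hT]
      rw [hc', inner_smul_right, smul_smul, mul_comm, sub_self]
    have hGz : (inner ℂ (T z) (T z)) • eent_s A F U f h m z -
        (inner ℂ (T z) (eent_s A F U f h m z)) • T z = 0 := by
      have h4 := hGc.tendsto.mono_left (nhdsWithin_le_nhds (s := {z}ᶜ))
      have h5 : Tendsto (fun w => (inner ℂ (T w) (T w)) • eent_s A F U f h m w -
        (inner ℂ (T w) (eent_s A F U f h m w)) • T w) (𝓝[≠] z) (𝓝 0) :=
        tendsto_const_nhds.congr' (hG0.mono fun w hw => hw.symm)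
      exact tendsto_nhds_unique h4 h5
    have hinn : (inner ℂ (T z) (T z) : ℂ) ≠ 0 := inner_self_ne_zero.2 hTz
    refine ⟨(inner ℂ (T z) (T z) : ℂ)⁻¹ * inner ℂ (T z) (eent_s A F U f h m z), ?_⟩
    have h6 : (inner ℂ (T z) (T z)) • eent_s A F U f h m z =
        (inner ℂ (T z) (eent_s A F U f h m z)) • T z := sub_eq_zero.1 hGz
    have h7 : eent_s A F U f h m z = (inner ℂ (T z) (T z) : ℂ)⁻¹ •
        ((inner ℂ (T z) (T z)) • eent_s A F U f h m z) := by
      rw [smul_smul, inv_mul_cancel₀ hinn, one_smul]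
    rw [h6, smul_smul] at h7
    have h8 : T z = F.T i (A.loc i f z) e₁ e₂ := by rw [hT]
    rw [← h8]
    exact h7

/-- EENT: the section extends to an entire function -/
theorem sig_entire_pr (hE : Module.finrank ℂ E = 2) (hB : BLip A lam L) (hM : QM A C M)
    (F : A.Frm N k) {κ : Type} {U : Ultrafilter κ} {f : ℂ → X} {h : κ → ℂ → X} {m : κ → ℝ}
    (hS : Sit A M U f h m) (hfn : NCst f) (hst : Stable A M f) :
    ∃ σ : ℂ → EuclideanSpace ℂ (Fin N), Differentiable ℂ σ ∧
      (∀ z, NC A f z → IsSig A F (U : Filter κ) f h m z (σ z)) ∧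
      ∀ e₁ e₂ : E, LinearIndependent ℂ ![e₁, e₂] → ∀ z i, f z ∈ (A.ch i).source →
        ∃ c : ℂ, σ z = c • F.T i (A.loc i f z) e₁ e₂ :=
  ⟨eent_s A F U f h m, eent_diff hE hB hM F hS hfn hst,
    fun z hz => eent_nc hE hB hM F hS hz,
    fun e₁ e₂ he z i hi => eent_par hE hB hM F hS hfn hst he z i hi⟩

end sec

end Pool.Agent.CYL

namespace Pool.Agent.CYL
alias sig_entire := sig_entire_pr
end Pool.Agent.CYL
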