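import Pool.Agent.Lib_helper66.CYL.Defs
import Pool.Agent.Lib_helper66.CYL.P.BVIS

/-! # Cylinder theorem: ported block FCOV of MBS (quasi-minimal sets) -/

set_option autoImplicit false
set_option linter.unusedSectionVars false
set_option linter.unusedVariables false

open Filter Topology Metric Set

namespace Pool.Agent.CYL

open Pool.Agent.BR Pool.Agent.MBS

section fin

variable {E X : Type} [NormedAddCommGroup E] [NormedSpace ℂ E] [FiniteDimensional ℂ E]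
  [MetricSpace X] [CompactSpace X] {A : Cha E X} {C lam L : ℝ} {M : Set (ℂ → X)} {k : ℕ}

/-- FCOV: the values at `0` of the members of a compact set are taken in one disc -/
theorem cover_compact_pr (hM : QM A C M)
    (h : ∀ f ∈ M, NCst f → ∃ V ∈ 𝓝[M] f, ∀ g ∈ V, ∀ h ∈ V, ∃ u, ‖u‖ ≤ 1 ∧ g 0 = h u)
    {K : Set (ℂ → X)} (hK : IsCompact K) (hKM : K ⊆ M) (hKn : ∀ g ∈ K, NCst g) {g : ℂ → X}
    (hg : g ∈ M) (hgn : NCst g) : ∃ R : ℝ, ∀ h ∈ K, ∃ u : ℂ, ‖u‖ ≤ R ∧ h 0 = g u := by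
  refine hK.induction_on
    (p := fun s => ∃ R : ℝ, ∀ h ∈ s, ∃ u : ℂ, ‖u‖ ≤ R ∧ h 0 = g u)
    ⟨0, fun z hz => absurd hz (notMem_empty _)⟩ ?_ ?_ ?_
  · rintro s t hst ⟨R, hR⟩
    exact ⟨R, fun z hz => hR z (hst hz)⟩
  · rintro s t ⟨R, hR⟩ ⟨R', hR'⟩
    refine ⟨max R R', fun z hz => ?_⟩
    rcases hz with hz | hz
    · obtain ⟨u, hu, hu'⟩ := hR z hz
      exact ⟨u, hu.trans (le_max_left _ _), hu'⟩
    · obtain ⟨u, hu, hu'⟩ := hR' z hz
      exact ⟨u, hu.trans (le_max_right _ _), hu'⟩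
  · intro f hf
    obtain ⟨V, hV, hVf⟩ := h f (hKM hf) (hKn f hf)
    obtain ⟨w, hw⟩ := min_visit hM hg hgn (hKM hf) hV
    refine ⟨V, nhdsWithin_mono f hKM hV, 1 + ‖w‖, fun h' hh' => ?_⟩
    obtain ⟨u, hu, hu'⟩ := hVf _ hh' _ hw
    refine ⟨u + w, (norm_add_le _ _).trans (by linarith), ?_⟩
    rw [hu']
    rfl

end fin

end Pool.Agent.CYL

namespace Pool.Agent.CYL
alias cover_compact := cover_compact_pr
end Pool.Agent.CYL
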