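import Pool.Agent.Lib_helper66.CYL.Defs
import Pool.Agent.Lib_helper58.MBS.L.BCHT
import Pool.Agent.Lib_helper58.MBS.L.BJET
import Pool.Agent.Lib_helper58.MBS.L.BLIM
import Pool.Agent.Lib_helper58.MBS.L.BSMP
import Pool.Agent.Lib_helper66.CYL.P.ELIM
import Pool.Agent.Lib_helper58.MBS.L.EUEX

/-! # Cylinder theorem: ported block ENZE of MBS (quasi-minimal sets) -/

set_option autoImplicit false
set_option linter.unusedSectionVars false
set_option linter.unusedVariables false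

open Filter Topology Metric Set

namespace Pool.Agent.CYL

open Pool.Agent.BR Pool.Agent.MBS

section sec

variable {E X : Type} [NormedAddCommGroup E] [NormedSpace ℂ E] [FiniteDimensional ℂ E]
  [MetricSpace X] [CompactSpace X] {A : Cha E X} {C lam L : ℝ} {M : Set (ℂ → X)} {k N : ℕ}

/-- the difference quotients of converging curves -/
theorem enze_quot (hM : QM A C M) {κ : Type} {U : Filter κ} {f : ℂ → X} (hf : f ∈ M)
    {h : κ → ℂ → X} (hh : ∀ᶠ n in U, h n ∈ M) (hlim : Tendsto h U (𝓝 f)) {m : κ → ℝ}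
    (hm : ∀ᶠ n in U, 0 < m n) (hm0 : Tendsto m U (𝓝 0)) {z : ℂ} {i : A.ι}
    (hi : f z ∈ (A.ch i).source) {u : κ → ℂ} (hu : Tendsto u U (𝓝 z)) (b : ℂ) :
    Tendsto (fun n => ((m n : ℂ))⁻¹ • (A.loc i (h n) (u n - b * m n) - A.loc i (h n) (u n))) U
      (𝓝 (- (b • deriv (A.loc i f) z))) := by
  have hfBF := hM.sub hf
  have hhBF : ∀ᶠ n in U, h n ∈ BF A C := hh.mono fun n hn => hM.sub hn
  obtain ⟨r, hr, hr1, hr2, -⟩ := bf_chart hhBF hfBF hlim z i hi
  have hmc : Tendsto (fun n => (m n : ℂ)) U (𝓝 0) := by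
    have h0 := (Complex.continuous_ofReal.tendsto (0 : ℝ)).comp hm0
    rw [Complex.ofReal_zero] at h0
    exact h0
  have hu' : Tendsto (fun n => u n - b * m n) U (𝓝 z) := by
    simpa using hu.sub (hmc.const_mul b)
  -- derivatives on the product
  have hj := bf_jet (F := U ×ˢ 𝓝 z) (g := fun p : κ × ℂ => h p.1) (f := f)
    (tendsto_fst.eventually hhBF) hfBF (hlim.comp tendsto_fst) (z := fun p : κ × ℂ => p.2)
    (z₀ := z) tendsto_snd i hi 1
  simp only [iteratedDeriv_one] at hj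
  rw [tendsto_iff_norm_sub_tendsto_zero]
  rw [Metric.tendsto_nhds]
  intro η hη
  have hη' : 0 < η / (‖b‖ + 1) / 2 := by positivity
  have hj1 : ∀ᶠ p : κ × ℂ in U ×ˢ 𝓝 z,
      ‖deriv (A.loc i (h p.1)) p.2 - deriv (A.loc i f) z‖ < η / (‖b‖ + 1) / 2 := by
    have := (Metric.tendsto_nhds.1 hj) _ hη'
    simpa [dist_eq_norm] using this
  obtain ⟨pa, hpa, pb, hpb, hab⟩ := eventually_prod_iff.1 hj1
  obtain ⟨ρ, hρ, hρb⟩ := Metric.eventually_nhds_iff_ball.1 hpb
  set ρ' := min ρ r with hρ'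
  have hρ'0 : 0 < ρ' := lt_min hρ hr
  have hu1 : ∀ᶠ n in U, u n ∈ ball z ρ' := hu.eventually (ball_mem_nhds z hρ'0)
  have hu2 : ∀ᶠ n in U, u n - b * m n ∈ ball z ρ' := hu'.eventually (ball_mem_nhds z hρ'0)
  filter_upwards [hpa, hr2, hu1, hu2, hm] with n h1 h2 h3 h4 h5
  have hmn : (m n : ℂ) ≠ 0 := by exact_mod_cast h5.ne'
  have hd : ∀ w ∈ ball z ρ', DifferentiableAt ℂ
      (fun w => A.loc i (h n) w - w • deriv (A.loc i f) z) w := by
    intro w hw
    have h6 := (h2 w (ball_subset_ball (min_le_right _ _) hw)).2.differentiableAt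
    exact h6.sub (differentiableAt_id.smul_const _)
  have hbd : ∀ w ∈ ball z ρ', ‖deriv (fun w => A.loc i (h n) w - w • deriv (A.loc i f) z) w‖ ≤
      η / (‖b‖ + 1) / 2 := by
    intro w hw
    have h6 := (h2 w (ball_subset_ball (min_le_right _ _) hw)).2.differentiableAt
    have h7 : HasDerivAt (fun w => A.loc i (h n) w - w • deriv (A.loc i f) z)
        (deriv (A.loc i (h n)) w - (1 : ℂ) • deriv (A.loc i f) z) w :=
      h6.hasDerivAt.sub ((hasDerivAt_id w).smul_const _)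
    rw [h7.deriv, one_smul]
    exact (hab h1 (hρb w (ball_subset_ball (min_le_left _ _) hw))).le
  have h8 := (convex_ball z ρ').norm_image_sub_le_of_norm_deriv_le hd hbd h3 h4
  have h9 : ((m n : ℂ))⁻¹ • (A.loc i (h n) (u n - b * m n) - A.loc i (h n) (u n)) -
      -(b • deriv (A.loc i f) z) = ((m n : ℂ))⁻¹ •
        ((A.loc i (h n) (u n - b * m n) - (u n - b * m n) • deriv (A.loc i f) z) -
          (A.loc i (h n) (u n) - u n • deriv (A.loc i f) z)) := by
    have h10 : b • deriv (A.loc i f) z = ((m n : ℂ))⁻¹ • ((b * m n) • deriv (A.loc i f) z) := by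
      rw [smul_smul]
      congr 1
      field_simp
    rw [h10, sub_smul]
    simp only [smul_sub]
    abel
  have h11 : ‖u n - b * m n - u n‖ = ‖b‖ * m n := by
    rw [show u n - b * m n - u n = -(b * m n) by ring, norm_neg, norm_mul, Complex.norm_real,
      Real.norm_of_nonneg h5.le]
  rw [dist_zero_right, norm_norm, h9, norm_smul, norm_inv, Complex.norm_real,
    Real.norm_of_nonneg h5.le]
  rw [h11] at h8
  have hb1 : 0 < ‖b‖ + 1 := by positivity
  calc (m n)⁻¹ * _ ≤ (m n)⁻¹ * (η / (‖b‖ + 1) / 2 * (‖b‖ * m n)) :=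
        mul_le_mul_of_nonneg_left h8 (by positivity)
    _ = η / 2 * (‖b‖ / (‖b‖ + 1)) := by field_simp
    _ ≤ η / 2 * 1 := by
        refine mul_le_mul_of_nonneg_left ?_ (by positivity)
        rw [div_le_one hb1]
        linarith
    _ < η := by linarith

/-- lower bound of a form on pairs of vectors at distance `≥ 1` modulo multiples, over a compact
set -/
theorem enze_form {O : Set E} {T : E → E → E → EuclideanSpace ℂ (Fin N)} (hT : TForm O N k T)
    {Q : Set E} (hQ : IsCompact Q) (hQO : Q ⊆ O) :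
    ∃ c > 0, ∀ x ∈ Q, ∀ u v : E, ∀ d : ℝ, 0 < d → v ≠ 0 → (∀ b : ℂ, d ≤ ‖u + b • v‖) →
      c * (d * ‖v‖) ^ k ≤ ‖T x u v‖ := by
  -- the compact set of normalised pairs
  obtain ⟨P, hP⟩ : ∃ P : Set (E × E × E), P = {p | p.1 ∈ Q ∧ ‖p.2.1‖ = 1 ∧ ‖p.2.2‖ = 1 ∧
    ∀ b : ℂ, 1 ≤ ‖p.2.1 + b • p.2.2‖} := ⟨_, rfl⟩
  have hPc : IsCompact P := by
    have h1 : IsCompact (Q ×ˢ (sphere (0 : E) 1 ×ˢ sphere (0 : E) 1)) :=
      hQ.prod ((isCompact_sphere 0 1).prod (isCompact_sphere 0 1))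
    refine h1.of_isClosed_subset ?_ ?_
    · have h2 : P = (Q ×ˢ (sphere (0 : E) 1 ×ˢ sphere (0 : E) 1)) ∩
          ⋂ b : ℂ, {p : E × E × E | 1 ≤ ‖p.2.1 + b • p.2.2‖} := by
        rw [hP]
        ext p
        simp only [mem_ofPred_eq, mem_inter_iff, mem_prod, mem_sphere_zero_iff_norm, mem_iInter]
        tauto
      rw [h2]
      refine (hQ.isClosed.prod (isClosed_sphere.prod isClosed_sphere)).inter
        (isClosed_iInter fun b => ?_)
      exact isClosed_le continuous_const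
        ((continuous_fst.comp continuous_snd).add
          ((continuous_snd.comp continuous_snd).const_smul b)).norm
    · intro p hp
      rw [hP] at hp
      obtain ⟨h3, h4, h5, -⟩ := hp
      exact ⟨h3, mem_sphere_zero_iff_norm.2 h4, mem_sphere_zero_iff_norm.2 h5⟩
  have hcont : ContinuousOn (fun p : E × E × E => ‖T p.1 p.2.1 p.2.2‖) P := by
    intro p hp
    rw [hP] at hp
    exact (hT.hol p.1 (hQO hp.1) p.2.1 p.2.2).continuousAt.norm.continuousWithinAt
  have hpos : ∀ p ∈ P, 0 < ‖T p.1 p.2.1 p.2.2‖ := by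
    intro p hp
    rw [hP] at hp
    obtain ⟨h3, h4, h5, h6⟩ := hp
    rw [norm_pos_iff]
    refine hT.ne p.1 (hQO h3) p.2.1 p.2.2 ?_
    rw [LinearIndependent.pair_iff]
    intro s t hst
    have hs : s = 0 := by
      by_contra hs
      have h7 := h6 (s⁻¹ * t)
      have h8 : p.2.1 + (s⁻¹ * t) • p.2.2 = s⁻¹ • (s • p.2.1 + t • p.2.2) := by
        rw [smul_add, smul_smul, inv_mul_cancel₀ hs, one_smul, smul_smul]
      rw [h8, hst, smul_zero, norm_zero] at h7
      linarith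
    refine ⟨hs, ?_⟩
    rw [hs, zero_smul, zero_add] at hst
    rcases smul_eq_zero.1 hst with h7 | h7
    · exact h7
    · rw [h7, norm_zero] at h5
      linarith
  obtain ⟨c, hc, hcP⟩ : ∃ c > 0, ∀ p ∈ P, c ≤ ‖T p.1 p.2.1 p.2.2‖ := by
    rcases P.eq_empty_or_nonempty with h | h
    · exact ⟨1, one_pos, fun p hp => by rw [h] at hp; exact absurd hp (notMem_empty _)⟩
    · obtain ⟨p, hp, hmin⟩ := hPc.exists_isMinOn h hcont
      exact ⟨_, hpos p hp, fun q hq => hmin hq⟩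
  refine ⟨c, hc, fun x hx u v d hd hv hb => ?_⟩
  have hv0 : 0 < ‖v‖ := norm_pos_iff.2 hv
  -- the nearest multiple
  obtain ⟨b, hbmin⟩ : ∃ b : ℂ, ∀ b' : ℂ, ‖u + b • v‖ ≤ ‖u + b' • v‖ := by
    have h1 : Continuous fun b : ℂ => ‖u + b • v‖ :=
      (continuous_const.add (continuous_id.smul continuous_const)).norm
    have h2 : Tendsto (fun b : ℂ => ‖u + b • v‖) (cocompact ℂ) atTop := by
      have h3 : Tendsto (fun b : ℂ => ‖b‖ * ‖v‖ - ‖u‖) (cocompact ℂ) atTop :=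
        tendsto_atTop_add_const_right _ _ (tendsto_norm_cocompact_atTop.atTop_mul_const hv0)
      refine tendsto_atTop_mono (fun b => ?_) h3
      have h4 : ‖b • v‖ ≤ ‖u + b • v‖ + ‖u‖ := by
        have := norm_sub_le (u + b • v) u
        rwa [add_sub_cancel_left] at this
      rw [norm_smul] at h4
      linarith
    exact h1.exists_forall_le h2
  obtain ⟨w, hw⟩ : ∃ w, w = u + b • v := ⟨_, rfl⟩
  have hwd : d ≤ ‖w‖ := by rw [hw]; exact hb b
  have hw0 : 0 < ‖w‖ := hd.trans_le hwd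
  have hwc : (‖w‖ : ℂ) ≠ 0 := by exact_mod_cast hw0.ne'
  have hvc : (‖v‖ : ℂ) ≠ 0 := by exact_mod_cast hv0.ne'
  have e1 := hT.equi x (hQO hx) 1 b 0 1 u v
  rw [one_smul, zero_smul, zero_add, one_smul, ← hw] at e1
  have e1' : T x w v = T x u v := by
    rw [e1]
    simp
  have e2 := hT.equi x (hQO hx) (‖w‖ : ℂ) 0 0 (‖v‖ : ℂ) ((‖w‖ : ℂ)⁻¹ • w) ((‖v‖ : ℂ)⁻¹ • v)
  rw [zero_smul, add_zero, zero_smul, zero_add, smul_smul, smul_smul, mul_inv_cancel₀ hwc,
    mul_inv_cancel₀ hvc, one_smul, one_smul, mul_zero, sub_zero] at e2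
  have hmem : (x, (‖w‖ : ℂ)⁻¹ • w, (‖v‖ : ℂ)⁻¹ • v) ∈ P := by
    rw [hP]
    refine ⟨hx, ?_, ?_, fun b' => ?_⟩
    · simp only
      rw [norm_smul, norm_inv, Complex.norm_real, norm_norm, inv_mul_cancel₀ hw0.ne']
    · simp only
      rw [norm_smul, norm_inv, Complex.norm_real, norm_norm, inv_mul_cancel₀ hv0.ne']
    · simp only
      have h5 : (‖w‖ : ℂ)⁻¹ • w + b' • (‖v‖ : ℂ)⁻¹ • v =
          (‖w‖ : ℂ)⁻¹ • (u + (b + ‖w‖ * b' * (‖v‖ : ℂ)⁻¹) • v) := by
        have ha : (‖w‖ : ℂ)⁻¹ * ‖w‖ = 1 := inv_mul_cancel₀ hwc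
        have h7 : b' • (‖v‖ : ℂ)⁻¹ • v = ((‖w‖ : ℂ)⁻¹ * ‖w‖) • b' • (‖v‖ : ℂ)⁻¹ • v := by
          rw [ha, one_smul]
        rw [h7]
        generalize (‖w‖ : ℂ)⁻¹ = a
        generalize (‖w‖ : ℂ) = W
        rw [hw]
        module
      rw [h5, norm_smul, norm_inv, Complex.norm_real, norm_norm, ← div_eq_inv_mul,
        one_le_div hw0, hw]
      exact hbmin _
  have h6 := hcP _ hmem
  simp only at h6
  rw [← e1', e2, norm_smul, norm_pow, norm_mul, Complex.norm_real, Complex.norm_real, norm_norm,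
    norm_norm, mul_comm c]
  refine mul_le_mul ?_ h6 hc.le (by positivity)
  exact pow_le_pow_left₀ (by positivity) (mul_le_mul_of_nonneg_right hwd hv0.le) k

/-- lower bound for the derivative at a sample point -/
theorem enze_deriv (hB : BLip A lam L) {θ ε : ℝ} (hθ : 0 < θ) (hε : 0 < ε) {f : ℂ → X}
    (hf : ∀ z, A.HolAt f z) {z : ℂ} (h : Smp θ ε f z) {i : A.ι} (hi : f z ∈ A.W i) :
    θ / L ≤ ‖deriv (A.loc i f) z‖ := by
  have hL : 0 < L := lt_of_lt_of_le one_pos hB.L_one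
  have hc : f z ∈ closure (A.W i) := subset_closure hi
  have hs : f z ∈ (A.ch i).source := A.W_sub i hc
  have hd : HasDerivAt (A.loc i f) (deriv (A.loc i f) z) z :=
    ((hf z).2 i hs).differentiableAt.hasDerivAt
  have h1 : Tendsto (fun u => ‖slope (A.loc i f) z u‖) (𝓝[≠] z) (𝓝 ‖deriv (A.loc i f) z‖) :=
    (hasDerivAt_iff_tendsto_slope.1 hd).norm
  refine ge_of_tendsto h1 ?_
  have h2 : ∀ᶠ u in 𝓝 z, f u ∈ ball (f z) lam :=
    (hf z).1.eventually (ball_mem_nhds (f z) hB.lam_pos)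
  have h3 : ∀ᶠ u in 𝓝 z, ‖u - z‖ ≤ ε := by
    filter_upwards [closedBall_mem_nhds z hε] with u hu
    rwa [mem_closedBall_iff_norm] at hu
  filter_upwards [self_mem_nhdsWithin, nhdsWithin_le_nhds h2, nhdsWithin_le_nhds h3]
    with u hu1 hu2 hu3
  have h4 := h u hu3
  have h5 := hB.le_ch i (f z) hc (f z) (mem_ball_self hB.lam_pos) (f u) hu2
  have h6 : 0 < ‖u - z‖ := norm_pos_iff.2 (sub_ne_zero.2 hu1)
  rw [slope_def_module, norm_smul, norm_inv, ← div_eq_inv_mul, div_le_div_iff₀ hL h6]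
  have h7 : ‖A.loc i f u - A.loc i f z‖ = ‖A.ch i (f z) - A.ch i (f u)‖ := by
    rw [norm_sub_rev]
    rfl
  rw [h7]
  linarith

/-- E1: lower bound of the section where the displacement is attained -/
theorem sig_low_pr (hE : Module.finrank ℂ E = 2) (hB : BLip A lam L) (hM : QM A C M)
    (F : A.Frm N k) {θ ε : ℝ} (hθ : 0 < θ) (hε : 0 < ε) :
    ∃ c > 0, ∀ (κ : Type) (U : Ultrafilter κ) (f : ℂ → X) (h : κ → ℂ → X) (m : κ → ℝ),
      Sit A M U f h m → ∀ (K : ℝ), 0 < K → ∀ (z₀ : ℂ) (ζ : κ → ℂ),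
        (∀ᶠ n in (U : Filter κ), ‖ζ n - z₀‖ ≤ 2 ∧ Smp θ ε f (ζ n) ∧
          ∀ u, ‖u - ζ n‖ ≤ ε → K * m n ≤ dist (f (ζ n)) (h n u)) →
        ∃ z, ‖z - z₀‖ ≤ 2 ∧ Smp θ ε f z ∧
          ∀ v, IsSig A F (U : Filter κ) f h m z v → c * K ^ k ≤ ‖v‖ := by
  have hL : 0 < L := lt_of_lt_of_le one_pos hB.L_one
  -- the constant of the forms
  obtain ⟨c, hc, hcF⟩ : ∃ c > 0, ∀ i, ∀ x ∈ closure (A.W i), ∀ u v : E, ∀ d : ℝ, 0 < d → v ≠ 0 →
      (∀ b : ℂ, d ≤ ‖u + b • v‖) → c * (d * ‖v‖) ^ k ≤ ‖F.T i (A.ch i x) u v‖ := by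
    have h1 : ∀ i : A.ι, ∃ c > 0, ∀ x ∈ A.ch i '' closure (A.W i), ∀ u v : E, ∀ d : ℝ, 0 < d →
        v ≠ 0 → (∀ b : ℂ, d ≤ ‖u + b • v‖) → c * (d * ‖v‖) ^ k ≤ ‖F.T i x u v‖ := by
      intro i
      have hK1 : IsCompact (A.ch i '' closure (A.W i)) :=
        (isClosed_closure.isCompact).image_of_continuousOn
          ((A.ch i).continuousOn.mono (A.W_sub i))
      have hK2 : A.ch i '' closure (A.W i) ⊆ (A.ch i).target := by
        rintro _ ⟨x, hx, rfl⟩
        exact (A.ch i).map_source (A.W_sub i hx)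
      exact enze_form (F.tf i) hK1 hK2
    choose c hc h2 using h1
    have hfin : Finite A.ι := A.fin
    by_cases hne : Nonempty A.ι
    · obtain ⟨j, hj⟩ := Finite.exists_min c
      refine ⟨c j, hc j, fun i x hx u v d hd hv hb => ?_⟩
      refine le_trans ?_ (h2 i _ ⟨x, hx, rfl⟩ u v d hd hv hb)
      exact mul_le_mul_of_nonneg_right (hj i) (by positivity)
    · exact ⟨1, one_pos, fun i => absurd ⟨i⟩ hne⟩
  refine ⟨c * (θ / L / L) ^ k, by positivity, ?_⟩
  intro κ U f h m hS K hK z₀ ζ hζ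
  have hfBF := hM.sub hS.f_mem
  have hhBF : ∀ᶠ n in (U : Filter κ), h n ∈ BF A C := hS.h_mem.mono fun n hn => hM.sub hn
  -- the limit point
  obtain ⟨z, hz2, hζz⟩ : ∃ z : ℂ, ‖z - z₀‖ ≤ 2 ∧ Tendsto ζ (U : Filter κ) (𝓝 z) := by
    have h1 : ((U.map ζ : Ultrafilter ℂ) : Filter ℂ) ≤ 𝓟 (closedBall z₀ 2) := by
      rw [Filter.le_principal_iff]
      have : ∀ᶠ n in (U : Filter κ), ζ n ∈ closedBall z₀ 2 :=
        hζ.mono fun n hn => by rw [mem_closedBall_iff_norm]; exact hn.1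
      exact this
    obtain ⟨z, hz, hz'⟩ := (isCompact_closedBall z₀ 2).ultrafilter_le_nhds _ h1
    exact ⟨z, by rwa [mem_closedBall_iff_norm] at hz, hz'⟩
  have hzS : Smp θ ε f z := smp_lim (F := (U : Filter κ)) (g := fun _ => f)
    (Eventually.of_forall fun _ => hfBF) hfBF tendsto_const_nhds hζz
    (hζ.mono fun n hn => hn.2.1)
  have hzN : NC A f z := smp_nc hB hθ hε hfBF.1 hzS
  refine ⟨z, hz2, hzS, fun v hv => ?_⟩
  obtain ⟨i, hi⟩ := hB.leb (f z)
  have hfi : f z ∈ A.W i := hi (mem_ball_self hB.lam_pos)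
  have hfc : f z ∈ closure (A.W i) := subset_closure hfi
  have hfs : f z ∈ (A.ch i).source := A.W_sub i hfc
  have hd := hzN i hfs
  obtain ⟨l, hl⟩ : ∃ l : E →L[ℂ] ℂ, l (deriv (A.loc i f) z) ≠ 0 :=
    SeparatingDual.exists_ne_zero hd
  obtain ⟨r, hr, D, hD1, hD2⟩ := disp_lim hE hB hM hS hzN hfi l hl
  have hzr : z ∈ ball z r := mem_ball_self hr
  -- the displacement vectors are large
  have hDz : ∀ b : ℂ, K / L ≤ ‖D z + b • deriv (A.loc i f) z‖ := by
    intro b'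
    by_contra hlt
    push Not at hlt
    obtain ⟨u, hu, B, hu'⟩ := exists_time hS hzN hζz
    obtain ⟨b, hb⟩ := hD2 z hzr ζ u hζz hu ⟨B, hu'⟩
    have hq := enze_quot hM hS.f_mem hS.h_mem hS.lim hS.m_pos hS.m_lim hfs hu (b - b')
    have hsum := hb.add hq
    have hlimv : D z + b • deriv (A.loc i f) z + -((b - b') • deriv (A.loc i f) z) =
        D z + b' • deriv (A.loc i f) z := by
      rw [sub_smul]
      abel
    rw [hlimv] at hsum
    have hsum' : Tendsto (fun n => ((m n : ℂ))⁻¹ • (A.loc i (h n) (u n - (b - b') * m n) -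
        A.loc i f (ζ n))) (U : Filter κ) (𝓝 (D z + b' • deriv (A.loc i f) z)) := by
      refine hsum.congr fun n => ?_
      rw [← smul_add]
      congr 1
      abel
    have hmc : Tendsto (fun n => (m n : ℂ)) (U : Filter κ) (𝓝 0) := by
      have h0 := (Complex.continuous_ofReal.tendsto (0 : ℝ)).comp hS.m_lim
      rw [Complex.ofReal_zero] at h0
      exact h0
    have hu2 : Tendsto (fun n => u n - (b - b') * m n) (U : Filter κ) (𝓝 z) := by
      simpa using hu.sub (hmc.const_mul (b - b'))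
    have h3 : ∀ᶠ n in (U : Filter κ), ‖((m n : ℂ))⁻¹ • (A.loc i (h n) (u n - (b - b') * m n) -
        A.loc i f (ζ n))‖ < K / L :=
      hsum'.norm.eventually (gt_mem_nhds hlt)
    have h4 : ∀ᶠ n in (U : Filter κ), ‖(u n - (b - b') * m n) - ζ n‖ < ε := by
      have := (hu2.sub hζz).norm
      rw [sub_self, norm_zero] at this
      exact this.eventually (gt_mem_nhds hε)
    have h5 : ∀ᶠ n in (U : Filter κ), f (ζ n) ∈ ball (f z) lam :=
      ((hfBF.1 z).1.tendsto.comp hζz).eventually (ball_mem_nhds _ hB.lam_pos)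
    have h6 : ∀ᶠ n in (U : Filter κ), h n (u n - (b - b') * m n) ∈ ball (f z) lam :=
      (bf_eval hhBF hfBF hS.lim hu2).eventually (ball_mem_nhds _ hB.lam_pos)
    have hall := (((((hζ.and h3).and h4).and h5).and h6).and hS.m_pos)
    obtain ⟨n, ⟨⟨⟨⟨h7, h8⟩, h9⟩, h10⟩, h11⟩, h12⟩ := hall.exists
    have h13 := h7.2.2 (u n - (b - b') * m n) h9.le
    have h14 := hB.le_ch i (f z) hfc (f (ζ n)) h10 (h n (u n - (b - b') * m n)) h11
    rw [norm_smul, norm_inv, Complex.norm_real, Real.norm_of_nonneg h12.le] at h8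
    have h15 : ‖A.ch i (f (ζ n)) - A.ch i (h n (u n - (b - b') * m n))‖ < K * m n / L := by
      rw [norm_sub_rev]
      have h16 : (m n)⁻¹ * ‖A.ch i (h n (u n - (b - b') * m n)) - A.ch i (f (ζ n))‖ < K / L := h8
      rw [inv_mul_lt_iff₀ h12] at h16
      calc _ < m n * (K / L) := h16
        _ = K * m n / L := by ring
    have h17 : L * ‖A.ch i (f (ζ n)) - A.ch i (h n (u n - (b - b') * m n))‖ < K * m n := by
      calc _ < L * (K * m n / L) := mul_lt_mul_of_pos_left h15 hL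
        _ = K * m n := by field_simp
    linarith
  -- the value
  obtain ⟨u, hu, B, hu'⟩ := exists_time hS hzN (zs := fun _ => z) tendsto_const_nhds
  obtain ⟨b, hb⟩ := hD2 z hzr (fun _ => z) u tendsto_const_nhds hu ⟨B, hu'⟩
  have hv1 := hv i hfs u hu ⟨B, hu'⟩
  have hξ : A.loc i f z ∈ (A.ch i).target := (A.ch i).map_source hfs
  have hcont := ((F.tf i).hol (A.loc i f z) hξ (D z + b • deriv (A.loc i f) z)
    (deriv (A.loc i f) z)).continuousAt.tendsto
  have hpair : Tendsto (fun n => (A.loc i f z, ((m n : ℂ))⁻¹ • (A.loc i (h n) (u n) -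
      A.loc i f z), deriv (A.loc i f) z)) (U : Filter κ)
      (𝓝 (A.loc i f z, D z + b • deriv (A.loc i f) z, deriv (A.loc i f) z)) :=
    tendsto_const_nhds.prodMk_nhds (hb.prodMk_nhds tendsto_const_nhds)
  have hv2 := hcont.comp hpair
  have hveq : v = F.T i (A.loc i f z) (D z + b • deriv (A.loc i f) z) (deriv (A.loc i f) z) :=
    tendsto_nhds_unique hv1 hv2
  have hKL : 0 < K / L := by positivity
  have hlow := hcF i (f z) hfc (D z + b • deriv (A.loc i f) z) (deriv (A.loc i f) z) (K / L) hKL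
    hd (fun b' => by
      rw [add_assoc, ← add_smul]
      exact hDz _)
  have hder := enze_deriv hB hθ hε hfBF.1 hzS hfi
  rw [hveq]
  refine le_trans ?_ hlow
  have h18 : c * (θ / L / L) ^ k * K ^ k = c * (K / L * (θ / L)) ^ k := by
    rw [mul_assoc, ← mul_pow]
    congr 2
    ring
  rw [h18]
  refine mul_le_mul_of_nonneg_left ?_ hc.le
  exact pow_le_pow_left₀ (by positivity) (mul_le_mul_of_nonneg_left hder hKL.le) k

end sec

end Pool.Agent.CYL

namespace Pool.Agent.CYL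
alias sig_low := sig_low_pr
end Pool.Agent.CYL
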