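import Pool.Agent.Lib_helper66.CYL.Defs
import Pool.Agent.Lib_helper58.MBS.L.ALIM
import Pool.Agent.Lib_helper58.MBS.L.BNC

/-! # Cylinder theorem: ported block EGRO of MBS (quasi-minimal sets) -/

set_option autoImplicit false
set_option linter.unusedSectionVars false
set_option linter.unusedVariables false

open Filter Topology Metric Set

namespace Pool.Agent.CYL

open Pool.Agent.BR Pool.Agent.MBS

/-- a limit of multiples is a multiple -/
theorem egro_span {V κ : Type} [NormedAddCommGroup V] [InnerProductSpace ℂ V] {U : Filter κ}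
    [U.NeBot] {x y : κ → V} {x₀ y₀ : V} (hx : Tendsto x U (𝓝 x₀)) (hy : Tendsto y U (𝓝 y₀))
    (hy₀ : y₀ ≠ 0) (h : ∀ᶠ n in U, ∃ c : ℂ, x n = c • y n) : ∃ c : ℂ, x₀ = c • y₀ := by
  have h1 : Tendsto (fun n => (inner ℂ (y n) (y n) : ℂ) • x n) U
      (𝓝 ((inner ℂ y₀ y₀ : ℂ) • x₀)) := (hy.inner hy).smul hx
  have h2 : Tendsto (fun n => (inner ℂ (y n) (x n) : ℂ) • y n) U
      (𝓝 ((inner ℂ y₀ x₀ : ℂ) • y₀)) := (hy.inner hx).smul hy
  have h3 : (fun n => (inner ℂ (y n) (y n) : ℂ) • x n) =ᶠ[U]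
      fun n => (inner ℂ (y n) (x n) : ℂ) • y n := by
    filter_upwards [h] with n hn
    obtain ⟨c, hc⟩ := hn
    rw [hc, inner_smul_right, smul_smul, mul_comm]
  have h4 := tendsto_nhds_unique_of_eventuallyEq h1 h2 h3
  have h5 : (inner ℂ y₀ y₀ : ℂ) ≠ 0 := inner_self_ne_zero.2 hy₀
  refine ⟨(inner ℂ y₀ y₀ : ℂ)⁻¹ * inner ℂ y₀ x₀, ?_⟩
  rw [mul_smul, ← h4, smul_smul, inv_mul_cancel₀ h5, one_smul]

section sec

variable {E X : Type} [NormedAddCommGroup E] [NormedSpace ℂ E] [FiniteDimensional ℂ E]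
  [MetricSpace X] [CompactSpace X] {A : Cha E X} {C lam L : ℝ} {M : Set (ℂ → X)} {k N : ℕ}

/-- if the form of `c` has a constant direction then `c` has derivative zero -/
theorem egro_imm {O : Set E} {T : E → E → E → EuclideanSpace ℂ (Fin N)} (hT : TForm O N k T)
    {e₁ e₂ : E} (he : LinearIndependent ℂ ![e₁, e₂]) {c : ℂ → E} {ζ : ℂ}
    (hc : AnalyticAt ℂ c ζ) (hO : c ζ ∈ O) {v : EuclideanSpace ℂ (Fin N)} (hv : v ≠ 0)
    (h : ∀ᶠ w in 𝓝 ζ, ∃ a : ℂ, v = a • T (c w) e₁ e₂) : deriv c ζ = 0 := by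
  -- the pairing with `v`
  set τ : ℂ → EuclideanSpace ℂ (Fin N) := fun w => T (c w) e₁ e₂ with hτ
  have hT0 := hT.hol (c ζ) hO e₁ e₂
  have hcd : HasDerivAt c (deriv c ζ) ζ := hc.differentiableAt.hasDerivAt
  have hp : HasDerivAt (fun w => ((c w, e₁, e₂) : E × E × E)) (deriv c ζ, 0, 0) ζ :=
    hcd.prodMk ((hasDerivAt_const ζ e₁).prodMk (hasDerivAt_const ζ e₂))
  have hfd : HasFDerivAt (fun p : E × E × E => T p.1 p.2.1 p.2.2)
      (fderiv ℂ (fun p : E × E × E => T p.1 p.2.1 p.2.2) (c ζ, e₁, e₂)) (c ζ, e₁, e₂) :=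
    hT0.differentiableAt.hasFDerivAt
  have hτd : HasDerivAt τ (fderiv ℂ (fun p : E × E × E => T p.1 p.2.1 p.2.2) (c ζ, e₁, e₂)
      (deriv c ζ, 0, 0)) ζ := HasFDerivAt.comp_hasDerivAt (x := ζ) (f := fun w => (c w, e₁, e₂))
        (l := fun p : E × E × E => T p.1 p.2.1 p.2.2) hfd hp
  -- `τ w = μ w • v`
  have hvv : (inner ℂ v v : ℂ) ≠ 0 := inner_self_ne_zero.2 hv
  set ℓ : EuclideanSpace ℂ (Fin N) →L[ℂ] ℂ := (inner ℂ v v : ℂ)⁻¹ • innerSL ℂ v with hℓ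
  have hℓv : ∀ x, ℓ x = (inner ℂ v v : ℂ)⁻¹ * inner ℂ v x := fun x => rfl
  have hτμ : ∀ᶠ w in 𝓝 ζ, τ w = ℓ (τ w) • v := by
    filter_upwards [h] with w hw
    obtain ⟨a, ha⟩ := hw
    have ha0 : a ≠ 0 := by
      rintro rfl
      exact hv (by rw [ha, zero_smul])
    have h1 : τ w = a⁻¹ • v := by
      rw [ha, smul_smul, inv_mul_cancel₀ ha0, one_smul]
    rw [h1, hℓv, inner_smul_right]
    congr 1
    field_simp
  have hμd : HasDerivAt (fun w => ℓ (τ w)) (ℓ (fderiv ℂ (fun p : E × E × E => T p.1 p.2.1 p.2.2)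
      (c ζ, e₁, e₂) (deriv c ζ, 0, 0))) ζ := ℓ.hasFDerivAt.comp_hasDerivAt ζ hτd
  have hμv := hμd.smul_const v
  have hEq := (hμv.congr_of_eventuallyEq hτμ).unique hτd
  obtain ⟨a, ha⟩ := h.self_of_nhds
  have h6 := (hT.imm (c ζ) hO e₁ e₂ he (deriv c ζ) 0 0
    (ℓ (fderiv ℂ (fun p : E × E × E => T p.1 p.2.1 p.2.2) (c ζ, e₁, e₂) (deriv c ζ, 0, 0)) * a)
    (by rw [mul_smul, ← ha]; exact hEq.symm))
  exact h6.1

/-- E5: a section over a nonconstant curve cannot have nearly constant norm -/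
theorem no_flat_pr (hE : Module.finrank ℂ E = 2) {K : Set (ℂ → X)} (hK : IsCompact K)
    (hKB : K ⊆ BF A C) (hKn : ∀ g ∈ K, NCst g) (F : A.Frm N k) :
    ∃ η > 0, ∀ f ∈ K, ∀ σ : ℂ → EuclideanSpace ℂ (Fin N),
      (∀ z ∈ ball (0 : ℂ) 1, AnalyticAt ℂ σ z) → ‖σ 0‖ = 1 →
      (∀ e₁ e₂ : E, LinearIndependent ℂ ![e₁, e₂] → ∀ z ∈ ball (0 : ℂ) 1, ∀ i,
        f z ∈ (A.ch i).source → ∃ c : ℂ, σ z = c • F.T i (A.loc i f z) e₁ e₂) →
      ∃ z ∈ ball (0 : ℂ) 1, 1 + η ≤ ‖σ z‖ := by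
  by_contra hcon
  push Not at hcon
  have h1 : ∀ n : ℕ, ∃ f ∈ K, ∃ σ : ℂ → EuclideanSpace ℂ (Fin N),
      (∀ z ∈ ball (0 : ℂ) 1, AnalyticAt ℂ σ z) ∧ ‖σ 0‖ = 1 ∧
      (∀ e₁ e₂ : E, LinearIndependent ℂ ![e₁, e₂] → ∀ z ∈ ball (0 : ℂ) 1, ∀ i,
        f z ∈ (A.ch i).source → ∃ c : ℂ, σ z = c • F.T i (A.loc i f z) e₁ e₂) ∧
      ∀ z ∈ ball (0 : ℂ) 1, ‖σ z‖ < 1 + 1 / ((n : ℝ) + 1) := fun n =>
    hcon (1 / ((n : ℝ) + 1)) (by positivity)
  choose f hfK s hs1 hs2 hpar hs3 using h1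
  let U : Ultrafilter ℕ := hyperfilter ℕ
  have hUt : (U : Filter ℕ) ≤ atTop := Nat.hyperfilter_le_atTop
  -- the limit of the curves
  obtain ⟨g, hg, hglim⟩ : ∃ g ∈ K, Tendsto f U (𝓝 g) := by
    have h2 := isCompact_iff_ultrafilter_le_nhds.1 hK (U.map f)
      (by
        rw [le_principal_iff, Ultrafilter.mem_coe, Ultrafilter.mem_map]
        exact Filter.univ_mem' hfK)
    obtain ⟨g, hg, h3⟩ := h2
    exact ⟨g, hg, h3⟩
  have hgb : g ∈ BF A C := hKB hg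
  -- the limit of the sections
  obtain ⟨S, hSa, hSl, -, -⟩ := ultra_hol U (isOpen_ball (x := (0 : ℂ)) (ε := 1)) s (by
    intro w hw
    obtain ⟨r, hr, hrs⟩ := Metric.isOpen_iff.1 (isOpen_ball (x := (0 : ℂ)) (ε := 1)) w hw
    refine ⟨r, hr, hrs, 2, Filter.Eventually.of_forall fun n y hy => ?_⟩
    refine ⟨hs1 n y (hrs hy), ?_⟩
    have h2 := hs3 n y (hrs hy)
    have h3 : (1 : ℝ) / ((n : ℝ) + 1) ≤ 1 := by
      rw [div_le_one (by positivity)]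
      have : (0 : ℝ) ≤ n := Nat.cast_nonneg n
      linarith
    linarith)
  have hSl' : ∀ w ∈ ball (0 : ℂ) 1, Tendsto (fun n => s n w) U (𝓝 (S w)) := fun w hw =>
    hSl w hw (fun _ => w) tendsto_const_nhds
  have hS0 : ‖S 0‖ = 1 := by
    have h2 := (hSl' 0 (mem_ball_self (by norm_num))).norm
    have h3 : (fun n => ‖s n 0‖) = fun _ => (1 : ℝ) := funext hs2
    rw [h3] at h2
    exact (tendsto_nhds_unique h2 tendsto_const_nhds)
  have hS1 : ∀ w ∈ ball (0 : ℂ) 1, ‖S w‖ ≤ 1 := by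
    intro w hw
    have h2 := (hSl' w hw).norm
    have h3 : Tendsto (fun n : ℕ => 1 + 1 / ((n : ℝ) + 1)) U (𝓝 (1 + 0)) :=
      (tendsto_const_nhds.add tendsto_one_div_add_atTop_nhds_zero_nat).mono_left hUt
    rw [add_zero] at h3
    exact le_of_tendsto_of_tendsto' h2 h3 fun n => (hs3 n w hw).le
  have hSc : ∀ w ∈ ball (0 : ℂ) 1, S w = S 0 := by
    have h2 : DifferentiableOn ℂ S (ball (0 : ℂ) 1) := fun w hw =>
      (hSa w hw).differentiableAt.differentiableWithinAt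
    have h3 := Complex.eqOn_of_isPreconnected_of_isMaxOn_norm
      (convex_ball (0 : ℂ) 1).isPreconnected isOpen_ball h2
      (mem_ball_self (by norm_num : (0 : ℝ) < 1)) (fun w hw => by
        change ‖S w‖ ≤ ‖S 0‖
        rw [hS0]; exact hS1 w hw)
    exact fun w hw => h3 hw
  set v := S 0 with hv
  have hv0 : v ≠ 0 := by
    intro h
    rw [h, norm_zero] at hS0
    exact zero_ne_one hS0
  -- a basis of `E`
  obtain ⟨e₁, e₂, he⟩ : ∃ e₁ e₂ : E, LinearIndependent ℂ ![e₁, e₂] := by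
    have b := Module.finBasisOfFinrankEq ℂ E hE
    refine ⟨b 0, b 1, ?_⟩
    have h2 := b.linearIndependent
    have h3 : (b : Fin 2 → E) = ![b 0, b 1] := by
      funext j
      fin_cases j <;> rfl
    rw [h3] at h2
    exact h2
  -- the chart
  obtain ⟨i, hi⟩ := A.cover (g 0)
  have hi0 : g 0 ∈ (A.ch i).source := A.W_sub i (subset_closure hi)
  have hgc : Continuous g := continuous_iff_continuousAt.2 fun w => (hgb.1 w).1
  have hO : IsOpen (g ⁻¹' (A.ch i).source ∩ ball (0 : ℂ) 1) :=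
    ((A.ch i).open_source.preimage hgc).inter isOpen_ball
  have h0O : (0 : ℂ) ∈ g ⁻¹' (A.ch i).source ∩ ball (0 : ℂ) 1 :=
    ⟨hi0, mem_ball_self (by norm_num)⟩
  have hsp : ∀ w ∈ g ⁻¹' (A.ch i).source ∩ ball (0 : ℂ) 1,
      ∃ c : ℂ, v = c • F.T i (A.loc i g w) e₁ e₂ := by
    rintro w ⟨hw1, hw2⟩
    have h2 : Tendsto (fun n => f n w) U (𝓝 (g w)) := (tendsto_pi_nhds.1 hglim) w
    have h3 : ∀ᶠ n in (U : Filter ℕ), f n w ∈ (A.ch i).source :=
      h2.eventually ((A.ch i).open_source.mem_nhds hw1)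
    have h4 : Tendsto (fun n => A.ch i (f n w)) U (𝓝 (A.loc i g w)) :=
      ((A.ch i).continuousAt hw1).tendsto.comp h2
    have hT0 := (F.tf i).hol (A.loc i g w) ((A.ch i).map_source hw1) e₁ e₂
    have h5 : Tendsto (fun n => ((A.ch i (f n w), e₁, e₂) : E × E × E)) U
        (𝓝 (A.loc i g w, e₁, e₂)) := h4.prodMk_nhds (tendsto_const_nhds.prodMk_nhds
          tendsto_const_nhds)
    have h6 : Tendsto (fun n => F.T i (A.ch i (f n w)) e₁ e₂) U
        (𝓝 (F.T i (A.loc i g w) e₁ e₂)) := by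
      have h7 := hT0.continuousAt.tendsto.comp h5
      exact h7
    have h8 := hSl' w hw2
    rw [hSc w hw2] at h8
    refine egro_span h8 h6 ((F.tf i).ne _ ((A.ch i).map_source hw1) e₁ e₂ he) ?_
    filter_upwards [h3] with n hn
    exact hpar n e₁ e₂ he w hw2 i hn
  -- the derivative vanishes
  have hder : ∀ w ∈ g ⁻¹' (A.ch i).source ∩ ball (0 : ℂ) 1, deriv (A.loc i g) w = 0 := by
    intro w hw
    have h2 : ∀ᶠ y in 𝓝 w, ∃ a : ℂ, v = a • F.T i (A.loc i g y) e₁ e₂ := by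
      filter_upwards [hO.mem_nhds hw] with y hy
      exact hsp y hy
    exact egro_imm (F.tf i) he ((hgb.1 w).2 i hw.1) ((A.ch i).map_source hw.1) hv0 h2
  -- contradiction
  have hcount := (crit_countable (A := A) hgb.1 (hKn g hg)).2
  have hsub : g ⁻¹' (A.ch i).source ∩ ball (0 : ℂ) 1 ⊆ {z | ¬ NC A g z} := by
    intro w hw hnc
    exact hnc i hw.1 (hder w hw)
  have hm := (hcount.mono hsub).measure_zero MeasureTheory.volume
  exact (hO.measure_pos MeasureTheory.volume ⟨0, h0O⟩).ne' hm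

end sec

end Pool.Agent.CYL

namespace Pool.Agent.CYL
alias no_flat := no_flat_pr
end Pool.Agent.CYL
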